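import Pool.Agent.H50.Bose.ScaleSum

set_option autoImplicit false

namespace Pool.Agent.H50.Bose

open MeasureTheory Set

section Count

variable {κ : Type} [Fintype κ] [DecidableEq κ] {Q : Type} [DecidableEq Q]

/-- Number of particles in a given cell. -/
def num (q : κ → Q) (b : Q) : ℕ := (Finset.univ.filter fun l => q l = b).card

omit [DecidableEq κ] in
theorem sum_num (q : κ → Q) : ∑ b ∈ Finset.univ.image q, num q b = Fintype.card κ := by
  unfold num
  rw [← Finset.card_univ]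
  exact (Finset.card_eq_sum_card_image q Finset.univ).symm

omit [DecidableEq κ] in
theorem sum_comp_num (q : κ → Q) (F : Q → ℝ) :
    ∑ i, F (q i) = ∑ b ∈ Finset.univ.image q, (num q b : ℝ) * F b := by
  have h1 : ∑ i, F (q i) = ∑ b ∈ Finset.univ.image q, ∑ i ∈ Finset.univ.filter (fun i => q i = b),
      F (q i) := by
    rw [Finset.sum_fiberwise_of_maps_to]
    intro i _
    exact Finset.mem_image_of_mem _ (Finset.mem_univ _)
  rw [h1]
  apply Finset.sum_congr rfl
  intro b _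
  rw [Finset.sum_congr rfl (g := fun _ => F b)]
  · rw [Finset.sum_const, nsmul_eq_mul]
    rfl
  · intro i hi
    rw [(Finset.mem_filter.mp hi).2]

omit [DecidableEq κ] in
theorem crowd_eq (q : κ → Q) {Q' : Type} [DecidableEq Q'] (q' : κ → Q') :
    (crowd q : ℕ) = ∑ b ∈ Finset.univ.image q',
      (Finset.univ.filter fun i => q' i = b ∧ 3 ≤ occ q i).card := by
  unfold crowd
  rw [Finset.card_eq_sum_card_fiberwise (f := q') (t := Finset.univ.image q')]
  · apply Finset.sum_congr rfl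
    intro b _
    congr 1
    ext i
    simp only [Finset.mem_filter, Finset.mem_univ, true_and]
    tauto
  · intro i _
    simp

omit [DecidableEq κ] in
theorem num_eq_zero (q : κ → Q) {b : Q} (hb : b ∉ Finset.univ.image q) : num q b = 0 := by
  unfold num
  rw [Finset.card_eq_zero, Finset.filter_eq_empty_iff]
  intro i _ h
  exact hb (h ▸ Finset.mem_image_of_mem _ (Finset.mem_univ _))

omit [DecidableEq κ] in
theorem shift_le [AddCommGroup Q] (q : κ → Q) (δ : Q) :
    ∑ b ∈ Finset.univ.image q, (num q b : ℝ) * (num q (b + δ) : ℝ) ≤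
      ∑ b ∈ Finset.univ.image q, (num q b : ℝ) ^ 2 := by
  have h1 : ∑ b ∈ Finset.univ.image q, (num q (b + δ) : ℝ) ^ 2 ≤
      ∑ b ∈ Finset.univ.image q, (num q b : ℝ) ^ 2 := by
    have e1 : ∑ b ∈ Finset.univ.image q, (num q (b + δ) : ℝ) ^ 2 =
        ∑ b ∈ (Finset.univ.image q).image (· + δ), (num q b : ℝ) ^ 2 := by
      symm
      apply Finset.sum_image (f := fun b => (num q b : ℝ) ^ 2) (g := (· + δ))
      intro a _ b _ hab
      exact add_right_cancel hab
    have e2 : ∑ b ∈ (Finset.univ.image q).image (· + δ), (num q b : ℝ) ^ 2 ≤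
        ∑ b ∈ (Finset.univ.image q) ∪ (Finset.univ.image q).image (· + δ), (num q b : ℝ) ^ 2 :=
      Finset.sum_le_sum_of_subset_of_nonneg Finset.subset_union_right
        fun _ _ _ => sq_nonneg _
    have e3 : ∑ b ∈ (Finset.univ.image q) ∪ (Finset.univ.image q).image (· + δ),
        (num q b : ℝ) ^ 2 = ∑ b ∈ Finset.univ.image q, (num q b : ℝ) ^ 2 := by
      symm
      apply Finset.sum_subset Finset.subset_union_left
      intro b _ hb
      rw [num_eq_zero q hb]
      simp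
    rw [e1]
    exact e2.trans e3.le
  have h2 : ∑ b ∈ Finset.univ.image q, (num q b : ℝ) * (num q (b + δ) : ℝ) ≤
      ∑ b ∈ Finset.univ.image q, ((num q b : ℝ) ^ 2 / 2 + (num q (b + δ) : ℝ) ^ 2 / 2) := by
    apply Finset.sum_le_sum
    intro b _
    nlinarith [sq_nonneg ((num q b : ℝ) - (num q (b + δ) : ℝ))]
  rw [Finset.sum_add_distrib, ← Finset.sum_div, ← Finset.sum_div] at h2
  linarith

end Count

section Geometry

variable {N : ℕ}

/-- Number of pairs of particles at distance at most `ρ` (in the maximum norm). -/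
noncomputable def pairsAt (ρ : ℝ) (X : Cfg (Fin N)) : ℝ :=
  ∑ i, ∑ l, if i < l ∧ (∀ a, |X i a - X l a| ≤ ρ) then 1 else 0

theorem floor_near {x y ℓ : ℝ} (hℓ : 0 < ℓ) (h : |x - y| ≤ ℓ) :
    ⌊y / ℓ⌋ - ⌊x / ℓ⌋ = -1 ∨ ⌊y / ℓ⌋ - ⌊x / ℓ⌋ = 0 ∨ ⌊y / ℓ⌋ - ⌊x / ℓ⌋ = 1 := by
  have h1 := abs_le.mp h
  have hx1 := Int.floor_le (x / ℓ)
  have hx2 := Int.lt_floor_add_one (x / ℓ)
  have hy1 := Int.floor_le (y / ℓ)
  have hy2 := Int.lt_floor_add_one (y / ℓ)
  have h2 : x / ℓ - y / ℓ ≤ 1 := by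
    rw [← sub_div, div_le_one hℓ]
    exact h1.2
  have h3 : y / ℓ - x / ℓ ≤ 1 := by
    rw [← sub_div, div_le_one hℓ]
    linarith [h1.1]
  have h4 : (⌊y / ℓ⌋ : ℝ) - ⌊x / ℓ⌋ < 2 := by linarith
  have h5 : (⌊x / ℓ⌋ : ℝ) - ⌊y / ℓ⌋ < 2 := by linarith
  have h6 : ⌊y / ℓ⌋ - ⌊x / ℓ⌋ < 2 := by exact_mod_cast h4
  have h7 : ⌊x / ℓ⌋ - ⌊y / ℓ⌋ < 2 := by exact_mod_cast h5
  omega

/-- The possible displacements. -/
def disp : Finset (Fin 3 → ℤ) := Fintype.piFinset fun _ => {-1, 0, 1}

theorem card_disp : disp.card = 27 := by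
  unfold disp
  rw [Fintype.card_piFinset]
  rfl

theorem pairs_le {ℓ ρ : ℝ} (hℓ : 0 < ℓ) (hρ : ρ ≤ ℓ) (X : Cfg (Fin N)) :
    pairsAt ρ X ≤ 27 / 2 * ∑ b ∈ Finset.univ.image (fun l => cellOf ℓ (X l)),
      (num (fun l => cellOf ℓ (X l)) b : ℝ) ^ 2 := by
  set q : Fin N → Fin 3 → ℤ := fun l => cellOf ℓ (X l) with hq
  set near : Fin N → Fin N → Prop := fun i l => ∀ a, |X i a - X l a| ≤ ρ with hnear
  have hsymm : ∀ i l, near i l ↔ near l i := by
    intro i l
    simp only [hnear]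
    constructor <;> intro h a <;> rw [abs_sub_comm] <;> exact h a
  classical
  have h1 : 2 * pairsAt ρ X ≤ ∑ i, ∑ l, if near i l then (1 : ℝ) else 0 := by
    have e1 : pairsAt ρ X = ∑ i, ∑ l, if l < i ∧ near i l then (1 : ℝ) else 0 := by
      unfold pairsAt
      rw [Finset.sum_comm]
      apply Finset.sum_congr rfl
      intro l _
      apply Finset.sum_congr rfl
      intro i _
      have := hsymm i l
      simp only [hnear] at this
      simp only [hnear, this]
    have e2 : pairsAt ρ X = ∑ i, ∑ l, if i < l ∧ near i l then (1 : ℝ) else 0 := rfl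
    rw [two_mul]
    nth_rewrite 1 [e1]
    rw [e2, ← Finset.sum_add_distrib]
    apply Finset.sum_le_sum
    intro i _
    rw [← Finset.sum_add_distrib]
    apply Finset.sum_le_sum
    intro l _
    by_cases h : near i l
    · rcases lt_trichotomy i l with h' | h' | h'
      · simp [h, h', not_lt.mpr h'.le]
      · subst h'
        simp [h]
      · simp [h, h', not_lt.mpr h'.le]
    · simp [h]
  have h2 : ∑ i, ∑ l, (if near i l then (1 : ℝ) else 0) ≤
      ∑ i, ∑ l, ∑ δ ∈ disp, if q l = q i + δ then (1 : ℝ) else 0 := by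
    apply Finset.sum_le_sum
    intro i _
    apply Finset.sum_le_sum
    intro l _
    have hnn : 0 ≤ ∑ δ ∈ disp, if q l = q i + δ then (1 : ℝ) else 0 :=
      Finset.sum_nonneg fun _ _ => by split_ifs <;> norm_num
    by_cases h : near i l
    · rw [if_pos h]
      have hmem : q l - q i ∈ disp := by
        unfold disp
        rw [Fintype.mem_piFinset]
        intro a
        have := floor_near hℓ ((h a).trans hρ)
        simp only [Finset.mem_insert, Finset.mem_singleton]
        exact this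
      calc (1 : ℝ) = if q l = q i + (q l - q i) then (1 : ℝ) else 0 := by simp
        _ ≤ _ := Finset.single_le_sum (f := fun δ => if q l = q i + δ then (1 : ℝ) else 0)
          (fun _ _ => by split_ifs <;> norm_num) hmem
    · rw [if_neg h]
      exact hnn
  have h3 : ∑ i, ∑ l, ∑ δ ∈ disp, (if q l = q i + δ then (1 : ℝ) else 0) =
      ∑ δ ∈ disp, ∑ b ∈ Finset.univ.image q, (num q b : ℝ) * (num q (b + δ) : ℝ) := by
    have e1 : ∀ i, ∑ l, ∑ δ ∈ disp, (if q l = q i + δ then (1 : ℝ) else 0) =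
        ∑ δ ∈ disp, (num q (q i + δ) : ℝ) := by
      intro i
      rw [Finset.sum_comm]
      apply Finset.sum_congr rfl
      intro δ _
      rw [← Finset.sum_filter, Finset.sum_const, nsmul_eq_mul, mul_one]
      rfl
    simp_rw [e1]
    rw [Finset.sum_comm]
    apply Finset.sum_congr rfl
    intro δ _
    exact sum_comp_num q (fun b => (num q (b + δ) : ℝ))
  have h4 : ∑ δ ∈ disp, ∑ b ∈ Finset.univ.image q, (num q b : ℝ) * (num q (b + δ) : ℝ) ≤
      27 * ∑ b ∈ Finset.univ.image q, (num q b : ℝ) ^ 2 := by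
    calc _ ≤ ∑ _δ ∈ disp, ∑ b ∈ Finset.univ.image q, (num q b : ℝ) ^ 2 :=
          Finset.sum_le_sum fun δ _ => shift_le q δ
      _ = _ := by
          rw [Finset.sum_const, card_disp, nsmul_eq_mul]
          norm_num
  linarith

/-- Most particles of a full cell are in crowded cells of a smaller scale. -/
theorem crowded_ge {h : ℝ} (hh : 0 < h) (X : Cfg (Fin N)) {j J : ℕ} (hj : j ≤ J)
    (b : Fin 3 → ℤ) :
    (num (fun l => cellOf (2 ^ J * h) (X l)) b : ℝ) - 2 * 8 ^ (J - j) ≤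
      ((Finset.univ.filter fun i => cellOf (2 ^ J * h) (X i) = b ∧
        3 ≤ occ (fun l => cellOf (2 ^ j * h) (X l)) i).card : ℝ) := by
  set q : Fin N → Fin 3 → ℤ := fun l => cellOf (2 ^ j * h) (X l) with hq
  set qJ : Fin N → Fin 3 → ℤ := fun l => cellOf (2 ^ J * h) (X l) with hqJ
  set s := Finset.univ.filter fun i => qJ i = b ∧ ¬ 3 ≤ occ q i with hs
  have h1 : num qJ b = (Finset.univ.filter fun i => qJ i = b ∧ 3 ≤ occ q i).card + s.card := by
    unfold num
    rw [hs, ← Finset.card_union_of_disjoint]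
    · congr 1
      ext i
      simp only [Finset.mem_filter, Finset.mem_univ, true_and, Finset.mem_union]
      tauto
    · rw [Finset.disjoint_filter]
      intro i _ h1 h2
      exact h2.2 h1.2
  have h2 : s.card ≤ 2 * (s.image q).card := by
    apply Finset.card_le_mul_card_image
    intro d hd
    obtain ⟨i0, hi0, rfl⟩ := Finset.mem_image.mp hd
    have h3 : ¬ 3 ≤ occ q i0 := (Finset.mem_filter.mp hi0).2.2
    have h4 : (s.filter fun x => q x = q i0).card ≤ occ q i0 := by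
      unfold occ
      apply Finset.card_le_card
      intro x hx
      simp only [Finset.mem_filter, Finset.mem_univ, true_and] at hx ⊢
      exact hx.2
    omega
  have h3 : (s.image q).card ≤ 8 ^ (J - j) := by
    have h4 : s.image q ⊆ Fintype.piFinset fun a => Finset.Ico (2 ^ (J - j) * b a)
        (2 ^ (J - j) * (b a + 1)) := by
      intro d hd
      obtain ⟨i, hi, rfl⟩ := Finset.mem_image.mp hd
      rw [Fintype.mem_piFinset]
      intro a
      have h5 : qJ i = b := (Finset.mem_filter.mp hi).2.1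
      have h6 : ⌊X i a / (2 ^ J * h)⌋ = b a := congrFun h5 a
      rw [Int.floor_eq_iff] at h6
      have h7 : (2 : ℝ) ^ J = 2 ^ (J - j) * 2 ^ j := by
        rw [← pow_add]
        congr 1
        omega
      have h8 : X i a / (2 ^ j * h) = 2 ^ (J - j) * (X i a / (2 ^ J * h)) := by
        rw [h7]
        field_simp
      have h9 : (0 : ℝ) < 2 ^ (J - j) := by positivity
      rw [Finset.mem_Ico]
      show 2 ^ (J - j) * b a ≤ ⌊X i a / (2 ^ j * h)⌋ ∧
        ⌊X i a / (2 ^ j * h)⌋ < 2 ^ (J - j) * (b a + 1)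
      rw [Int.le_floor, Int.floor_lt, h8]
      push_cast
      constructor
      · exact mul_le_mul_of_nonneg_left h6.1 h9.le
      · exact mul_lt_mul_of_pos_left h6.2 h9
    refine (Finset.card_le_card h4).trans (le_of_eq ?_)
    rw [Fintype.card_piFinset]
    have h5 : ∀ a : Fin 3, (Finset.Ico (2 ^ (J - j) * b a) (2 ^ (J - j) * (b a + 1))).card =
        2 ^ (J - j) := by
      intro a
      rw [Int.card_Ico]
      have : (2 : ℤ) ^ (J - j) * (b a + 1) - 2 ^ (J - j) * b a = ((2 ^ (J - j) : ℕ) : ℤ) := by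
        push_cast
        ring
      rw [this, Int.toNat_natCast]
    simp_rw [h5]
    rw [Finset.prod_const, Finset.card_univ, Fintype.card_fin, ← pow_mul, mul_comm, pow_mul]
    norm_num
  have h4 : num qJ b ≤ (Finset.univ.filter fun i => qJ i = b ∧ 3 ≤ occ q i).card +
      2 * 8 ^ (J - j) := by omega
  have h5 : (num qJ b : ℝ) ≤ ((Finset.univ.filter fun i => qJ i = b ∧ 3 ≤ occ q i).card : ℝ) +
      2 * 8 ^ (J - j) := by exact_mod_cast h4
  linarith

end Geometry

section Pointwise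

/-- The estimate in one large cell. -/
theorem cell_ineq {n : ℕ} {N : ℝ} (hnN : (n : ℝ) ≤ N) {J J0 : ℕ} (hJ : J0 ≤ J) (c : ℕ → ℝ)
    (hc0 : ∀ j, 0 ≤ c j) (hc : ∀ j ≤ J, (n : ℝ) - 2 * 8 ^ (J - j) ≤ c j) {a D C : ℝ}
    (ha : 0 ≤ a) (hD : 0 < D) (hC : 54 * a * 8 ^ (J - J0) ≤ C) (hD2 : 162 * a * N * D ≤ 1) :
    a * (27 / 2) * (n : ℝ) ^ 2 ≤ C * n + 1 / (6 * D) * c 0 +
      ∑ j ∈ Finset.Icc 1 J0, 864 * a * 8 ^ (J - j) * c j := by
  have hC0 : 0 ≤ C := le_trans (by positivity) hC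
  have hn0 : (0 : ℝ) ≤ n := Nat.cast_nonneg n
  have hsum0 : 0 ≤ ∑ j ∈ Finset.Icc 1 J0, 864 * a * 8 ^ (J - j) * c j :=
    Finset.sum_nonneg fun j _ => mul_nonneg (by positivity) (hc0 j)
  have h00 : 0 ≤ 1 / (6 * D) * c 0 := mul_nonneg (by positivity) (hc0 0)
  have hCn : 0 ≤ C * n := mul_nonneg hC0 hn0
  rcases lt_or_ge n (4 * 8 ^ (J - J0)) with h1 | h1
  · have h1' : (n : ℝ) ≤ 4 * 8 ^ (J - J0) := by exact_mod_cast h1.le
    have h2 : a * (27 / 2) * (n : ℝ) ^ 2 ≤ 54 * a * 8 ^ (J - J0) * n := by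
      calc a * (27 / 2) * (n : ℝ) ^ 2 = a * (27 / 2) * n * n := by ring
        _ ≤ a * (27 / 2) * n * (4 * 8 ^ (J - J0)) :=
          mul_le_mul_of_nonneg_left h1' (by positivity)
        _ = _ := by ring
    have h3 : 54 * a * 8 ^ (J - J0) * n ≤ C * n := mul_le_mul_of_nonneg_right hC hn0
    linarith
  · rcases lt_or_ge n (4 * 8 ^ J) with h2 | h2
    · -- intermediate scales
      have hex : ∃ j, 4 * 8 ^ (J - j) ≤ n := ⟨J0, h1⟩
      classical
      set j := Nat.find hex with hj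
      have hj1 : 4 * 8 ^ (J - j) ≤ n := Nat.find_spec hex
      have hj2 : j ≤ J0 := Nat.find_min' hex h1
      have hj3 : 1 ≤ j := by
        rw [Nat.one_le_iff_ne_zero]
        intro h
        rw [h] at hj1
        simp only [Nat.sub_zero] at hj1
        omega
      have hj4 : n < 4 * 8 ^ (J - (j - 1)) := by
        have := Nat.find_min hex (m := j - 1) (by omega)
        omega
      have hj5 : J - (j - 1) = (J - j) + 1 := by omega
      rw [hj5, pow_succ] at hj4
      have hj1' : 4 * (8 : ℝ) ^ (J - j) ≤ n := by exact_mod_cast hj1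
      have hj4' : (n : ℝ) ≤ 32 * 8 ^ (J - j) := by
        have : n ≤ 32 * 8 ^ (J - j) := by omega
        exact_mod_cast this
      have hcj := hc j (hj2.trans hJ)
      have h3 : (n : ℝ) / 2 ≤ c j := by linarith
      have h4 : 864 * a * 8 ^ (J - j) * c j ≤
          ∑ j ∈ Finset.Icc 1 J0, 864 * a * 8 ^ (J - j) * c j :=
        Finset.single_le_sum (f := fun j => 864 * a * 8 ^ (J - j) * c j)
          (fun j _ => mul_nonneg (by positivity) (hc0 j)) (Finset.mem_Icc.mpr ⟨hj3, hj2⟩)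
      have h5 : a * (27 / 2) * (n : ℝ) ^ 2 ≤ 864 * a * 8 ^ (J - j) * c j := by
        calc a * (27 / 2) * (n : ℝ) ^ 2 = a * (27 / 2) * n * n := by ring
          _ ≤ a * (27 / 2) * n * (32 * 8 ^ (J - j)) :=
            mul_le_mul_of_nonneg_left hj4' (by positivity)
          _ = 864 * a * 8 ^ (J - j) * (n / 2) := by ring
          _ ≤ _ := mul_le_mul_of_nonneg_left h3 (by positivity)
      linarith
    · have h2' : 4 * (8 : ℝ) ^ J ≤ n := by exact_mod_cast h2
      have hc00 := hc 0 (Nat.zero_le _)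
      simp only [Nat.sub_zero] at hc00
      have h3 : (n : ℝ) / 2 ≤ c 0 := by linarith
      have h4 : 162 * a * n * D ≤ 1 := by
        refine le_trans ?_ hD2
        gcongr
      have h5 : a * (27 / 2) * (n : ℝ) ^ 2 ≤ 1 / (6 * D) * (n / 2) := by
        rw [show 1 / (6 * D) * ((n : ℝ) / 2) = n / (12 * D) by field_simp; ring,
          le_div_iff₀ (by positivity)]
        calc a * (27 / 2) * (n : ℝ) ^ 2 * (12 * D) = 162 * a * n * D * n := by ring
          _ ≤ 1 * n := mul_le_mul_of_nonneg_right h4 hn0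
          _ = n := one_mul _
      have h6 : 1 / (6 * D) * (n / 2) ≤ 1 / (6 * D) * c 0 :=
        mul_le_mul_of_nonneg_left h3 (by positivity)
      linarith

theorem pointwise {N : ℕ} (X : Cfg (Fin N)) {h : ℝ} (hh : 0 < h) {J J0 : ℕ} (hJ : J0 ≤ J)
    {ρ : ℝ} (hρ : ρ ≤ 2 ^ J * h) {a D C : ℝ}
    (ha : 0 ≤ a) (hD : 0 < D) (hC : 54 * a * 8 ^ (J - J0) ≤ C) (hD2 : 162 * a * N * D ≤ 1) :
    a * pairsAt ρ X ≤ C * N + 1 / (6 * D) * crowdAt h X +
      ∑ j ∈ Finset.Icc 1 J0, 864 * a * 8 ^ (J - j) * crowdAt (2 ^ j * h) X := by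
  set qJ : Fin N → Fin 3 → ℤ := fun l => cellOf (2 ^ J * h) (X l) with hqJ
  set B := Finset.univ.image qJ with hB
  set cc : ℕ → (Fin 3 → ℤ) → ℝ := fun j b =>
    ((Finset.univ.filter fun i => qJ i = b ∧
        3 ≤ occ (fun l => cellOf (2 ^ j * h) (X l)) i).card : ℝ) with hcc
  have h1 := pairs_le (by positivity : 0 < 2 ^ J * h) hρ X
  have hN : ∑ b ∈ B, (num qJ b : ℝ) = N := by
    have := sum_num qJ
    rw [Fintype.card_fin] at this
    exact_mod_cast this
  have hnum : ∀ b, (num qJ b : ℝ) ≤ N := by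
    intro b
    have : num qJ b ≤ Fintype.card (Fin N) := Finset.card_le_univ _
    rw [Fintype.card_fin] at this
    exact_mod_cast this
  have hcrowd : ∀ j, (crowdAt (2 ^ j * h) X : ℝ) = ∑ b ∈ B, cc j b := by
    intro j
    unfold crowdAt
    rw [crowd_eq _ qJ]
    push_cast
    rfl
  have h0 : (crowdAt h X : ℝ) = ∑ b ∈ B, cc 0 b := by
    have := hcrowd 0
    rwa [pow_zero, one_mul] at this
  have h2 : ∀ b ∈ B, a * (27 / 2) * (num qJ b : ℝ) ^ 2 ≤ C * num qJ b + 1 / (6 * D) * cc 0 b +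
      ∑ j ∈ Finset.Icc 1 J0, 864 * a * 8 ^ (J - j) * cc j b := by
    intro b _
    exact cell_ineq (hnum b) hJ (fun j => cc j b) (fun j => by simp only [hcc]; positivity)
      (fun j hj => crowded_ge hh X hj b) ha hD hC hD2
  have h3 := Finset.sum_le_sum h2
  rw [Finset.sum_add_distrib, Finset.sum_add_distrib, ← Finset.mul_sum, ← Finset.mul_sum,
    ← Finset.mul_sum, hN, ← h0, Finset.sum_comm] at h3
  have h4 : ∑ j ∈ Finset.Icc 1 J0, ∑ b ∈ B, 864 * a * 8 ^ (J - j) * cc j b =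
      ∑ j ∈ Finset.Icc 1 J0, 864 * a * 8 ^ (J - j) * crowdAt (2 ^ j * h) X := by
    apply Finset.sum_congr rfl
    intro j _
    rw [hcrowd, Finset.mul_sum]
  rw [h4] at h3
  have h5 : a * pairsAt ρ X ≤ a * (27 / 2 * ∑ b ∈ B, (num qJ b : ℝ) ^ 2) :=
    mul_le_mul_of_nonneg_left h1 ha
  linarith

end Pointwise

end Pool.Agent.H50.Bose
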