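import Mathlib

/-!
# The bosonic Hamiltonian with an attractive two-body and a repulsive three-body interaction

Points of three dimensional space are functions `Fin 3 → ℝ` (with Lebesgue measure), and a
configuration of `N` particles is a function `Fin N → Fin 3 → ℝ`.
-/

set_option autoImplicit false

namespace Pool.Agent.H50.Bose

open MeasureTheory

/-- Euclidean length of a point of three dimensional space. -/
noncomputable def len (x : Fin 3 → ℝ) : ℝ := Real.sqrt (∑ a, x a ^ 2)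

/-- `U` is an admissible external potential: measurable, essentially bounded on every ball, and
`U x ≥ c |x| ^ α` almost everywhere for some `c, α > 0`. -/
structure IsTrap (U : (Fin 3 → ℝ) → ℝ) : Prop where
  measurable : Measurable U
  locBdd : ∀ R : ℝ, ∃ B : ℝ, ∀ᵐ x : Fin 3 → ℝ, len x ≤ R → |U x| ≤ B
  growth : ∃ c : ℝ, 0 < c ∧ ∃ α : ℝ, 0 < α ∧ ∀ᵐ x : Fin 3 → ℝ, c * len x ^ α ≤ U x

/-- `V` is an admissible three-body potential: measurable, nonnegative, bounded, of compact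
support, not almost everywhere zero, and with the two symmetries of the problem. -/
structure IsThreeBody (V : (Fin 3 → ℝ) → (Fin 3 → ℝ) → ℝ) : Prop where
  measurable : Measurable (Function.uncurry V)
  nonneg : ∀ x y, 0 ≤ V x y
  bdd : ∃ B : ℝ, ∀ x y, V x y ≤ B
  supp : HasCompactSupport (Function.uncurry V)
  ne_zero : ¬ ∀ᵐ p : (Fin 3 → ℝ) × (Fin 3 → ℝ), V p.1 p.2 = 0
  symm : ∀ x y, V x y = V y x
  perm : ∀ x y z, V (x - y) (x - z) = V (y - x) (y - z) ∧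
    V (y - x) (y - z) = V (z - y) (z - x)

/-- `W` is an admissible two-body potential: measurable, nonpositive, even, bounded and of compact
support. -/
structure IsPair (W : (Fin 3 → ℝ) → ℝ) : Prop where
  measurable : Measurable W
  nonpos : ∀ x, W x ≤ 0
  even : ∀ x, W (-x) = W x
  bdd : ∃ B : ℝ, ∀ x, |W x| ≤ B
  supp : HasCompactSupport W

/-- The total potential `∑ U(x_i) + ∑_{i<j} N^(3β-1) W(N^β (x_i - x_j)) +
∑_{i<j<k} N V(N^(1/2) (x_i - x_j, x_i - x_k))` of a configuration of `N` particles. -/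
noncomputable def potential (N : ℕ) (β : ℝ) (U : (Fin 3 → ℝ) → ℝ)
    (V : (Fin 3 → ℝ) → (Fin 3 → ℝ) → ℝ) (W : (Fin 3 → ℝ) → ℝ) (X : Fin N → Fin 3 → ℝ) : ℝ :=
  (∑ i, U (X i)) +
  (∑ i, ∑ j, if i < j then (N : ℝ) ^ (3 * β - 1) * W ((N : ℝ) ^ β • (X i - X j)) else 0) +
  ∑ i, ∑ j, ∑ k, if i < j ∧ j < k then
    (N : ℝ) * V ((N : ℝ) ^ (1 / 2 : ℝ) • (X i - X j)) ((N : ℝ) ^ (1 / 2 : ℝ) • (X i - X k)) else 0

/-- The quadratic form of the Hamiltonian: the integral of `∑ |∇_i ψ|^2 + potential · |ψ|^2`. -/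
noncomputable def energy (N : ℕ) (β : ℝ) (U : (Fin 3 → ℝ) → ℝ)
    (V : (Fin 3 → ℝ) → (Fin 3 → ℝ) → ℝ) (W : (Fin 3 → ℝ) → ℝ)
    (ψ : (Fin N → Fin 3 → ℝ) → ℂ) : ℝ :=
  ∫ X : Fin N → Fin 3 → ℝ,
    ((∑ i, ∑ a, ‖fderiv ℝ ψ X (Pi.single i (Pi.single a 1))‖ ^ 2) +
      potential N β U V W X * ‖ψ X‖ ^ 2)

/-- Bosonic test functions: smooth, compactly supported, symmetric under permutations of the
particles. -/
structure IsTest (N : ℕ) (ψ : (Fin N → Fin 3 → ℝ) → ℂ) : Prop where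
  smooth : ContDiff ℝ ((⊤ : ℕ∞) : WithTop ℕ∞) ψ
  supp : HasCompactSupport ψ
  symm : ∀ (σ : Equiv.Perm (Fin N)) (X : Fin N → Fin 3 → ℝ), ψ (fun i => X (σ i)) = ψ X

/-- Stability of the second kind: there is `C > 0` with `H_N ≥ -C N` for all `N ≥ 1`. -/
def Stable (β : ℝ) (U : (Fin 3 → ℝ) → ℝ) (V : (Fin 3 → ℝ) → (Fin 3 → ℝ) → ℝ)
    (W : (Fin 3 → ℝ) → ℝ) : Prop :=
  ∃ C : ℝ, 0 < C ∧ ∀ N : ℕ, 1 ≤ N → ∀ ψ : (Fin N → Fin 3 → ℝ) → ℂ, IsTest N ψ →
    -C * N * ∫ X, ‖ψ X‖ ^ 2 ≤ energy N β U V W ψ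

end Pool.Agent.H50.Bose
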