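import Pool.Agent.H50.Bose.Combine

set_option autoImplicit false

namespace Pool.Agent.H50.Bose

open MeasureTheory Set

section Meas

variable {κ : Type} [Fintype κ] [LinearOrder κ]

theorem measurable_cellOf (r : ℝ) : Measurable (cellOf r) := by
  unfold cellOf
  rw [measurable_pi_iff]
  intro a
  have h1 : Measurable fun x : Fin 3 → ℝ => x a / r := by fun_prop
  exact Int.measurable_floor.comp h1

omit [LinearOrder κ] in
theorem measurable_crowdAt (r : ℝ) : Measurable fun X : Cfg κ => (crowdAt r X : ℝ) := by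
  have h1 : Measurable fun X : Cfg κ => (fun l => cellOf r (X l)) := by
    rw [measurable_pi_iff]
    intro l
    exact (measurable_cellOf r).comp (measurable_pi_apply l)
  have h2 : Measurable fun q : κ → Fin 3 → ℤ => (crowd q : ℝ) := measurable_of_countable _
  exact h2.comp h1

omit [LinearOrder κ] in
theorem crowdAt_le (r : ℝ) (X : Cfg κ) : (crowdAt r X : ℝ) ≤ Fintype.card κ := by
  unfold crowdAt crowd
  exact_mod_cast Finset.card_le_univ _

theorem measurable_pairsAt {N : ℕ} (ρ : ℝ) : Measurable fun X : Cfg (Fin N) => pairsAt ρ X := by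
  unfold pairsAt
  apply Finset.measurable_fun_sum
  intro i _
  apply Finset.measurable_fun_sum
  intro l _
  by_cases h : i < l
  · simp only [h, true_and]
    apply Measurable.ite _ measurable_const measurable_const
    rw [Set.ofPred_forall]
    apply MeasurableSet.iInter
    intro a
    apply measurableSet_le
    · fun_prop
    · exact measurable_const
  · simp only [h, false_and, if_false]
    exact measurable_const

theorem pairsAt_nonneg {N : ℕ} (ρ : ℝ) (X : Cfg (Fin N)) : 0 ≤ pairsAt ρ X := by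
  unfold pairsAt
  apply Finset.sum_nonneg
  intro i _
  apply Finset.sum_nonneg
  intro l _
  split_ifs <;> norm_num

theorem pairsAt_le {N : ℕ} (ρ : ℝ) (X : Cfg (Fin N)) : pairsAt ρ X ≤ (N : ℝ) ^ 2 := by
  unfold pairsAt
  calc _ ≤ ∑ _i : Fin N, ∑ _l : Fin N, (1 : ℝ) := by
        apply Finset.sum_le_sum
        intro i _
        apply Finset.sum_le_sum
        intro l _
        split_ifs <;> norm_num
    _ = _ := by
        simp
        ring

variable {v3 : (Fin 3 → ℝ) → (Fin 3 → ℝ) → (Fin 3 → ℝ) → ℝ}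

theorem measurable_pot3 (hvm : Measurable fun p : (Fin 3 → ℝ) × (Fin 3 → ℝ) × (Fin 3 → ℝ) =>
      v3 p.1 p.2.1 p.2.2) : Measurable fun X : Cfg κ => pot3 v3 X := by
  unfold pot3
  apply Finset.measurable_fun_sum
  intro i _
  apply Finset.measurable_fun_sum
  intro j _
  apply Finset.measurable_fun_sum
  intro k _
  by_cases h : i < j ∧ j < k
  · simp only [h, and_self, if_true]
    have h1 : Measurable (fun Y : Cfg κ =>
        ((Y i, Y j, Y k) : (Fin 3 → ℝ) × (Fin 3 → ℝ) × (Fin 3 → ℝ))) := by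
      fun_prop
    exact hvm.comp h1
  · simp only [h, if_false]
    exact measurable_const

theorem pot3_nonneg (hv0 : ∀ x y z, 0 ≤ v3 x y z) (X : Cfg κ) : 0 ≤ pot3 v3 X := by
  unfold pot3
  apply Finset.sum_nonneg
  intro i _
  apply Finset.sum_nonneg
  intro j _
  apply Finset.sum_nonneg
  intro k _
  split_ifs
  · exact hv0 _ _ _
  · exact le_refl _

theorem pot3_le {B : ℝ} (hB : 0 ≤ B) (hvB : ∀ x y z, v3 x y z ≤ B) (X : Cfg κ) :
    pot3 v3 X ≤ (Fintype.card κ : ℝ) ^ 3 * B := by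
  unfold pot3
  calc _ ≤ ∑ _i : κ, ∑ _j : κ, ∑ _k : κ, B := by
        apply Finset.sum_le_sum
        intro i _
        apply Finset.sum_le_sum
        intro j _
        apply Finset.sum_le_sum
        intro k _
        split_ifs
        · exact hvB _ _ _
        · exact hB
    _ = _ := by
        simp only [Finset.sum_const, Finset.card_univ, nsmul_eq_mul]
        ring

end Meas

section Int

variable {κ : Type} [Fintype κ] [DecidableEq κ]

theorem integrable_sq {ψ : Cfg κ → ℂ} (hψ : Continuous ψ) (hs : HasCompactSupport ψ) :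
    Integrable fun X => ‖ψ X‖ ^ 2 := by
  apply Continuous.integrable_of_hasCompactSupport (by fun_prop)
  have h1 : (fun X => ‖ψ X‖ ^ 2) = (fun z : ℂ => ‖z‖ ^ 2) ∘ ψ := rfl
  rw [h1]
  exact hs.comp_left (by simp)

theorem integrable_grad2 {ψ : Cfg κ → ℂ} (hψ : ContDiff ℝ 1 ψ) (hs : HasCompactSupport ψ) :
    Integrable fun X => grad2 ψ X := by
  apply Continuous.integrable_of_hasCompactSupport (continuous_grad2 hψ)
  have h1 : grad2 ψ = (fun L : Cfg κ →L[ℝ] ℂ => ∑ i : κ, ∑ a : Fin 3,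
      ‖L (Pi.single i (Pi.single a 1))‖ ^ 2) ∘ (fderiv ℝ ψ) := rfl
  rw [h1]
  exact (hs.fderiv ℝ).comp_left (by simp)

theorem integrable_bdd {ψ : Cfg κ → ℂ} (hψ : Continuous ψ) (hs : HasCompactSupport ψ)
    {F : Cfg κ → ℝ} (hF : Measurable F) {B : ℝ} (hB : ∀ X, |F X| ≤ B) :
    Integrable fun X => F X * ‖ψ X‖ ^ 2 := by
  apply (integrable_sq hψ hs).bdd_mul (c := B) hF.aestronglyMeasurable
  exact Filter.Eventually.of_forall fun X => by
    rw [Real.norm_eq_abs]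
    exact hB X

end Int

section Level

variable {κ : Type} [Fintype κ] [LinearOrder κ]
variable {v3 : (Fin 3 → ℝ) → (Fin 3 → ℝ) → (Fin 3 → ℝ) → ℝ}

theorem integrable_tot (hvm : Measurable fun p : (Fin 3 → ℝ) × (Fin 3 → ℝ) × (Fin 3 → ℝ) =>
      v3 p.1 p.2.1 p.2.2) (hv0 : ∀ x y z, 0 ≤ v3 x y z) {B : ℝ} (hB : 0 ≤ B)
    (hvB : ∀ x y z, v3 x y z ≤ B)
    {ψ : Cfg κ → ℂ} (hψ : ContDiff ℝ 1 ψ) (hs : HasCompactSupport ψ) :
    Integrable fun X => tot v3 ψ X := by
  unfold tot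
  apply (integrable_grad2 hψ hs).add
  apply integrable_bdd hψ.continuous hs (measurable_pot3 hvm)
    (B := (Fintype.card κ : ℝ) ^ 3 * B)
  intro X
  rw [abs_of_nonneg (pot3_nonneg hv0 X)]
  exact pot3_le hB hvB X

/-- The real form of the estimate at one scale. -/
theorem scale_real (hvm : Measurable fun p : (Fin 3 → ℝ) × (Fin 3 → ℝ) × (Fin 3 → ℝ) =>
      v3 p.1 p.2.1 p.2.2) (hv0 : ∀ x y z, 0 ≤ v3 x y z)
    (hs1 : ∀ x y z, v3 x y z = v3 x z y) (hs2 : ∀ x y z, v3 x y z = v3 y x z)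
    {B : ℝ} (hB : 0 ≤ B) (hvB : ∀ x y z, v3 x y z ≤ B)
    {r K : ℝ} (hr : 0 < r) (hK : 0 ≤ K) (hTB : TB v3 r K)
    {ψ : Cfg κ → ℂ} (hψ : ContDiff ℝ 1 ψ) (hs : HasCompactSupport ψ) :
    ∫ X : Cfg κ, (crowdAt r X : ℝ) * ‖ψ X‖ ^ 2 ≤ 3 * K * ∫ X : Cfg κ, tot v3 ψ X := by
  have h1 := scale_sum hvm hv0 hs1 hs2 hr hTB hψ
  have hci : Integrable fun X : Cfg κ => (crowdAt r X : ℝ) * ‖ψ X‖ ^ 2 :=
    integrable_bdd hψ.continuous hs (measurable_crowdAt r) (B := Fintype.card κ)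
      (fun X => by
        rw [abs_of_nonneg (Nat.cast_nonneg _)]
        exact crowdAt_le r X)
  have hti := integrable_tot hvm hv0 hB hvB hψ hs
  have htn : ∀ X, 0 ≤ tot v3 ψ X := fun X =>
    add_nonneg (grad2_nonneg _ _) (mul_nonneg (pot3_nonneg hv0 X) (sq_nonneg _))
  rw [← ofReal_integral_eq_lintegral_ofReal hti (Filter.Eventually.of_forall htn)] at h1
  have h2 : ∫⁻ X : Cfg κ, ENNReal.ofReal ((crowdAt r X : ℝ) / 3) * ENNReal.ofReal (‖ψ X‖ ^ 2) =
      ENNReal.ofReal (∫ X : Cfg κ, (crowdAt r X : ℝ) * ‖ψ X‖ ^ 2 / 3) := by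
    rw [ofReal_integral_eq_lintegral_ofReal (hci.div_const 3)
      (Filter.Eventually.of_forall fun X => by
        show (0 : ℝ) ≤ _
        positivity)]
    apply lintegral_congr
    intro X
    rw [← ENNReal.ofReal_mul (by positivity)]
    congr 1
    ring
  have hI0 : 0 ≤ ∫ X : Cfg κ, tot v3 ψ X := integral_nonneg htn
  rw [h2, ← ENNReal.ofReal_mul hK, ENNReal.ofReal_le_ofReal_iff (by positivity),
    integral_div] at h1
  linarith

end Level

section Large

variable {N : ℕ} {v3 : (Fin 3 → ℝ) → (Fin 3 → ℝ) → (Fin 3 → ℝ) → ℝ}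

theorem int_bound (hvm : Measurable fun p : (Fin 3 → ℝ) × (Fin 3 → ℝ) × (Fin 3 → ℝ) =>
      v3 p.1 p.2.1 p.2.2) (hv0 : ∀ x y z, 0 ≤ v3 x y z)
    (hs1 : ∀ x y z, v3 x y z = v3 x z y) (hs2 : ∀ x y z, v3 x y z = v3 y x z)
    {B : ℝ} (hB : 0 ≤ B) (hvB : ∀ x y z, v3 x y z ≤ B)
    {h D : ℝ} (hh : 0 < h) (hD : 0 < D) (hTB : ∀ j : ℕ, TB v3 (2 ^ j * h) (D * 64 ^ j))
    {J J0 : ℕ} (hJ : J0 ≤ J) {ρ : ℝ} (hρ : ρ ≤ 2 ^ J * h) {a C : ℝ}
    (ha : 0 ≤ a) (hC : 54 * a * 8 ^ (J - J0) ≤ C) (hD2 : 162 * a * N * D ≤ 1)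
    (hC3 : 2592 * a * D * 8 ^ J * 8 ^ (J0 + 1) / 7 ≤ 1 / 2)
    {ψ : Cfg (Fin N) → ℂ} (hψ : ContDiff ℝ 1 ψ) (hs : HasCompactSupport ψ) :
    a * ∫ X, pairsAt ρ X * ‖ψ X‖ ^ 2 ≤ C * N * (∫ X, ‖ψ X‖ ^ 2) + ∫ X, tot v3 ψ X := by
  have hlev : ∀ j : ℕ, ∫ X : Cfg (Fin N), (crowdAt (2 ^ j * h) X : ℝ) * ‖ψ X‖ ^ 2 ≤
      3 * (D * 64 ^ j) * ∫ X, tot v3 ψ X := fun j =>
    scale_real hvm hv0 hs1 hs2 hB hvB (by positivity) (by positivity) (hTB j) hψ hs
  set E := ∫ X, tot v3 ψ X with hE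
  have hE0 : 0 ≤ E := integral_nonneg fun X =>
    add_nonneg (grad2_nonneg _ _) (mul_nonneg (pot3_nonneg hv0 X) (sq_nonneg _))
  have hci : ∀ j : ℕ, Integrable fun X : Cfg (Fin N) =>
      (crowdAt (2 ^ j * h) X : ℝ) * ‖ψ X‖ ^ 2 := fun j =>
    integrable_bdd hψ.continuous hs (measurable_crowdAt _) (B := Fintype.card (Fin N))
      (fun X => by
        rw [abs_of_nonneg (Nat.cast_nonneg _)]
        exact crowdAt_le _ X)
  have hpi : Integrable fun X : Cfg (Fin N) => pairsAt ρ X * ‖ψ X‖ ^ 2 :=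
    integrable_bdd hψ.continuous hs (measurable_pairsAt ρ) (B := (N : ℝ) ^ 2)
      (fun X => by
        rw [abs_of_nonneg (pairsAt_nonneg ρ X)]
        exact pairsAt_le ρ X)
  have hsq := integrable_sq hψ.continuous hs
  have hpt : ∀ X : Cfg (Fin N), a * (pairsAt ρ X * ‖ψ X‖ ^ 2) ≤ C * N * ‖ψ X‖ ^ 2 +
      1 / (6 * D) * ((crowdAt (2 ^ 0 * h) X : ℝ) * ‖ψ X‖ ^ 2) +
      ∑ j ∈ Finset.Icc 1 J0, 864 * a * 8 ^ (J - j) *
        ((crowdAt (2 ^ j * h) X : ℝ) * ‖ψ X‖ ^ 2) := by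
    intro X
    have h1 := pointwise X hh hJ hρ ha hD hC hD2
    have h2 := mul_le_mul_of_nonneg_right h1 (sq_nonneg ‖ψ X‖)
    rw [add_mul, add_mul, Finset.sum_mul] at h2
    rw [pow_zero, one_mul]
    refine le_trans (le_of_eq (by ring)) (h2.trans (le_of_eq ?_))
    congr 1
    · ring
    · apply Finset.sum_congr rfl
      intro j _
      ring
  have hint : a * ∫ X, pairsAt ρ X * ‖ψ X‖ ^ 2 ≤ C * N * (∫ X, ‖ψ X‖ ^ 2) +
      1 / (6 * D) * (∫ X, (crowdAt (2 ^ 0 * h) X : ℝ) * ‖ψ X‖ ^ 2) +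
      ∑ j ∈ Finset.Icc 1 J0, 864 * a * 8 ^ (J - j) *
        (∫ X : Cfg (Fin N), (crowdAt (2 ^ j * h) X : ℝ) * ‖ψ X‖ ^ 2) := by
    have h1 : ∫ X, a * (pairsAt ρ X * ‖ψ X‖ ^ 2) ≤ ∫ X, (C * N * ‖ψ X‖ ^ 2 +
      1 / (6 * D) * ((crowdAt (2 ^ 0 * h) X : ℝ) * ‖ψ X‖ ^ 2) +
      ∑ j ∈ Finset.Icc 1 J0, 864 * a * 8 ^ (J - j) *
        ((crowdAt (2 ^ j * h) X : ℝ) * ‖ψ X‖ ^ 2)) := by
      apply integral_mono (hpi.const_mul a)
      · exact ((hsq.const_mul _).add ((hci 0).const_mul _)).add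
          (integrable_finsetSum _ fun j _ => (hci j).const_mul _)
      · exact hpt
    rw [integral_const_mul, integral_add, integral_add, integral_const_mul, integral_const_mul,
      integral_finsetSum] at h1
    · simp_rw [integral_const_mul] at h1
      exact h1
    · exact fun j _ => (hci j).const_mul _
    · exact hsq.const_mul _
    · exact (hci 0).const_mul _
    · exact (hsq.const_mul _).add ((hci 0).const_mul _)
    · exact integrable_finsetSum _ fun j _ => (hci j).const_mul _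
  have h3 : 1 / (6 * D) * (∫ X : Cfg (Fin N), (crowdAt (2 ^ 0 * h) X : ℝ) * ‖ψ X‖ ^ 2) ≤
      1 / 2 * E := by
    have := mul_le_mul_of_nonneg_left (hlev 0) (by positivity : 0 ≤ 1 / (6 * D))
    refine this.trans (le_of_eq ?_)
    rw [pow_zero]
    field_simp
    ring
  have h4 : ∑ j ∈ Finset.Icc 1 J0, 864 * a * 8 ^ (J - j) *
        (∫ X : Cfg (Fin N), (crowdAt (2 ^ j * h) X : ℝ) * ‖ψ X‖ ^ 2) ≤ 1 / 2 * E := by
    calc _ ≤ ∑ j ∈ Finset.Icc 1 J0, 2592 * a * D * 8 ^ J * 8 ^ j * E := by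
          apply Finset.sum_le_sum
          intro j hj
          have hjJ : j ≤ J := (Finset.mem_Icc.mp hj).2.trans hJ
          refine (mul_le_mul_of_nonneg_left (hlev j) (by positivity)).trans (le_of_eq ?_)
          have e1 : (8 : ℝ) ^ J = 8 ^ (J - j) * 8 ^ j := by
            rw [← pow_add]
            congr 1
            omega
          have e2 : (64 : ℝ) ^ j = 8 ^ j * 8 ^ j := by
            rw [← mul_pow]
            norm_num
          rw [e1, e2]
          ring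
      _ = 2592 * a * D * 8 ^ J * (∑ j ∈ Finset.Icc 1 J0, 8 ^ j) * E := by
          rw [Finset.mul_sum, Finset.sum_mul]
      _ ≤ 2592 * a * D * 8 ^ J * (8 ^ (J0 + 1) / 7) * E := by
          have h5 : ∀ n : ℕ, ∑ j ∈ Finset.Icc 1 n, (8 : ℝ) ^ j ≤ 8 ^ (n + 1) / 7 := by
            intro n
            have h6 : ∑ j ∈ Finset.Icc 1 n, (8 : ℝ) ^ j ≤ ∑ j ∈ Finset.range (n + 1), 8 ^ j := by
              apply Finset.sum_le_sum_of_subset_of_nonneg
              · intro j hj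
                have := Finset.mem_Icc.mp hj
                exact Finset.mem_range.mpr (by omega)
              · intro j _ _
                positivity
            rw [geom_sum_eq (by norm_num)] at h6
            refine h6.trans ?_
            norm_num
            apply div_le_div_of_nonneg_right _ (by norm_num)
            linarith
          gcongr
          exact h5 J0
      _ = (2592 * a * D * 8 ^ J * 8 ^ (J0 + 1) / 7) * E := by ring
      _ ≤ 1 / 2 * E := mul_le_mul_of_nonneg_right hC3 hE0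
  linarith

end Large

end Pool.Agent.H50.Bose
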