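import Pool.Agent.H50.Bose.ScaleSum

set_option autoImplicit false

namespace Pool.Agent.H50.Bose

open MeasureTheory Set

section Three

theorem lintegral_scale (f : (Fin 3 → ℝ) → ENNReal) (hf : Measurable f) {s : ℝ} (hs : 0 < s)
    (a : Fin 3 → ℝ) :
    ∫⁻ b, f (s • (a - b)) = ENNReal.ofReal ((s ^ 3)⁻¹) * ∫⁻ b, f b := by
  have hm : Measurable (fun x : Fin 3 → ℝ => s • x) := measurable_const_smul s
  rw [lintegral_sub_left_eq_self (fun x : Fin 3 → ℝ => f (s • x)) a]
  rw [← lintegral_map hf hm, Measure.map_addHaar_smul _ hs.ne', lintegral_smul_measure]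
  simp only [Module.finrank_fintype_fun_eq_card, Fintype.card_fin, smul_eq_mul]
  rw [abs_of_pos (by positivity)]

/-- Iterated integral over three particles. -/
theorem lintegral_three {ι : Type} [Fintype ι] [DecidableEq ι] (hι : Fintype.card ι = 3)
    {i j k : ι} (hij : i ≠ j) (hik : i ≠ k) (hjk : j ≠ k)
    (F : (Fin 3 → ℝ) → (Fin 3 → ℝ) → (Fin 3 → ℝ) → ENNReal)
    (hF : Measurable fun p : (Fin 3 → ℝ) × (Fin 3 → ℝ) × (Fin 3 → ℝ) => F p.1 p.2.1 p.2.2) :
    ∫⁻ Y : Cfg ι, F (Y i) (Y j) (Y k) = ∫⁻ a, ∫⁻ b, ∫⁻ c, F a b c := by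
  have huniv : (Finset.univ : Finset ι) = insert i (insert j {k}) := by
    symm
    rw [← Finset.card_eq_iff_eq_univ, Finset.card_insert_of_notMem, Finset.card_insert_of_notMem,
      Finset.card_singleton, hι]
    · simpa using hjk
    · simp [hij, hik]
  set f : Cfg ι → ENNReal := fun Y => F (Y i) (Y j) (Y k) with hf
  have hfm : Measurable f := by
    have h1 : Measurable (fun Y : Cfg ι =>
        ((Y i, Y j, Y k) : (Fin 3 → ℝ) × (Fin 3 → ℝ) × (Fin 3 → ℝ))) := by
      fun_prop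
    exact hF.comp h1
  have h0 : ∫⁻ Y : Cfg ι, f Y = ∫⁻ Y, f Y ∂(Measure.pi fun _ => volume) := by
    rw [volume_pi]
  rw [h0, lintegral_eq_lmarginal_univ (0 : Cfg ι), huniv, lmarginal_insert _ hfm (by simp [hij, hik])]
  apply lintegral_congr
  intro a
  rw [lmarginal_insert _ hfm (by simpa using hjk)]
  apply lintegral_congr
  intro b
  rw [lmarginal_singleton]
  apply lintegral_congr
  intro c
  simp only [hf]
  rw [Function.update_of_ne hik, Function.update_of_ne hij, Function.update_self,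
    Function.update_of_ne hjk, Function.update_self, Function.update_self]

end Three

section Model

/-- The scaled three-body potential. -/
noncomputable def v3s (V : (Fin 3 → ℝ) → (Fin 3 → ℝ) → ℝ) (s : ℝ) (x y z : Fin 3 → ℝ) : ℝ :=
  s ^ 2 * V (s • (x - y)) (s • (x - z))

theorem measurable_v3s {V : (Fin 3 → ℝ) → (Fin 3 → ℝ) → ℝ}
    (hV : Measurable (Function.uncurry V)) (s : ℝ) :
    Measurable fun p : (Fin 3 → ℝ) × (Fin 3 → ℝ) × (Fin 3 → ℝ) => v3s V s p.1 p.2.1 p.2.2 := by
  unfold v3s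
  have h1 : Measurable fun p : (Fin 3 → ℝ) × (Fin 3 → ℝ) × (Fin 3 → ℝ) =>
      (s • (p.1 - p.2.1), s • (p.1 - p.2.2)) := by fun_prop
  exact (hV.comp h1).const_mul _

/-- Lower bound for the integral of the scaled potential on a small cube. -/
theorem small_cube {V : (Fin 3 → ℝ) → (Fin 3 → ℝ) → ℝ} (hV : Measurable (Function.uncurry V))
    {R μ : ℝ} (hμ : 0 < μ)
    (hR : ∀ x y, V x y ≠ 0 → ∀ a, |x a| ≤ R ∧ |y a| ≤ R)
    (hI : ENNReal.ofReal μ ≤ ∫⁻ x, ∫⁻ y, ENNReal.ofReal (V x y))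
    {k0 s : ℝ} (hs : 0 < s) (hk0 : 0 < k0) (hk : 4 * R < k0)
    {ι : Type} [Fintype ι] [DecidableEq ι] (hι : Fintype.card ι = 3)
    {i j k : ι} (hij : i ≠ j) (hik : i ≠ k) (hjk : j ≠ k) (c : Fin 3 → ℝ) :
    ENNReal.ofReal (μ / (8 * k0 ^ 4) * (k0 / s) ^ 7) ≤
      ∫⁻ Y in boxI ι c (k0 / s), ENNReal.ofReal (v3s V s (Y i) (Y j) (Y k)) := by
  set h := k0 / s with hh
  have hhpos : 0 < h := by positivity
  have hvm := measurable_v3s hV s
  have hbm := measurableSet_box c h
  set F : (Fin 3 → ℝ) → (Fin 3 → ℝ) → (Fin 3 → ℝ) → ENNReal := fun x y z =>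
    (box c h).indicator 1 x * (box c h).indicator 1 y * (box c h).indicator 1 z *
      ENNReal.ofReal (v3s V s x y z) with hF
  have hind : Measurable ((box c h).indicator (1 : (Fin 3 → ℝ) → ENNReal)) :=
    measurable_one.indicator hbm
  have hFm : Measurable fun p : (Fin 3 → ℝ) × (Fin 3 → ℝ) × (Fin 3 → ℝ) =>
      F p.1 p.2.1 p.2.2 := by
    simp only [hF]
    exact (((hind.comp measurable_fst).mul (hind.comp (measurable_fst.comp measurable_snd))).mul
      (hind.comp (measurable_snd.comp measurable_snd))).mul hvm.ennreal_ofReal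
  have h1 : ∫⁻ Y in boxI ι c h, ENNReal.ofReal (v3s V s (Y i) (Y j) (Y k)) =
      ∫⁻ Y : Cfg ι, F (Y i) (Y j) (Y k) := by
    rw [← lintegral_indicator (measurableSet_boxI c h)]
    apply lintegral_congr
    intro Y
    have hall : Y ∈ boxI ι c h ↔ Y i ∈ box c h ∧ Y j ∈ box c h ∧ Y k ∈ box c h := by
      rw [mem_boxI]
      constructor
      · intro h
        exact ⟨h i, h j, h k⟩
      · rintro ⟨h1, h2, h3⟩ l
        have huniv : (Finset.univ : Finset ι) = insert i (insert j {k}) := by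
          symm
          rw [← Finset.card_eq_iff_eq_univ, Finset.card_insert_of_notMem,
            Finset.card_insert_of_notMem, Finset.card_singleton, hι]
          · simpa using hjk
          · simp [hij, hik]
        have hl : l ∈ (Finset.univ : Finset ι) := Finset.mem_univ l
        rw [huniv] at hl
        simp only [Finset.mem_insert, Finset.mem_singleton] at hl
        rcases hl with rfl | rfl | rfl <;> assumption
    by_cases hY : Y ∈ boxI ι c h
    · obtain ⟨h1, h2, h3⟩ := hall.mp hY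
      simp only [hF, Set.indicator_of_mem hY, Set.indicator_of_mem h1, Set.indicator_of_mem h2,
        Set.indicator_of_mem h3, Pi.one_apply, one_mul]
    · simp only [hF, Set.indicator_of_notMem hY]
      symm
      by_cases h1 : Y i ∈ box c h
      · by_cases h2 : Y j ∈ box c h
        · have h3 : Y k ∉ box c h := fun h3 => hY (hall.mpr ⟨h1, h2, h3⟩)
          simp [h3]
        · simp [h2]
      · simp [h1]
  rw [h1, lintegral_three hι hij hik hjk F hFm]
  -- the middle cube
  set M := box (fun a => c a + h / 4) (h / 2) with hM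
  have hMsub : ∀ x ∈ M, x ∈ box c h := by
    intro x hx
    rw [hM, mem_box] at hx
    rw [mem_box]
    intro a
    have := hx a
    constructor <;> linarith [this.1, this.2]
  have hRh : R / s < h / 4 := by
    rw [hh, div_div, div_lt_div_iff₀ hs (by positivity)]
    nlinarith
  have hnear : ∀ x ∈ M, ∀ y : Fin 3 → ℝ, (∀ a, |(s • (x - y)) a| ≤ R) → y ∈ box c h := by
    intro x hx y hy
    rw [hM, mem_box] at hx
    rw [mem_box]
    intro a
    have h2 := hy a
    rw [Pi.smul_apply, Pi.sub_apply, smul_eq_mul, abs_mul, abs_of_pos hs, mul_comm,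
      ← le_div_iff₀ hs] at h2
    have h3 := abs_le.mp (h2.trans hRh.le)
    have h4 := hx a
    have h5 := abs_lt.mp (lt_of_le_of_lt h2 hRh)
    constructor <;> linarith [h5.1, h5.2, h4.1, h4.2]
  have key : ∀ x ∈ M, ENNReal.ofReal ((s ^ 4)⁻¹) * ENNReal.ofReal μ ≤
      ∫⁻ y, ∫⁻ z, F x y z := by
    intro x hx
    have e1 : ∀ y z, F x y z = ENNReal.ofReal (s ^ 2) *
        ENNReal.ofReal (V (s • (x - y)) (s • (x - z))) := by
      intro y z
      simp only [hF, Set.indicator_of_mem (hMsub x hx), Pi.one_apply, one_mul]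
      by_cases hz : V (s • (x - y)) (s • (x - z)) = 0
      · simp [v3s, hz]
      · have h2 := hR _ _ hz
        have hy' : y ∈ box c h := hnear x hx y fun a => (h2 a).1
        have hz' : z ∈ box c h := hnear x hx z fun a => (h2 a).2
        simp only [Set.indicator_of_mem hy', Set.indicator_of_mem hz', Pi.one_apply, one_mul]
        unfold v3s
        rw [ENNReal.ofReal_mul (by positivity)]
    simp_rw [e1]
    have hVm : ∀ x, Measurable (fun z => ENNReal.ofReal (V x z)) := by
      intro x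
      exact (hV.comp (measurable_prodMk_left (x := x))).ennreal_ofReal
    have e2 : ∀ y, ∫⁻ z, ENNReal.ofReal (s ^ 2) *
        ENNReal.ofReal (V (s • (x - y)) (s • (x - z))) =
        ENNReal.ofReal (s ^ 2) * (ENNReal.ofReal ((s ^ 3)⁻¹) *
          ∫⁻ z, ENNReal.ofReal (V (s • (x - y)) z)) := by
      intro y
      rw [lintegral_const_mul' _ _ ENNReal.ofReal_ne_top,
        lintegral_scale (fun z => ENNReal.ofReal (V (s • (x - y)) z)) (hVm _) hs x]
    simp_rw [e2]
    have hG : Measurable (fun w => ∫⁻ z, ENNReal.ofReal (V w z)) :=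
      (hV.ennreal_ofReal).lintegral_prod_right'
    rw [lintegral_const_mul' _ _ ENNReal.ofReal_ne_top, lintegral_const_mul' _ _ ENNReal.ofReal_ne_top,
      lintegral_scale (fun w => ∫⁻ z, ENNReal.ofReal (V w z)) hG hs x]
    calc ENNReal.ofReal ((s ^ 4)⁻¹) * ENNReal.ofReal μ =
        ENNReal.ofReal (s ^ 2) * (ENNReal.ofReal ((s ^ 3)⁻¹) * (ENNReal.ofReal ((s ^ 3)⁻¹) *
          ENNReal.ofReal μ)) := by
          have e9 : s ^ 2 * ((s ^ 3)⁻¹ * ((s ^ 3)⁻¹ * μ)) = (s ^ 4)⁻¹ * μ := by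
            field_simp
          rw [← ENNReal.ofReal_mul (by positivity), ← ENNReal.ofReal_mul (by positivity),
            ← ENNReal.ofReal_mul (by positivity), ← ENNReal.ofReal_mul (by positivity), e9]
      _ ≤ _ := by gcongr
  calc ENNReal.ofReal (μ / (8 * k0 ^ 4) * h ^ 7) =
        ENNReal.ofReal ((s ^ 4)⁻¹) * ENNReal.ofReal μ * volume M := by
        rw [hM, volume_box, ← ENNReal.ofReal_mul (by positivity),
          ← ENNReal.ofReal_pow (by positivity), ← ENNReal.ofReal_mul (by positivity), hh]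
        congr 1
        field_simp
        norm_num
    _ = ∫⁻ _x in M, ENNReal.ofReal ((s ^ 4)⁻¹) * ENNReal.ofReal μ := by
        rw [lintegral_const, Measure.restrict_apply_univ]
    _ ≤ ∫⁻ x in M, ∫⁻ y, ∫⁻ z, F x y z := by
        apply setLIntegral_mono' (measurableSet_box _ _)
        exact key
    _ ≤ _ := setLIntegral_le_lintegral _ _

/-- The three-particle inequality on all dyadic scales. -/
theorem tb_model {V : (Fin 3 → ℝ) → (Fin 3 → ℝ) → ℝ} (hV : Measurable (Function.uncurry V))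
    {R μ B : ℝ} (hμ : 0 < μ) (hB : 0 ≤ B) (hVB : ∀ x y, V x y ≤ B)
    (hR : ∀ x y, V x y ≠ 0 → ∀ a, |x a| ≤ R ∧ |y a| ≤ R)
    (hI : ENNReal.ofReal μ ≤ ∫⁻ x, ∫⁻ y, ENNReal.ofReal (V x y))
    {k0 : ℝ} (hk0 : 0 < k0) (hk : 4 * R < k0) :
    ∃ A : ℝ, 0 < A ∧ ∀ s : ℝ, 0 < s → ∀ j : ℕ,
      TB (v3s V s) (2 ^ j * (k0 / s)) (A * 64 ^ j * (k0 / s) ^ 2) := by
  set m := μ / (8 * k0 ^ 4) with hm
  have hmpos : 0 < m := by positivity
  set B1 := k0 ^ 2 * B with hB1
  have hB10 : 0 ≤ B1 := by positivity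
  set A0 := max 294912 ((2 + 9216 * B1) / m) with hA0
  have hA0l : 294912 ≤ A0 := le_max_left _ _
  have hA0r : (2 + 9216 * B1) / m ≤ A0 := le_max_right _ _
  refine ⟨A0 * 4, by linarith, ?_⟩
  intro s hs j ι _ _ hι p q r hpq hpr hqr c u hu
  set h := k0 / s with hh
  have hhpos : 0 < h := by positivity
  have hvm := measurable_v3s hV s
  set P : Cfg ι → ENNReal := fun Y => ENNReal.ofReal (v3s V s (Y p) (Y q) (Y r)) with hP
  have hPm : Measurable P := by
    have h1 : Measurable (fun Y : Cfg ι =>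
        ((Y p, Y q, Y r) : (Fin 3 → ℝ) × (Fin 3 → ℝ) × (Fin 3 → ℝ))) := by
      fun_prop
    exact (hvm.comp h1).ennreal_ofReal
  have hPB : ∀ X, P X ≤ ENNReal.ofReal (B1 / h ^ 2) := by
    intro X
    apply ENNReal.ofReal_le_ofReal
    unfold v3s
    have e : B1 / h ^ 2 = s ^ 2 * B := by
      rw [hB1, hh]
      field_simp
    rw [e]
    exact mul_le_mul_of_nonneg_left (hVB _ _) (sq_nonneg _)
  have h0 : ∀ c, ∫⁻ X in boxI ι c h, ENNReal.ofReal (‖u X‖ ^ 2) ≤
      ENNReal.ofReal (A0 * h ^ 2) * ∫⁻ X in boxI ι c h, dens P u X := by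
    intro c
    refine (level_zero hι hu P hPm hhpos hB10 hmpos hPB c
      (small_cube hV hμ hR hI hs hk0 hk hι hpq hpr hqr c)).trans ?_
    gcongr
  refine (level_bound hι hu P hhpos hA0l h0 j c).trans ?_
  gcongr
  have h3 : 0 ≤ 3 / (2 : ℝ) ^ j := by positivity
  linarith

end Model

end Pool.Agent.H50.Bose
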