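import Mathlib

set_option autoImplicit false

namespace Pool.Agent.H50.Bose

open MeasureTheory Set

/-- Configurations of a family of particles in three dimensional space. -/
abbrev Cfg (ι : Type) : Type := ι → Fin 3 → ℝ

section Grad

variable {ι : Type} [Fintype ι] [DecidableEq ι]

/-- Square of the length of the gradient. -/
noncomputable def grad2 (u : Cfg ι → ℂ) (X : Cfg ι) : ℝ :=
  ∑ i : ι, ∑ a : Fin 3, ‖fderiv ℝ u X (Pi.single i (Pi.single a 1))‖ ^ 2

theorem grad2_nonneg (u : Cfg ι → ℂ) (X : Cfg ι) : 0 ≤ grad2 u X :=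
  Finset.sum_nonneg fun _ _ => Finset.sum_nonneg fun _ _ => sq_nonneg _

theorem continuous_grad2 {u : Cfg ι → ℂ} (hu : ContDiff ℝ 1 u) : Continuous (grad2 u) := by
  unfold grad2
  have h1 := hu.continuous_fderiv one_ne_zero
  fun_prop

theorem cfg_decomp (v : Cfg ι) :
    v = ∑ i : ι, ∑ a : Fin 3, v i a • (Pi.single i (Pi.single a 1) : Cfg ι) := by
  funext j b
  simp only [Finset.sum_apply, Pi.smul_apply, Pi.single_apply, smul_eq_mul]
  rw [Finset.sum_eq_single j]
  · rw [Finset.sum_eq_single b]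
    · simp
    · intro a _ hab
      simp [hab.symm]
    · simp
  · intro i _ hij
    simp [hij.symm]
  · simp

/-- Cauchy-Schwarz for directional derivatives. -/
theorem fderiv_sq_le (u : Cfg ι → ℂ) (X v : Cfg ι) (t : ℝ) (hv : ∀ i a, |v i a| ≤ t) :
    ‖fderiv ℝ u X v‖ ^ 2 ≤ (3 * Fintype.card ι) * t ^ 2 * grad2 u X := by
  have h1 : fderiv ℝ u X v =
      ∑ p : ι × Fin 3, v p.1 p.2 • fderiv ℝ u X (Pi.single p.1 (Pi.single p.2 1)) := by
    conv_lhs => rw [cfg_decomp v]
    simp only [map_sum, map_smul]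
    rw [← Finset.univ_product_univ, Finset.sum_product]
  have h2 : ‖fderiv ℝ u X v‖ ≤
      ∑ p : ι × Fin 3, |v p.1 p.2| * ‖fderiv ℝ u X (Pi.single p.1 (Pi.single p.2 1))‖ := by
    rw [h1]
    refine (norm_sum_le _ _).trans (Finset.sum_le_sum fun p _ => ?_)
    rw [norm_smul, Real.norm_eq_abs]
  have h3 : grad2 u X = ∑ p : ι × Fin 3, ‖fderiv ℝ u X (Pi.single p.1 (Pi.single p.2 1))‖ ^ 2 := by
    rw [grad2, ← Finset.univ_product_univ, Finset.sum_product]
  calc ‖fderiv ℝ u X v‖ ^ 2 ≤ (∑ p : ι × Fin 3,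
        |v p.1 p.2| * ‖fderiv ℝ u X (Pi.single p.1 (Pi.single p.2 1))‖) ^ 2 :=
        pow_le_pow_left₀ (norm_nonneg _) h2 2
    _ ≤ (∑ p : ι × Fin 3, |v p.1 p.2| ^ 2) *
        ∑ p : ι × Fin 3, ‖fderiv ℝ u X (Pi.single p.1 (Pi.single p.2 1))‖ ^ 2 :=
        Finset.sum_mul_sq_le_sq_mul_sq _ _ _
    _ ≤ ((3 * Fintype.card ι) * t ^ 2) * grad2 u X := by
        rw [h3]
        apply mul_le_mul_of_nonneg_right _ (Finset.sum_nonneg fun _ _ => sq_nonneg _)
        calc ∑ p : ι × Fin 3, |v p.1 p.2| ^ 2 ≤ ∑ _p : ι × Fin 3, t ^ 2 :=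
              Finset.sum_le_sum fun p _ => pow_le_pow_left₀ (abs_nonneg _) (hv _ _) 2
          _ = (3 * Fintype.card ι) * t ^ 2 := by
              rw [Finset.sum_const, Finset.card_univ, Fintype.card_prod, Fintype.card_fin,
                nsmul_eq_mul]
              push_cast
              ring

/-- Jensen's inequality on the unit interval. -/
theorem sq_integral_le (f : ℝ → ℝ) (hf : Continuous f) :
    (∫ θ in (0 : ℝ)..1, f θ) ^ 2 ≤ ∫ θ in (0 : ℝ)..1, f θ ^ 2 := by
  set m := ∫ θ in (0 : ℝ)..1, f θ with hm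
  have h1 : 0 ≤ ∫ θ in (0 : ℝ)..1, (f θ - m) ^ 2 :=
    intervalIntegral.integral_nonneg (by norm_num) fun _ _ => sq_nonneg _
  have h2 : ∫ θ in (0 : ℝ)..1, (f θ - m) ^ 2 =
      (∫ θ in (0 : ℝ)..1, f θ ^ 2) - 2 * m * (∫ θ in (0 : ℝ)..1, f θ) + m ^ 2 := by
    have e : ∀ θ, (f θ - m) ^ 2 = f θ ^ 2 - 2 * m * f θ + m ^ 2 := fun θ => by ring
    simp_rw [e]
    rw [intervalIntegral.integral_add, intervalIntegral.integral_sub,
      intervalIntegral.integral_const_mul, intervalIntegral.integral_const]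
    · simp
    all_goals exact Continuous.intervalIntegrable (by fun_prop) _ _
  rw [h2, ← hm] at h1
  nlinarith

theorem norm_sub_sq_le {u : Cfg ι → ℂ} (hu : ContDiff ℝ 1 u) (X Y : Cfg ι) (t : ℝ)
    (hv : ∀ i a, |X i a - Y i a| ≤ t) :
    ‖u X - u Y‖ ^ 2 ≤ (3 * Fintype.card ι) * t ^ 2 *
      ∫ θ in (0 : ℝ)..1, grad2 u (Y + θ • (X - Y)) := by
  let g : ℝ → ℂ := fun θ => u (Y + θ • (X - Y))
  let g' : ℝ → ℂ := fun θ => fderiv ℝ u (Y + θ • (X - Y)) (X - Y)
  have hg : ∀ θ, HasDerivAt g (g' θ) θ := by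
    intro θ
    have h1 : HasFDerivAt u (fderiv ℝ u (Y + θ • (X - Y))) (Y + θ • (X - Y)) :=
      (hu.differentiable (by norm_num) _).hasFDerivAt
    have h2 : HasDerivAt (fun θ : ℝ => Y + θ • (X - Y)) (X - Y) θ := by
      have := ((hasDerivAt_id θ).smul_const (X - Y)).const_add Y
      simpa using this
    exact h1.comp_hasDerivAt θ h2
  have hg'c : Continuous g' := by
    have h1 := hu.continuous_fderiv one_ne_zero
    exact (h1.comp (by fun_prop)).clm_apply continuous_const
  have h3 : u X - u Y = ∫ θ in (0 : ℝ)..1, g' θ := by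
    rw [intervalIntegral.integral_eq_sub_of_hasDerivAt (fun θ _ => hg θ)
      (hg'c.intervalIntegrable _ _)]
    simp [g]
  have h4 : ‖u X - u Y‖ ≤ ∫ θ in (0 : ℝ)..1, ‖g' θ‖ := by
    rw [h3]
    exact intervalIntegral.norm_integral_le_integral_norm (by norm_num)
  calc ‖u X - u Y‖ ^ 2 ≤ (∫ θ in (0 : ℝ)..1, ‖g' θ‖) ^ 2 :=
        pow_le_pow_left₀ (norm_nonneg _) h4 2
    _ ≤ ∫ θ in (0 : ℝ)..1, ‖g' θ‖ ^ 2 := sq_integral_le _ hg'c.norm
    _ ≤ ∫ θ in (0 : ℝ)..1, (3 * Fintype.card ι) * t ^ 2 * grad2 u (Y + θ • (X - Y)) := by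
        apply intervalIntegral.integral_mono_on (by norm_num)
        · exact (hg'c.norm.pow 2).intervalIntegrable _ _
        · apply Continuous.intervalIntegrable
          have := continuous_grad2 hu
          fun_prop
        · intro θ _
          exact fderiv_sq_le u _ _ t hv
    _ = _ := by rw [intervalIntegral.integral_const_mul]

omit [DecidableEq ι] in
/-- Change of variables for a homothety of a convex set. -/
theorem lintegral_homothety_le {C : Set (Cfg ι)} (hC : Convex ℝ C) (hCm : MeasurableSet C)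
    (G : Cfg ι → ENNReal) (hG : Measurable G) {θ : ℝ} (hθ : 0 < θ) (hθ1 : θ ≤ 1)
    {Y : Cfg ι} (hY : Y ∈ C) :
    ∫⁻ X in C, G (Y + θ • (X - Y)) ≤
      ENNReal.ofReal (θ⁻¹ ^ (Fintype.card ι * 3)) * ∫⁻ Z in C, G Z := by
  have hfin : Module.finrank ℝ (ι → Fin 3 → ℝ) = Fintype.card ι * 3 := by
    rw [Module.finrank_pi_fintype]
    simp
  have e1 : ∀ X, Y + θ • (X - Y) = θ • X + (1 - θ) • Y := by
    intro X
    rw [smul_sub, sub_smul, one_smul]
    abel
  have hm : Measurable (C.indicator G) := hG.indicator hCm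
  have h1 : ∫⁻ X in C, G (Y + θ • (X - Y)) ≤
      ∫⁻ X, C.indicator G (θ • X + (1 - θ) • Y) := by
    rw [← lintegral_indicator hCm]
    refine lintegral_mono fun X => ?_
    by_cases hX : X ∈ C
    · have h5 : θ • X + (1 - θ) • Y ∈ C := hC hX hY hθ.le (by linarith) (by ring)
      simp only [Set.indicator_of_mem hX, Set.indicator_of_mem h5, e1]
      exact le_refl _
    · simp only [Set.indicator_of_notMem hX]
      exact bot_le
  refine h1.trans ?_
  have hm2 : Measurable (fun Z : Cfg ι => C.indicator G (Z + (1 - θ) • Y)) :=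
    hm.comp (measurable_id.add_const _)
  have h2 : ∫⁻ X : Cfg ι, C.indicator G (θ • X + (1 - θ) • Y) =
      ∫⁻ X, C.indicator G (X + (1 - θ) • Y)
        ∂(Measure.map (fun X : Cfg ι => θ • X) volume) := by
    rw [lintegral_map hm2 (measurable_const_smul θ)]
  rw [h2, Measure.map_addHaar_smul _ hθ.ne', lintegral_smul_measure,
    lintegral_add_right_eq_self (C.indicator G), lintegral_indicator hCm, hfin, abs_inv, abs_pow,
    abs_of_pos hθ, ← inv_pow, smul_eq_mul]

/-- The double integral form of the Poincaré inequality on a convex set. -/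
theorem poincare_double {C : Set (Cfg ι)} (hC : Convex ℝ C) (hCm : MeasurableSet C) (t : ℝ)
    (ht : ∀ X ∈ C, ∀ Y ∈ C, ∀ i a, |X i a - Y i a| ≤ t)
    {u : Cfg ι → ℂ} (hu : ContDiff ℝ 1 u) :
    ∫⁻ X in C, ∫⁻ Y in C, ENNReal.ofReal (‖u X - u Y‖ ^ 2) ≤
      ENNReal.ofReal ((3 * Fintype.card ι) * t ^ 2 * 2 ^ (Fintype.card ι * 3)) * volume C *
        ∫⁻ X in C, ENNReal.ofReal (grad2 u X) := by
  set n := Fintype.card ι * 3 with hn
  set K : ℝ := (3 * Fintype.card ι) * t ^ 2 with hK
  have hK0 : 0 ≤ K := by positivity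
  let G : Cfg ι → ENNReal := fun X => ENNReal.ofReal (grad2 u X)
  have hGc : Continuous (grad2 u) := continuous_grad2 hu
  have hG : Measurable G := by fun_prop
  set I : ENNReal := ∫⁻ X in C, G X with hI
  -- pointwise
  have h1 : ∀ X ∈ C, ∀ Y ∈ C, ENNReal.ofReal (‖u X - u Y‖ ^ 2) ≤
      ENNReal.ofReal K * ∫⁻ θ in Set.Icc (0 : ℝ) 1, G (Y + θ • (X - Y)) := by
    intro X hX Y hY
    have h2 := norm_sub_sq_le hu X Y t (ht X hX Y hY)
    have h3 : ENNReal.ofReal (∫ θ in (0 : ℝ)..1, grad2 u (Y + θ • (X - Y))) =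
        ∫⁻ θ in Set.Icc (0 : ℝ) 1, G (Y + θ • (X - Y)) := by
      rw [intervalIntegral.integral_of_le (by norm_num), ← integral_Icc_eq_integral_Ioc,
        ofReal_integral_eq_lintegral_ofReal]
      · apply ContinuousOn.integrableOn_Icc
        apply Continuous.continuousOn
        fun_prop
      · exact Filter.Eventually.of_forall fun θ => grad2_nonneg _ _
    rw [← h3, ← ENNReal.ofReal_mul hK0]
    exact ENNReal.ofReal_le_ofReal h2
  -- for fixed θ
  have h2 : ∀ θ ∈ Set.Icc (0 : ℝ) 1,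
      ∫⁻ X in C, ∫⁻ Y in C, G (Y + θ • (X - Y)) ≤
        ENNReal.ofReal (2 ^ n) * volume C * I := by
    intro θ hθ
    rcases le_total (1 / 2) θ with h | h
    · have hθ0 : 0 < θ := by linarith
      rw [lintegral_lintegral_swap (by
        have : Measurable (fun p : Cfg ι × Cfg ι => G (p.2 + θ • (p.1 - p.2))) := by fun_prop
        exact this.aemeasurable)]
      calc ∫⁻ Y in C, ∫⁻ X in C, G (Y + θ • (X - Y))
          ≤ ∫⁻ _Y in C, ENNReal.ofReal (2 ^ n) * I := by
            apply setLIntegral_mono' hCm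
            intro Y hY
            refine (lintegral_homothety_le hC hCm G hG hθ0 hθ.2 hY).trans ?_
            gcongr
            apply inv_le_of_inv_le₀ (by norm_num)
            linarith
        _ = _ := by
            rw [lintegral_const, Measure.restrict_apply_univ]
            ring
    · have e : ∀ X Y : Cfg ι, Y + θ • (X - Y) = X + (1 - θ) • (Y - X) := by
        intro X Y
        module
      calc ∫⁻ X in C, ∫⁻ Y in C, G (Y + θ • (X - Y))
          ≤ ∫⁻ _X in C, ENNReal.ofReal (2 ^ n) * I := by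
            apply setLIntegral_mono' hCm
            intro X hX
            simp_rw [e]
            refine (lintegral_homothety_le hC hCm G hG (θ := 1 - θ) (by linarith)
              (by linarith [hθ.1]) hX).trans ?_
            have h10 : 0 ≤ (1 - θ)⁻¹ := inv_nonneg.mpr (by linarith)
            gcongr
            apply inv_le_of_inv_le₀ (by norm_num)
            linarith
        _ = _ := by
            rw [lintegral_const, Measure.restrict_apply_univ]
            ring
  -- integrate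
  have hmeas3 : Measurable (fun p : (Cfg ι × Cfg ι) × ℝ =>
      G (p.1.2 + p.2 • (p.1.1 - p.1.2))) := by fun_prop
  calc ∫⁻ X in C, ∫⁻ Y in C, ENNReal.ofReal (‖u X - u Y‖ ^ 2)
      ≤ ∫⁻ X in C, ∫⁻ Y in C, ENNReal.ofReal K *
          ∫⁻ θ in Set.Icc (0 : ℝ) 1, G (Y + θ • (X - Y)) := by
        apply setLIntegral_mono' hCm
        intro X hX
        apply setLIntegral_mono' hCm
        intro Y hY
        exact h1 X hX Y hY
    _ = ENNReal.ofReal K * ∫⁻ X in C, ∫⁻ Y in C,
          ∫⁻ θ in Set.Icc (0 : ℝ) 1, G (Y + θ • (X - Y)) := by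
        simp_rw [lintegral_const_mul' _ _ ENNReal.ofReal_ne_top]
    _ = ENNReal.ofReal K * ∫⁻ X in C, ∫⁻ θ in Set.Icc (0 : ℝ) 1, ∫⁻ Y in C,
          G (Y + θ • (X - Y)) := by
        congr 1
        apply lintegral_congr
        intro X
        rw [lintegral_lintegral_swap]
        have : Measurable (fun p : Cfg ι × ℝ => G (p.1 + p.2 • (X - p.1))) := by fun_prop
        exact this.aemeasurable
    _ = ENNReal.ofReal K * ∫⁻ θ in Set.Icc (0 : ℝ) 1, ∫⁻ X in C, ∫⁻ Y in C,
          G (Y + θ • (X - Y)) := by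
        congr 1
        rw [lintegral_lintegral_swap]
        have hm : Measurable (fun p : (Cfg ι × ℝ) × Cfg ι =>
            G (p.2 + p.1.2 • (p.1.1 - p.2))) := by fun_prop
        exact (hm.lintegral_prod_right').aemeasurable
    _ ≤ ENNReal.ofReal K * ∫⁻ _θ in Set.Icc (0 : ℝ) 1,
          ENNReal.ofReal (2 ^ n) * volume C * I := by
        gcongr ENNReal.ofReal K * ?_
        apply setLIntegral_mono' measurableSet_Icc
        exact h2
    _ = ENNReal.ofReal (K * 2 ^ n) * volume C * I := by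
        rw [lintegral_const, Measure.restrict_apply_univ, Real.volume_Icc,
          ENNReal.ofReal_mul hK0]
        simp only [sub_zero, ENNReal.ofReal_one, mul_one]
        ring

end Grad

end Pool.Agent.H50.Bose
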