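import Pool.Agent.H50.Bose.ThreeBody

set_option autoImplicit false

namespace Pool.Agent.H50.Bose

open MeasureTheory Set

section Region

variable {κ : Type} [Fintype κ] [DecidableEq κ]

/-- Extension of a configuration of the particles in `s` by zero. -/
noncomputable def extL (s : Finset κ) : Cfg ↥s →L[ℝ] Cfg κ :=
  ContinuousLinearMap.pi fun l =>
    if h : l ∈ s then ContinuousLinearMap.proj (⟨l, h⟩ : ↥s) else 0

omit [Fintype κ] in
theorem extL_apply (s : Finset κ) (y : Cfg ↥s) (l : κ) :
    extL s y l = if h : l ∈ s then y ⟨l, h⟩ else 0 := by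
  unfold extL
  simp only [ContinuousLinearMap.coe_pi']
  split_ifs <;> simp

omit [Fintype κ] in
theorem updateFinset_eq (x : Cfg κ) (s : Finset κ) (y : Cfg ↥s) :
    Function.updateFinset x s y = Function.updateFinset x s 0 + extL s y := by
  funext l
  rw [Pi.add_apply, extL_apply]
  unfold Function.updateFinset
  split_ifs <;> simp

omit [Fintype κ] in
theorem extL_single (s : Finset κ) (i : ↥s) (v : Fin 3 → ℝ) :
    extL s (Pi.single i v) = Pi.single (i : κ) v := by
  funext l
  rw [extL_apply]
  by_cases h : l = i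
  · subst h
    simp
  · rw [Pi.single_eq_of_ne h]
    split_ifs with h2
    · rw [Pi.single_eq_of_ne]
      intro h3
      exact h (congrArg Subtype.val h3)
    · rfl

/-- The gradient square of one particle. -/
noncomputable def gradp (ψ : Cfg κ → ℂ) (i : κ) (X : Cfg κ) : ℝ :=
  ∑ a : Fin 3, ‖fderiv ℝ ψ X (Pi.single i (Pi.single a 1))‖ ^ 2

omit [Fintype κ] in
theorem gradp_nonneg (ψ : Cfg κ → ℂ) (i : κ) (X : Cfg κ) : 0 ≤ gradp ψ i X :=
  Finset.sum_nonneg fun _ _ => sq_nonneg _

theorem grad2_eq (ψ : Cfg κ → ℂ) (X : Cfg κ) : grad2 ψ X = ∑ i, gradp ψ i X := rfl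

theorem continuous_gradp {ψ : Cfg κ → ℂ} (hψ : ContDiff ℝ 1 ψ) (i : κ) :
    Continuous (gradp ψ i) := by
  unfold gradp
  have h1 := hψ.continuous_fderiv one_ne_zero
  fun_prop

theorem grad2_slice {ψ : Cfg κ → ℂ} (hψ : ContDiff ℝ 1 ψ) (x : Cfg κ) (s : Finset κ)
    (y : Cfg ↥s) :
    grad2 (fun y => ψ (Function.updateFinset x s y)) y =
      ∑ i ∈ s, gradp ψ i (Function.updateFinset x s y) := by
  have h1 : HasFDerivAt (fun y => ψ (Function.updateFinset x s y))
      ((fderiv ℝ ψ (Function.updateFinset x s y)).comp (extL s)) y := by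
    have h2 : HasFDerivAt ψ (fderiv ℝ ψ (Function.updateFinset x s y))
        (Function.updateFinset x s y) := (hψ.differentiable (by norm_num) _).hasFDerivAt
    have h3 : HasFDerivAt (fun y : Cfg ↥s => Function.updateFinset x s y) (extL s) y := by
      have e : (fun y : Cfg ↥s => Function.updateFinset x s y) =
          fun y => Function.updateFinset x s 0 + extL s y := by
        funext y
        exact updateFinset_eq x s y
      rw [e]
      exact (extL s).hasFDerivAt.const_add _
    exact h2.comp y h3
  unfold grad2 gradp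
  rw [h1.fderiv]
  simp only [ContinuousLinearMap.comp_apply, extL_single]
  rw [← Finset.sum_coe_sort s]

theorem contDiff_slice {ψ : Cfg κ → ℂ} (hψ : ContDiff ℝ 1 ψ) (x : Cfg κ) (s : Finset κ) :
    ContDiff ℝ 1 (fun y : Cfg ↥s => ψ (Function.updateFinset x s y)) := by
  have e : (fun y : Cfg ↥s => ψ (Function.updateFinset x s y)) =
      fun y => ψ (Function.updateFinset x s 0 + extL s y) := by
    funext y
    rw [updateFinset_eq]
  rw [e]
  exact hψ.comp (contDiff_const.add (extL s).contDiff)

/-- A product region. -/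
def region (cc : κ → Fin 3 → ℝ) (r : ℝ) : Set (Cfg κ) :=
  Set.pi Set.univ fun l => box (cc l) r

omit [Fintype κ] [DecidableEq κ] in
theorem mem_region {cc : κ → Fin 3 → ℝ} {r : ℝ} {X : Cfg κ} :
    X ∈ region cc r ↔ ∀ l, X l ∈ box (cc l) r := by
  simp [region, Set.mem_pi]

omit [DecidableEq κ] in
theorem measurableSet_region (cc : κ → Fin 3 → ℝ) (r : ℝ) : MeasurableSet (region cc r) :=
  MeasurableSet.pi Set.countable_univ fun _ _ => measurableSet_box _ _

/-- Inequality in a product region, from the inequality for the particles in `s`. -/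
theorem region_bound {ψ : Cfg κ → ℂ} (hψ : ContDiff ℝ 1 ψ) (s : Finset κ)
    (Vt : Cfg ↥s → ENNReal) (hVt : Measurable Vt) (cc : κ → Fin 3 → ℝ) (c : Fin 3 → ℝ)
    (hc : ∀ i ∈ s, cc i = c) (r : ℝ) (K : ENNReal)
    (hTB : ∀ u : Cfg ↥s → ℂ, ContDiff ℝ 1 u →
      ∫⁻ Y in boxI ↥s c r, ENNReal.ofReal (‖u Y‖ ^ 2) ≤
        K * ∫⁻ Y in boxI ↥s c r, dens Vt u Y) :
    ∫⁻ X in region cc r, ENNReal.ofReal (‖ψ X‖ ^ 2) ≤
      K * ∫⁻ X in region cc r, (ENNReal.ofReal (∑ i ∈ s, gradp ψ i X) +
        Vt (fun i => X i) * ENNReal.ofReal (‖ψ X‖ ^ 2)) := by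
  set R := region cc r with hR
  have hRm : MeasurableSet R := measurableSet_region _ _
  have hψc := hψ.continuous
  have hgc : ∀ i, Continuous (gradp ψ i) := continuous_gradp hψ
  have hrestr : Measurable (fun X : Cfg κ => (fun i : ↥s => X i)) := by fun_prop
  set f : Cfg κ → ENNReal := fun X => ENNReal.ofReal (‖ψ X‖ ^ 2) with hf
  set g : Cfg κ → ENNReal := fun X => ENNReal.ofReal (∑ i ∈ s, gradp ψ i X) +
        Vt (fun i => X i) * ENNReal.ofReal (‖ψ X‖ ^ 2) with hg
  have hfm : Measurable f := by fun_prop
  have hgm : Measurable g := by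
    have := hVt.comp hrestr
    have h2 : Measurable (fun X : Cfg κ => Vt (fun i => X i)) := this
    fun_prop
  rw [← lintegral_indicator hRm, ← lintegral_indicator hRm, ← lintegral_const_mul _
    (hgm.indicator hRm)]
  apply lintegral_le_of_lmarginal_le s (hfm.indicator hRm) ((hgm.indicator hRm).const_mul _)
  intro x
  show ∫⁻ y : (∀ _ : ↥s, Fin 3 → ℝ), _ ∂_ ≤ ∫⁻ y : (∀ _ : ↥s, Fin 3 → ℝ), _ ∂_
  rw [← volume_pi]
  by_cases hx : ∀ l, l ∉ s → x l ∈ box (cc l) r
  · have hmem : ∀ y : Cfg ↥s, Function.updateFinset x s y ∈ R ↔ y ∈ boxI ↥s c r := by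
      intro y
      rw [hR, mem_region, mem_boxI]
      constructor
      · intro h i
        have := h i
        rw [Function.updateFinset, dif_pos i.2, hc i i.2] at this
        exact this
      · intro h l
        unfold Function.updateFinset
        split_ifs with hl
        · rw [hc l hl]
          exact h ⟨l, hl⟩
        · exact hx l hl
    have e1 : ∀ (F : Cfg κ → ENNReal) (y : Cfg ↥s), R.indicator F (Function.updateFinset x s y) =
        (boxI ↥s c r).indicator (fun y => F (Function.updateFinset x s y)) y := by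
      intro F y
      by_cases h : y ∈ boxI ↥s c r
      · rw [Set.indicator_of_mem h, Set.indicator_of_mem ((hmem y).mpr h)]
      · rw [Set.indicator_of_notMem h, Set.indicator_of_notMem (fun h2 => h ((hmem y).mp h2))]
    simp_rw [e1]
    have hbm : MeasurableSet (boxI ↥s c r) := measurableSet_boxI _ _
    rw [lintegral_const_mul, lintegral_indicator hbm, lintegral_indicator hbm]
    · have h5 := hTB _ (contDiff_slice hψ x s)
      have h6 : ∀ y : Cfg ↥s, dens Vt (fun y => ψ (Function.updateFinset x s y)) y =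
          g (Function.updateFinset x s y) := by
        intro y
        have h7 : (fun i : ↥s => Function.updateFinset x s y i) = y := by
          funext i
          rw [Function.updateFinset, dif_pos i.2]
        rw [hg]
        simp only [dens, grad2_slice hψ, h7]
      simp_rw [h6] at h5
      exact h5
    · exact (hgm.comp measurable_updateFinset).indicator hbm
  · have e1 : ∀ (F : Cfg κ → ENNReal) (y : Cfg ↥s),
        R.indicator F (Function.updateFinset x s y) = 0 := by
      intro F y
      apply Set.indicator_of_notMem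
      rw [hR, mem_region]
      intro h
      apply hx
      intro l hl
      have := h l
      rw [Function.updateFinset, dif_neg hl] at this
      exact this
    simp_rw [e1]
    simp

end Region

end Pool.Agent.H50.Bose
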