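import Mathlib

set_option autoImplicit false

namespace Pool.Agent.H50.Bose

section Weights

variable {κ Q : Type} [Fintype κ] [DecidableEq κ] [DecidableEq Q]

/-- Number of particles in the cell of particle `i`. -/
def occ (q : κ → Q) (i : κ) : ℕ := (Finset.univ.filter fun l => q l = q i).card

/-- Three different particles in one cell. -/
def Trip (q : κ → Q) (i j k : κ) : Prop := (i ≠ j ∧ i ≠ k ∧ j ≠ k) ∧ (q j = q i ∧ q k = q i)

instance (q : κ → Q) (i j k : κ) : Decidable (Trip q i j k) := by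
  unfold Trip
  infer_instance

/-- The weight of a triple. -/
noncomputable def wt (q : κ → Q) (i : κ) : ℝ := (((occ q i : ℝ) - 1) * ((occ q i : ℝ) - 2))⁻¹

theorem occ_pos (q : κ → Q) (i : κ) : 1 ≤ occ q i := by
  unfold occ
  rw [Nat.one_le_iff_ne_zero, ← Nat.pos_iff_ne_zero, Finset.card_pos]
  exact ⟨i, by simp⟩

omit [DecidableEq κ] in
theorem occ_congr (q : κ → Q) {i j : κ} (h : q j = q i) : occ q j = occ q i := by
  unfold occ
  rw [h]

theorem count_k (q : κ → Q) (i j : κ) (hij : i ≠ j) (hq : q j = q i) (c : ℝ) :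
    ∑ k, (if i ≠ k ∧ j ≠ k ∧ q k = q i then c else 0) = ((occ q i : ℝ) - 2) * c := by
  rw [← Finset.sum_filter, Finset.sum_const, nsmul_eq_mul]
  congr 1
  have e : (Finset.univ.filter fun k => i ≠ k ∧ j ≠ k ∧ q k = q i) =
      ((Finset.univ.filter fun l => q l = q i).erase i).erase j := by
    ext k
    simp only [Finset.mem_filter, Finset.mem_univ, true_and, Finset.mem_erase]
    constructor
    · rintro ⟨h1, h2, h3⟩
      exact ⟨fun h => h2 h.symm, fun h => h1 h.symm, h3⟩
    · rintro ⟨h1, h2, h3⟩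
      exact ⟨fun h => h2 h.symm, fun h => h1 h.symm, h3⟩
  have hi : i ∈ (Finset.univ.filter fun l => q l = q i) := by simp
  have hj : j ∈ (Finset.univ.filter fun l => q l = q i).erase i := by
    simp [hq, hij.symm]
  have h1 : 1 ≤ ((Finset.univ.filter fun l => q l = q i).erase i).card :=
    Finset.card_pos.mpr ⟨j, hj⟩
  rw [e, Finset.card_erase_of_mem hj, Nat.cast_sub h1, Finset.card_erase_of_mem hi,
    Nat.cast_sub (Finset.card_pos.mpr ⟨i, hi⟩)]
  unfold occ
  push_cast
  ring

theorem count_jk (q : κ → Q) (i : κ) (c : ℝ) :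
    ∑ j, ∑ k, (if Trip q i j k then c else 0) =
      ((occ q i : ℝ) - 1) * ((occ q i : ℝ) - 2) * c := by
  have h1 : ∀ j, ∑ k, (if Trip q i j k then c else 0) =
      if i ≠ j ∧ q j = q i then ((occ q i : ℝ) - 2) * c else 0 := by
    intro j
    by_cases h : i ≠ j ∧ q j = q i
    · rw [if_pos h, ← count_k q i j h.1 h.2]
      apply Finset.sum_congr rfl
      intro k _
      have : Trip q i j k ↔ (i ≠ k ∧ j ≠ k ∧ q k = q i) := by
        unfold Trip
        constructor
        · rintro ⟨⟨_, h2, h3⟩, _, h5⟩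
          exact ⟨h2, h3, h5⟩
        · rintro ⟨h2, h3, h5⟩
          exact ⟨⟨h.1, h2, h3⟩, h.2, h5⟩
      simp only [this]
    · rw [if_neg h]
      apply Finset.sum_eq_zero
      intro k _
      rw [if_neg]
      rintro ⟨⟨h1, _, _⟩, h4, _⟩
      exact h ⟨h1, h4⟩
  simp_rw [h1]
  rw [← Finset.sum_filter, Finset.sum_const, nsmul_eq_mul, mul_assoc]
  congr 1
  have e : (Finset.univ.filter fun j => i ≠ j ∧ q j = q i) =
      (Finset.univ.filter fun l => q l = q i).erase i := by
    ext k
    simp only [Finset.mem_filter, Finset.mem_univ, true_and, Finset.mem_erase]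
    constructor
    · rintro ⟨h1, h3⟩
      exact ⟨fun h => h1 h.symm, h3⟩
    · rintro ⟨h1, h3⟩
      exact ⟨fun h => h1 h.symm, h3⟩
  have hi : i ∈ (Finset.univ.filter fun l => q l = q i) := by simp
  rw [e, Finset.card_erase_of_mem hi, Nat.cast_sub (Finset.card_pos.mpr ⟨i, hi⟩)]
  unfold occ
  push_cast
  ring

theorem wt_mul (q : κ → Q) (i : κ) :
    ((occ q i : ℝ) - 1) * ((occ q i : ℝ) - 2) * wt q i = if 3 ≤ occ q i then 1 else 0 := by
  have h1 := occ_pos q i
  unfold wt
  split_ifs with h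
  · have h2 : (3 : ℝ) ≤ occ q i := by exact_mod_cast h
    rw [mul_inv_cancel₀]
    exact mul_ne_zero (by linarith) (by linarith)
  · have h3 : occ q i = 1 ∨ occ q i = 2 := by omega
    rcases h3 with h3 | h3 <;> rw [h3] <;> norm_num

theorem trip_occ (q : κ → Q) {i j k : κ} (h : Trip q i j k) : 3 ≤ occ q i := by
  obtain ⟨⟨h1, h2, h3⟩, h4, h5⟩ := h
  unfold occ
  have : ({i, j, k} : Finset κ) ⊆ Finset.univ.filter fun l => q l = q i := by
    intro l hl
    simp only [Finset.mem_insert, Finset.mem_singleton] at hl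
    rcases hl with rfl | rfl | rfl <;> simp [h4, h5]
  calc 3 = ({i, j, k} : Finset κ).card := by
        rw [Finset.card_insert_of_notMem, Finset.card_insert_of_notMem, Finset.card_singleton]
        · simpa using h3
        · simp [h1, h2]
    _ ≤ _ := Finset.card_le_card this

theorem wt_nonneg (q : κ → Q) (i : κ) : 0 ≤ wt q i := by
  have h1 := occ_pos q i
  unfold wt
  apply inv_nonneg.mpr
  rcases Nat.lt_or_ge (occ q i) 3 with h | h
  · have h3 : occ q i = 1 ∨ occ q i = 2 := by omega
    rcases h3 with h3 | h3 <;> rw [h3] <;> norm_num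
  · have h2 : (3 : ℝ) ≤ occ q i := by exact_mod_cast h
    exact mul_nonneg (by linarith) (by linarith)

theorem wt_le_half (q : κ → Q) {i : κ} (h : 3 ≤ occ q i) : wt q i ≤ 1 / 2 := by
  have h2 : (3 : ℝ) ≤ occ q i := by exact_mod_cast h
  unfold wt
  rw [one_div]
  apply inv_anti₀ (by norm_num)
  nlinarith

theorem sum_wt (q : κ → Q) (F : κ → ℝ) :
    ∑ i, ∑ j, ∑ k, (if Trip q i j k then wt q i * F i else 0) =
      ∑ i, if 3 ≤ occ q i then F i else 0 := by
  apply Finset.sum_congr rfl
  intro i _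
  rw [count_jk, ← mul_assoc, wt_mul]
  split_ifs <;> simp

omit [Fintype κ] [DecidableEq κ] [DecidableEq Q] in
theorem trip_swap (q : κ → Q) (i j k : κ) : Trip q i j k ↔ Trip q j i k := by
  unfold Trip
  constructor <;> rintro ⟨⟨h1, h2, h3⟩, h4, h5⟩
  · exact ⟨⟨h1.symm, h3, h2⟩, h4.symm, h5.trans h4.symm⟩
  · exact ⟨⟨h1.symm, h3, h2⟩, h4.symm, h5.trans h4.symm⟩

omit [Fintype κ] [DecidableEq κ] [DecidableEq Q] in
theorem trip_swap' (q : κ → Q) (i j k : κ) : Trip q i j k ↔ Trip q i k j := by
  unfold Trip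
  constructor <;> rintro ⟨⟨h1, h2, h3⟩, h4, h5⟩
  · exact ⟨⟨h2, h1, h3.symm⟩, h5, h4⟩
  · exact ⟨⟨h2, h1, h3.symm⟩, h5, h4⟩

theorem sum_wt_j (q : κ → Q) (F : κ → ℝ) :
    ∑ i, ∑ j, ∑ k, (if Trip q i j k then wt q i * F j else 0) =
      ∑ i, if 3 ≤ occ q i then F i else 0 := by
  rw [← sum_wt, Finset.sum_comm]
  apply Finset.sum_congr rfl
  intro j _
  apply Finset.sum_congr rfl
  intro i _
  apply Finset.sum_congr rfl
  intro k _
  have h1 := trip_swap q i j k
  by_cases h : Trip q i j k
  · rw [if_pos h, if_pos (h1.mp h)]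
    have h4 : q j = q i := h.2.1
    unfold wt
    rw [occ_congr q h4]
  · rw [if_neg h, if_neg (fun h2 => h (h1.mpr h2))]

theorem sum_wt_k (q : κ → Q) (F : κ → ℝ) :
    ∑ i, ∑ j, ∑ k, (if Trip q i j k then wt q i * F k else 0) =
      ∑ i, if 3 ≤ occ q i then F i else 0 := by
  rw [← sum_wt_j]
  apply Finset.sum_congr rfl
  intro i _
  rw [Finset.sum_comm]
  apply Finset.sum_congr rfl
  intro k _
  apply Finset.sum_congr rfl
  intro j _
  have h1 := trip_swap' q i j k
  simp only [h1]

end Weights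

section Sym

variable {κ : Type} [Fintype κ] [LinearOrder κ]

theorem distinct_sum (v : κ → κ → κ → ℝ) (h1 : ∀ i j k, v i j k = v i k j)
    (h2 : ∀ i j k, v i j k = v j i k) :
    ∑ i, ∑ j, ∑ k, (if i ≠ j ∧ i ≠ k ∧ j ≠ k then v i j k else 0) =
      6 * ∑ i, ∑ j, ∑ k, (if i < j ∧ j < k then v i j k else 0) := by
  have e : ∀ i j k, (if i ≠ j ∧ i ≠ k ∧ j ≠ k then v i j k else 0) =
      (if i < j ∧ j < k then v i j k else 0) + (if i < k ∧ k < j then v i j k else 0) +
      (if j < i ∧ i < k then v i j k else 0) + (if j < k ∧ k < i then v i j k else 0) +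
      (if k < i ∧ i < j then v i j k else 0) + (if k < j ∧ j < i then v i j k else 0) := by
    intro i j k
    rcases lt_trichotomy i j with h | h | h <;> rcases lt_trichotomy i k with h' | h' | h' <;>
      rcases lt_trichotomy j k with h'' | h'' | h'' <;>
      first
      | (exfalso; order)
      | simp [h, h', h'', h.ne, h'.ne, h''.ne, h.ne', h'.ne', h''.ne', not_lt.mpr h.le,
          not_lt.mpr h'.le, not_lt.mpr h''.le]
      | (simp [h, h', h'', not_lt.mpr h'.le]; done)
      | (simp [h, h', h'', not_lt.mpr h''.le]; done)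
      | (simp [h, h', h'']; done)
  set S := ∑ i, ∑ j, ∑ k, (if i < j ∧ j < k then v i j k else 0) with hS
  have e2 : ∑ i, ∑ j, ∑ k, (if i < k ∧ k < j then v i j k else 0) = S := by
    rw [hS]
    apply Finset.sum_congr rfl
    intro i _
    rw [Finset.sum_comm]
    apply Finset.sum_congr rfl
    intro k _
    apply Finset.sum_congr rfl
    intro j _
    rw [h1 i j k]
  have e3 : ∑ i, ∑ j, ∑ k, (if j < i ∧ i < k then v i j k else 0) = S := by
    rw [hS, Finset.sum_comm]
    apply Finset.sum_congr rfl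
    intro i _
    apply Finset.sum_congr rfl
    intro k _
    apply Finset.sum_congr rfl
    intro j _
    rw [h2]
  have e5 : ∑ i, ∑ j, ∑ k, (if k < i ∧ i < j then v i j k else 0) = S := by
    rw [← e3]
    apply Finset.sum_congr rfl
    intro i _
    rw [Finset.sum_comm]
    apply Finset.sum_congr rfl
    intro k _
    apply Finset.sum_congr rfl
    intro j _
    rw [h1 i j k]
  have e4 : ∑ i, ∑ j, ∑ k, (if j < k ∧ k < i then v i j k else 0) = S := by
    rw [← e2, Finset.sum_comm]
    apply Finset.sum_congr rfl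
    intro i _
    apply Finset.sum_congr rfl
    intro k _
    apply Finset.sum_congr rfl
    intro j _
    rw [h2]
  have e6 : ∑ i, ∑ j, ∑ k, (if k < j ∧ j < i then v i j k else 0) = S := by
    rw [← e5, Finset.sum_comm]
    apply Finset.sum_congr rfl
    intro i _
    apply Finset.sum_congr rfl
    intro k _
    apply Finset.sum_congr rfl
    intro j _
    rw [h2]
  simp_rw [e, Finset.sum_add_distrib]
  rw [e2, e3, e4, e5, e6]
  ring

/-- The weighted decomposition into triples. -/
theorem triple_decomp {Q : Type} [DecidableEq Q] (q : κ → Q) (g : κ → ℝ) (hg : ∀ i, 0 ≤ g i)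
    (v : κ → κ → κ → ℝ) (hv : ∀ i j k, 0 ≤ v i j k) (h1 : ∀ i j k, v i j k = v i k j)
    (h2 : ∀ i j k, v i j k = v j i k) :
    ∑ i, ∑ j, ∑ k, (if Trip q i j k then wt q i / 3 * (g i + g j + g k + v i j k) else 0) ≤
      ∑ i, g i + ∑ i, ∑ j, ∑ k, (if i < j ∧ j < k then v i j k else 0) := by
  have e : ∀ i j k, (if Trip q i j k then wt q i / 3 * (g i + g j + g k + v i j k) else 0) =
      1 / 3 * (if Trip q i j k then wt q i * g i else 0) +
      1 / 3 * (if Trip q i j k then wt q i * g j else 0) +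
      1 / 3 * (if Trip q i j k then wt q i * g k else 0) +
      (if Trip q i j k then wt q i / 3 * v i j k else 0) := by
    intro i j k
    split_ifs <;> ring
  simp_rw [e, Finset.sum_add_distrib, ← Finset.mul_sum]
  rw [sum_wt, sum_wt_j, sum_wt_k]
  have h3 : ∑ i, (if 3 ≤ occ q i then g i else 0) ≤ ∑ i, g i := by
    apply Finset.sum_le_sum
    intro i _
    split_ifs
    · exact le_refl _
    · exact hg i
  have h4 : ∑ i, ∑ j, ∑ k, (if Trip q i j k then wt q i / 3 * v i j k else 0) ≤
      ∑ i, ∑ j, ∑ k, (if i < j ∧ j < k then v i j k else 0) := by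
    have h5 := distinct_sum v h1 h2
    have h6 : ∑ i, ∑ j, ∑ k, (if Trip q i j k then wt q i / 3 * v i j k else 0) ≤
        ∑ i, ∑ j, ∑ k, 1 / 6 * (if i ≠ j ∧ i ≠ k ∧ j ≠ k then v i j k else 0) := by
      apply Finset.sum_le_sum
      intro i _
      apply Finset.sum_le_sum
      intro j _
      apply Finset.sum_le_sum
      intro k _
      by_cases h : Trip q i j k
      · rw [if_pos h, if_pos h.1]
        have h7 := wt_le_half q (trip_occ q h)
        have h8 := hv i j k
        nlinarith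
      · rw [if_neg h]
        split_ifs
        · have h8 := hv i j k
          positivity
        · simp
    simp_rw [← Finset.mul_sum] at h6
    rw [h5] at h6
    linarith
  linarith

end Sym

end Pool.Agent.H50.Bose
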