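import Pool.Agent.H50.Bose.Region
import Pool.Agent.H50.Bose.Weights

set_option autoImplicit false

namespace Pool.Agent.H50.Bose

open MeasureTheory Set

/-- The inequality for three particles in a cube of side `r`. -/
def TB (v3 : (Fin 3 → ℝ) → (Fin 3 → ℝ) → (Fin 3 → ℝ) → ℝ) (r K : ℝ) : Prop :=
  ∀ (ι : Type) [Fintype ι] [DecidableEq ι], Fintype.card ι = 3 →
    ∀ i j k : ι, i ≠ j → i ≠ k → j ≠ k → ∀ (c : Fin 3 → ℝ) (u : Cfg ι → ℂ), ContDiff ℝ 1 u →
      ∫⁻ Y in boxI ι c r, ENNReal.ofReal (‖u Y‖ ^ 2) ≤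
        ENNReal.ofReal K * ∫⁻ Y in boxI ι c r,
          dens (fun Y => ENNReal.ofReal (v3 (Y i) (Y j) (Y k))) u Y

section Scale

variable {κ : Type} [Fintype κ] [DecidableEq κ]
variable {v3 : (Fin 3 → ℝ) → (Fin 3 → ℝ) → (Fin 3 → ℝ) → ℝ}

theorem region_trip (hvm : Measurable fun p : (Fin 3 → ℝ) × (Fin 3 → ℝ) × (Fin 3 → ℝ) =>
      v3 p.1 p.2.1 p.2.2) (hv0 : ∀ x y z, 0 ≤ v3 x y z) {r K : ℝ} (hTB : TB v3 r K)
    {ψ : Cfg κ → ℂ} (hψ : ContDiff ℝ 1 ψ) (cc : κ → Fin 3 → ℝ) {i j k : κ} (hij : i ≠ j)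
    (hik : i ≠ k) (hjk : j ≠ k) (hj : cc j = cc i) (hk : cc k = cc i) :
    ∫⁻ X in region cc r, ENNReal.ofReal (‖ψ X‖ ^ 2) ≤
      ENNReal.ofReal K * ∫⁻ X in region cc r, ENNReal.ofReal
        (gradp ψ i X + gradp ψ j X + gradp ψ k X + v3 (X i) (X j) (X k) * ‖ψ X‖ ^ 2) := by
  set s : Finset κ := {i, j, k} with hs
  have hi' : i ∈ s := by simp [hs]
  have hj' : j ∈ s := by simp [hs]
  have hk' : k ∈ s := by simp [hs]
  have hcard : s.card = 3 := by
    rw [hs, Finset.card_insert_of_notMem, Finset.card_insert_of_notMem, Finset.card_singleton]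
    · simpa using hjk
    · simp [hij, hik]
  have hcard' : Fintype.card ↥s = 3 := by rw [Fintype.card_coe, hcard]
  have hVt : Measurable (fun Y : Cfg ↥s => ENNReal.ofReal
      (v3 (Y ⟨i, hi'⟩) (Y ⟨j, hj'⟩) (Y ⟨k, hk'⟩))) := by
    have h1 : Measurable (fun Y : Cfg ↥s =>
        ((Y ⟨i, hi'⟩, Y ⟨j, hj'⟩, Y ⟨k, hk'⟩) : (Fin 3 → ℝ) × (Fin 3 → ℝ) × (Fin 3 → ℝ))) := by
      fun_prop
    exact (hvm.comp h1).ennreal_ofReal
  have h1 := region_bound hψ s (fun Y : Cfg ↥s => ENNReal.ofReal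
      (v3 (Y ⟨i, hi'⟩) (Y ⟨j, hj'⟩) (Y ⟨k, hk'⟩))) hVt cc (cc i)
      (by
        intro l hl
        simp only [hs, Finset.mem_insert, Finset.mem_singleton] at hl
        rcases hl with rfl | rfl | rfl
        · rfl
        · exact hj
        · exact hk) r (ENNReal.ofReal K)
      (fun u hu => hTB ↥s hcard' ⟨i, hi'⟩ ⟨j, hj'⟩ ⟨k, hk'⟩
        (fun h => hij (congrArg Subtype.val h)) (fun h => hik (congrArg Subtype.val h))
        (fun h => hjk (congrArg Subtype.val h)) (cc i) u hu)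
  refine h1.trans (le_of_eq ?_)
  congr 1
  apply lintegral_congr
  intro X
  have h2 : ∑ l ∈ s, gradp ψ l X = gradp ψ i X + gradp ψ j X + gradp ψ k X := by
    rw [hs, Finset.sum_insert, Finset.sum_insert, Finset.sum_singleton]
    · ring
    · simpa using hjk
    · simp [hij, hik]
  rw [h2, ← ENNReal.ofReal_mul (hv0 _ _ _), ← ENNReal.ofReal_add]
  · have := gradp_nonneg ψ i X
    have := gradp_nonneg ψ j X
    have := gradp_nonneg ψ k X
    positivity
  · exact mul_nonneg (hv0 _ _ _) (sq_nonneg _)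

end Scale

section Total

variable {κ : Type} [Fintype κ] [LinearOrder κ]

/-- Three-body potential energy. -/
noncomputable def pot3 (v3 : (Fin 3 → ℝ) → (Fin 3 → ℝ) → (Fin 3 → ℝ) → ℝ) (X : Cfg κ) : ℝ :=
  ∑ i, ∑ j, ∑ k, if i < j ∧ j < k then v3 (X i) (X j) (X k) else 0

/-- Energy density without the pair interaction. -/
noncomputable def tot (v3 : (Fin 3 → ℝ) → (Fin 3 → ℝ) → (Fin 3 → ℝ) → ℝ) (ψ : Cfg κ → ℂ)
    (X : Cfg κ) : ℝ := grad2 ψ X + pot3 v3 X * ‖ψ X‖ ^ 2

/-- The number of particles whose cell holds at least three particles. -/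
def crowd {Q : Type} [DecidableEq Q] (q : κ → Q) : ℕ :=
  (Finset.univ.filter fun i => 3 ≤ occ q i).card

variable {v3 : (Fin 3 → ℝ) → (Fin 3 → ℝ) → (Fin 3 → ℝ) → ℝ}

theorem region_scale (hvm : Measurable fun p : (Fin 3 → ℝ) × (Fin 3 → ℝ) × (Fin 3 → ℝ) =>
      v3 p.1 p.2.1 p.2.2) (hv0 : ∀ x y z, 0 ≤ v3 x y z)
    (hs1 : ∀ x y z, v3 x y z = v3 x z y) (hs2 : ∀ x y z, v3 x y z = v3 y x z)
    {r K : ℝ} (hTB : TB v3 r K)
    {ψ : Cfg κ → ℂ} (hψ : ContDiff ℝ 1 ψ) {Q : Type} [DecidableEq Q] (q : κ → Q)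
    (cr : Q → Fin 3 → ℝ) :
    ENNReal.ofReal ((crowd q : ℝ) / 3) *
      ∫⁻ X in region (fun l => cr (q l)) r, ENNReal.ofReal (‖ψ X‖ ^ 2) ≤
      ENNReal.ofReal K * ∫⁻ X in region (fun l => cr (q l)) r, ENNReal.ofReal (tot v3 ψ X) := by
  set R : Set (Cfg κ) := region (fun l => cr (q l)) r with hR
  set I := ∫⁻ X in R, ENNReal.ofReal (‖ψ X‖ ^ 2) with hI
  set c : κ × κ × κ → ℝ := fun p => if Trip q p.1 p.2.1 p.2.2 then wt q p.1 / 3 else 0 with hc
  have hc0 : ∀ p, 0 ≤ c p := by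
    intro p
    simp only [hc]
    split_ifs
    · have := wt_nonneg q p.1
      positivity
    · exact le_refl _
  have hsum : ∑ p, c p = (crowd q : ℝ) / 3 := by
    have h1 := sum_wt q (fun _ => (1 / 3 : ℝ))
    rw [Fintype.sum_prod_type]
    simp_rw [Fintype.sum_prod_type]
    simp only [hc]
    have h2 : ∀ i, wt q i / 3 = wt q i * (1 / 3) := fun i => by ring
    simp_rw [h2]
    rw [h1, ← Finset.sum_filter, Finset.sum_const, nsmul_eq_mul]
    unfold crowd
    ring
  set e : κ × κ × κ → Cfg κ → ℝ := fun p X => gradp ψ p.1 X + gradp ψ p.2.1 X +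
    gradp ψ p.2.2 X + v3 (X p.1) (X p.2.1) (X p.2.2) * ‖ψ X‖ ^ 2 with he
  have hψc := hψ.continuous
  have hgc : ∀ i, Continuous (gradp ψ i) := continuous_gradp hψ
  have hem : ∀ p, Measurable (e p) := by
    intro p
    have h1 : Measurable (fun X : Cfg κ =>
        ((X p.1, X p.2.1, X p.2.2) : (Fin 3 → ℝ) × (Fin 3 → ℝ) × (Fin 3 → ℝ))) := by
      fun_prop
    have h2 := hvm.comp h1
    have h3 : Measurable (fun X : Cfg κ => v3 (X p.1) (X p.2.1) (X p.2.2)) := h2
    have h4 : Measurable (fun X : Cfg κ => ‖ψ X‖ ^ 2) := by fun_prop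
    have h5 := fun i => (hgc i).measurable
    exact (((h5 _).add (h5 _)).add (h5 _)).add (h3.mul h4)
  have he0 : ∀ p X, 0 ≤ e p X := by
    intro p X
    have h1 := gradp_nonneg ψ p.1 X
    have h2 := gradp_nonneg ψ p.2.1 X
    have h3 := gradp_nonneg ψ p.2.2 X
    have h4 : 0 ≤ v3 (X p.1) (X p.2.1) (X p.2.2) * ‖ψ X‖ ^ 2 :=
      mul_nonneg (hv0 _ _ _) (sq_nonneg _)
    simp only [he]
    linarith
  calc ENNReal.ofReal ((crowd q : ℝ) / 3) * I = ∑ p, ENNReal.ofReal (c p) * I := by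
        rw [← hsum, ENNReal.ofReal_sum_of_nonneg (fun p _ => hc0 p), Finset.sum_mul]
    _ ≤ ∑ p, ENNReal.ofReal (c p) * (ENNReal.ofReal K * ∫⁻ X in R, ENNReal.ofReal (e p X)) := by
        apply Finset.sum_le_sum
        intro p _
        by_cases h : Trip q p.1 p.2.1 p.2.2
        · obtain ⟨⟨h1, h2, h3⟩, h4, h5⟩ := h
          gcongr
          exact region_trip hvm hv0 hTB hψ _ h1 h2 h3 (by simp only [h4]) (by simp only [h5])
        · have : c p = 0 := by
            simp only [hc]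
            rw [if_neg h]
          rw [this]
          simp
    _ = ENNReal.ofReal K * ∫⁻ X in R, ENNReal.ofReal (∑ p, c p * e p X) := by
        have h1 : ∀ X, ENNReal.ofReal (∑ p, c p * e p X) =
            ∑ p, ENNReal.ofReal (c p) * ENNReal.ofReal (e p X) := by
          intro X
          rw [ENNReal.ofReal_sum_of_nonneg (fun p _ => mul_nonneg (hc0 p) (he0 p X))]
          apply Finset.sum_congr rfl
          intro p _
          rw [ENNReal.ofReal_mul (hc0 p)]
        simp_rw [h1]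
        rw [lintegral_finsetSum]
        · rw [Finset.mul_sum]
          apply Finset.sum_congr rfl
          intro p _
          rw [lintegral_const_mul _ (hem p).ennreal_ofReal]
          ring
        · intro p _
          exact (hem p).ennreal_ofReal.const_mul _
    _ ≤ _ := by
        gcongr with X
        have h1 := triple_decomp q (fun i => gradp ψ i X) (fun i => gradp_nonneg ψ i X)
          (fun i j k => v3 (X i) (X j) (X k) * ‖ψ X‖ ^ 2)
          (fun i j k => mul_nonneg (hv0 _ _ _) (sq_nonneg _))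
          (fun i j k => by rw [hs1]) (fun i j k => by rw [hs2])
        rw [Fintype.sum_prod_type]
        simp_rw [Fintype.sum_prod_type]
        simp only [hc, he, ite_mul, zero_mul]
        refine h1.trans (le_of_eq ?_)
        unfold tot pot3
        rw [grad2_eq, Finset.sum_mul]
        congr 1
        apply Finset.sum_congr rfl
        intro i _
        rw [Finset.sum_mul]
        apply Finset.sum_congr rfl
        intro j _
        rw [Finset.sum_mul]
        apply Finset.sum_congr rfl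
        intro k _
        rw [ite_mul, zero_mul]

/-- The cell of a point. -/
noncomputable def cellOf (r : ℝ) (x : Fin 3 → ℝ) : Fin 3 → ℤ := fun a => ⌊x a / r⌋

/-- The corner of a cell. -/
noncomputable def cornerOf (r : ℝ) (z : Fin 3 → ℤ) : Fin 3 → ℝ := fun a => r * (z a : ℝ)

theorem mem_box_cell {r : ℝ} (hr : 0 < r) (x : Fin 3 → ℝ) (z : Fin 3 → ℤ) :
    x ∈ box (cornerOf r z) r ↔ cellOf r x = z := by
  rw [mem_box, funext_iff]
  apply forall_congr'
  intro a
  unfold cornerOf cellOf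
  rw [Int.floor_eq_iff, le_div_iff₀ hr, div_lt_iff₀ hr]
  constructor
  · rintro ⟨h1, h2⟩
    constructor <;> nlinarith
  · rintro ⟨h1, h2⟩
    constructor <;> nlinarith

/-- The number of particles in crowded cells of side `r`. -/
noncomputable def crowdAt (r : ℝ) (X : Cfg κ) : ℕ := crowd fun l => cellOf r (X l)

theorem scale_sum (hvm : Measurable fun p : (Fin 3 → ℝ) × (Fin 3 → ℝ) × (Fin 3 → ℝ) =>
      v3 p.1 p.2.1 p.2.2) (hv0 : ∀ x y z, 0 ≤ v3 x y z)
    (hs1 : ∀ x y z, v3 x y z = v3 x z y) (hs2 : ∀ x y z, v3 x y z = v3 y x z)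
    {r K : ℝ} (hr : 0 < r) (hTB : TB v3 r K)
    {ψ : Cfg κ → ℂ} (hψ : ContDiff ℝ 1 ψ) :
    ∫⁻ X, ENNReal.ofReal ((crowdAt r X : ℝ) / 3) * ENNReal.ofReal (‖ψ X‖ ^ 2) ≤
      ENNReal.ofReal K * ∫⁻ X, ENNReal.ofReal (tot v3 ψ X) := by
  set R : (κ → Fin 3 → ℤ) → Set (Cfg κ) := fun q => region (fun l => cornerOf r (q l)) r with hR
  have hRmem : ∀ q X, X ∈ R q ↔ (fun l => cellOf r (X l)) = q := by
    intro q X
    simp only [hR, mem_region, mem_box_cell hr, funext_iff]
  have hRm : ∀ q, MeasurableSet (R q) := fun q => measurableSet_region _ _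
  have hdisj : Pairwise (Function.onFun Disjoint R) := by
    intro q q' hne
    rw [Function.onFun, Set.disjoint_left]
    intro X h h'
    exact hne (((hRmem q X).mp h).symm.trans ((hRmem q' X).mp h'))
  have hun : (⋃ q, R q) = Set.univ := by
    apply Set.eq_univ_of_forall
    intro X
    rw [Set.mem_iUnion]
    exact ⟨_, (hRmem _ X).mpr rfl⟩
  have hsplit : ∀ F : Cfg κ → ENNReal, ∫⁻ X, F X = ∑' q, ∫⁻ X in R q, F X := by
    intro F
    rw [← lintegral_iUnion hRm hdisj, hun, Measure.restrict_univ]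
  rw [hsplit, hsplit, ← ENNReal.tsum_mul_left]
  apply ENNReal.tsum_le_tsum
  intro q
  have h1 := region_scale hvm hv0 hs1 hs2 hTB hψ q (cornerOf r)
  refine le_trans (le_of_eq ?_) h1
  rw [← lintegral_const_mul _ (by
    have := hψ.continuous
    fun_prop)]
  apply setLIntegral_congr_fun (hRm q)
  intro X hX
  have := (hRmem q X).mp hX
  simp only [crowdAt, this]

end Total

end Pool.Agent.H50.Bose
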