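import Pool.Agent.H50.Bose.Defs
import Pool.Agent.H50.Bose.Integ
import Pool.Agent.H50.Bose.Model

set_option autoImplicit false

namespace Pool.Agent.H50.Bose

open MeasureTheory Set

section Consts

theorem supp_bound {E F : Type*} [NormedAddCommGroup E] [Zero F] {f : E → F}
    (h : HasCompactSupport f) : ∃ R : ℝ, 0 ≤ R ∧ ∀ x, f x ≠ 0 → ‖x‖ ≤ R := by
  obtain ⟨R, hR⟩ := h.isCompact.isBounded.exists_norm_le
  refine ⟨max R 0, le_max_right _ _, ?_⟩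
  intro x hx
  exact (hR x (subset_tsupport f (Function.mem_support.mpr hx))).trans (le_max_left _ _)

theorem IsThreeBody.exists_supp {V : (Fin 3 → ℝ) → (Fin 3 → ℝ) → ℝ} (hV : IsThreeBody V) :
    ∃ R : ℝ, 0 ≤ R ∧ ∀ x y, V x y ≠ 0 → ∀ a, |x a| ≤ R ∧ |y a| ≤ R := by
  obtain ⟨R, hR0, hR⟩ := supp_bound hV.supp
  refine ⟨R, hR0, ?_⟩
  intro x y hxy a
  have h1 := hR (x, y) hxy
  rw [Prod.norm_def, sup_le_iff] at h1
  constructor
  · exact (norm_le_pi_norm x a).trans h1.1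
  · exact (norm_le_pi_norm y a).trans h1.2

theorem IsPair.exists_supp {W : (Fin 3 → ℝ) → ℝ} (hW : IsPair W) :
    ∃ R : ℝ, 0 ≤ R ∧ ∀ x, W x ≠ 0 → ∀ a, |x a| ≤ R := by
  obtain ⟨R, hR0, hR⟩ := supp_bound hW.supp
  exact ⟨R, hR0, fun x hx a => (norm_le_pi_norm x a).trans (hR x hx)⟩

theorem IsThreeBody.exists_mass {V : (Fin 3 → ℝ) → (Fin 3 → ℝ) → ℝ} (hV : IsThreeBody V) :
    ∃ μ : ℝ, 0 < μ ∧ ENNReal.ofReal μ ≤ ∫⁻ x, ∫⁻ y, ENNReal.ofReal (V x y) := by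
  have h1 : (∫⁻ x, ∫⁻ y, ENNReal.ofReal (V x y)) ≠ 0 := by
    intro h
    apply hV.ne_zero
    have hm : Measurable fun p : (Fin 3 → ℝ) × (Fin 3 → ℝ) => ENNReal.ofReal (V p.1 p.2) :=
      hV.measurable.ennreal_ofReal
    have h2 : ∫⁻ p : (Fin 3 → ℝ) × (Fin 3 → ℝ), ENNReal.ofReal (V p.1 p.2) = 0 := by
      rw [Measure.volume_eq_prod, lintegral_prod _ hm.aemeasurable]
      exact h
    rw [lintegral_eq_zero_iff hm] at h2
    filter_upwards [h2] with p hp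
    have h3 : V p.1 p.2 ≤ 0 := ENNReal.ofReal_eq_zero.mp hp
    exact le_antisymm h3 (hV.nonneg _ _)
  have h2 : 0 < ∫⁻ x, ∫⁻ y, ENNReal.ofReal (V x y) := pos_iff_ne_zero.mpr h1
  obtain ⟨r, hr0, hr⟩ := ENNReal.lt_iff_exists_nnreal_btwn.mp h2
  refine ⟨r, by exact_mod_cast hr0, ?_⟩
  rw [ENNReal.ofReal_coe_nnreal]
  exact hr.le

end Consts

section Lower

variable {N : ℕ}

theorem sq_half (hN : 1 ≤ N) : ((N : ℝ) ^ (1 / 2 : ℝ)) ^ 2 = N := by
  rw [← Real.sqrt_eq_rpow, Real.sq_sqrt (Nat.cast_nonneg _)]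

theorem v3s_symm {V : (Fin 3 → ℝ) → (Fin 3 → ℝ) → ℝ} (hV : IsThreeBody V) (s : ℝ)
    (x y z : Fin 3 → ℝ) : v3s V s x y z = v3s V s x z y := by
  unfold v3s
  rw [hV.symm]

theorem v3s_symm' {V : (Fin 3 → ℝ) → (Fin 3 → ℝ) → ℝ} (hV : IsThreeBody V) (s : ℝ)
    (x y z : Fin 3 → ℝ) : v3s V s x y z = v3s V s y x z := by
  unfold v3s
  have := (hV.perm (s • x) (s • y) (s • z)).1
  simp only [smul_sub]
  rw [this]

theorem trap_nonneg {U : (Fin 3 → ℝ) → ℝ} (hU : IsTrap U) :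
    ∀ᵐ x : Fin 3 → ℝ, 0 ≤ U x := by
  obtain ⟨c, hc, α, _, h⟩ := hU.growth
  filter_upwards [h] with x hx
  refine le_trans ?_ hx
  have h0 : 0 ≤ len x := Real.sqrt_nonneg _
  have : 0 ≤ len x ^ α := Real.rpow_nonneg h0 _
  positivity

/-- Pointwise lower bound for the potential. -/
theorem potential_ge (hN : 1 ≤ N) {β : ℝ} {U : (Fin 3 → ℝ) → ℝ}
    {V : (Fin 3 → ℝ) → (Fin 3 → ℝ) → ℝ} {W : (Fin 3 → ℝ) → ℝ} {b R : ℝ}
    (hb : ∀ x, |W x| ≤ b) (hR : ∀ x, W x ≠ 0 → ∀ a, |x a| ≤ R) (X : Cfg (Fin N))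
    (hUX : ∀ i, 0 ≤ U (X i)) :
    pot3 (v3s V ((N : ℝ) ^ (1 / 2 : ℝ))) X -
      b * (N : ℝ) ^ (3 * β - 1) * pairsAt (R * (N : ℝ) ^ (-β)) X ≤ potential N β U V W X := by
  have hN0 : (0 : ℝ) < N := by exact_mod_cast hN
  have h1 : 0 ≤ ∑ i, U (X i) := Finset.sum_nonneg fun i _ => hUX i
  have h2 : pot3 (v3s V ((N : ℝ) ^ (1 / 2 : ℝ))) X = ∑ i, ∑ j, ∑ k, if i < j ∧ j < k then
      (N : ℝ) * V ((N : ℝ) ^ (1 / 2 : ℝ) • (X i - X j)) ((N : ℝ) ^ (1 / 2 : ℝ) • (X i - X k))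
      else 0 := by
    unfold pot3 v3s
    rw [sq_half hN]
  have h3 : -(b * (N : ℝ) ^ (3 * β - 1) * pairsAt (R * (N : ℝ) ^ (-β)) X) ≤
      ∑ i, ∑ j, if i < j then (N : ℝ) ^ (3 * β - 1) * W ((N : ℝ) ^ β • (X i - X j)) else 0 := by
    unfold pairsAt
    rw [Finset.mul_sum, ← Finset.sum_neg_distrib]
    apply Finset.sum_le_sum
    intro i _
    rw [Finset.mul_sum, ← Finset.sum_neg_distrib]
    apply Finset.sum_le_sum
    intro j _
    have hb0 : 0 ≤ b := (abs_nonneg _).trans (hb 0)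
    have hp : 0 < (N : ℝ) ^ (3 * β - 1) := Real.rpow_pos_of_pos hN0 _
    by_cases hij : i < j
    · rw [if_pos hij]
      by_cases hW : W ((N : ℝ) ^ β • (X i - X j)) = 0
      · rw [hW, mul_zero]
        split_ifs
        · have : 0 ≤ b * (N : ℝ) ^ (3 * β - 1) := by positivity
          linarith
        · simp
      · have h4 := hR _ hW
        have h5 : ∀ a, |X i a - X j a| ≤ R * (N : ℝ) ^ (-β) := by
          intro a
          have h6 := h4 a
          have hpb : 0 < (N : ℝ) ^ β := Real.rpow_pos_of_pos hN0 _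
          rw [Pi.smul_apply, Pi.sub_apply, smul_eq_mul, abs_mul, abs_of_pos hpb] at h6
          rw [Real.rpow_neg hN0.le, ← div_eq_mul_inv, le_div_iff₀ hpb]
          linarith
        rw [if_pos ⟨hij, h5⟩, mul_one]
        have h7 := neg_le_of_abs_le (hb ((N : ℝ) ^ β • (X i - X j)))
        nlinarith
    · rw [if_neg hij, if_neg (fun h => hij h.1)]
      simp
  unfold potential
  rw [← h2]
  linarith

theorem energy_ge (hN : 1 ≤ N) {β : ℝ} {U : (Fin 3 → ℝ) → ℝ} (hU : IsTrap U)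
    {V : (Fin 3 → ℝ) → (Fin 3 → ℝ) → ℝ} (hV : IsThreeBody V) {W : (Fin 3 → ℝ) → ℝ} {b R : ℝ}
    (hb : ∀ x, |W x| ≤ b) (hR : ∀ x, W x ≠ 0 → ∀ a, |x a| ≤ R)
    {ψ : Cfg (Fin N) → ℂ} (hψ : IsTest N ψ) {c : ℝ} (hc : 0 ≤ c)
    (h : b * (N : ℝ) ^ (3 * β - 1) *
      (∫ X, pairsAt (R * (N : ℝ) ^ (-β)) X * ‖ψ X‖ ^ 2) ≤ c * (∫ X, ‖ψ X‖ ^ 2) +
        ∫ X, tot (v3s V ((N : ℝ) ^ (1 / 2 : ℝ))) ψ X) :
    -c * (∫ X, ‖ψ X‖ ^ 2) ≤ energy N β U V W ψ := by
  have hψ1 : ContDiff ℝ 1 ψ := hψ.smooth.of_le (by exact_mod_cast le_top)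
  set s := (N : ℝ) ^ (1 / 2 : ℝ) with hs
  have hI0 : 0 ≤ ∫ X, ‖ψ X‖ ^ 2 := integral_nonneg fun X => sq_nonneg _
  unfold energy
  by_cases hint : Integrable fun X : Fin N → Fin 3 → ℝ =>
      ((∑ i, ∑ a, ‖fderiv ℝ ψ X (Pi.single i (Pi.single a 1))‖ ^ 2) +
      potential N β U V W X * ‖ψ X‖ ^ 2)
  · obtain ⟨B, hB⟩ := hV.bdd
    have hB0 : 0 ≤ B := (hV.nonneg 0 0).trans (hB 0 0)
    have hti : Integrable fun X => tot (v3s V s) ψ X := by
      apply integrable_tot (measurable_v3s hV.measurable s)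
        (fun x y z => mul_nonneg (sq_nonneg _) (hV.nonneg _ _)) (B := s ^ 2 * B) (by positivity)
        _ hψ1 hψ.supp
      intro x y z
      exact mul_le_mul_of_nonneg_left (hB _ _) (sq_nonneg _)
    have hpi : Integrable fun X : Cfg (Fin N) =>
        pairsAt (R * (N : ℝ) ^ (-β)) X * ‖ψ X‖ ^ 2 :=
      integrable_bdd hψ1.continuous hψ.supp (measurable_pairsAt _) (B := (N : ℝ) ^ 2)
        (fun X => by
          rw [abs_of_nonneg (pairsAt_nonneg _ X)]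
          exact pairsAt_le _ X)
    have hae : ∀ᵐ X : Cfg (Fin N), ∀ i, 0 ≤ U (X i) := by
      rw [volume_pi]
      rw [Filter.eventually_all]
      intro i
      have hq : Measure.QuasiMeasurePreserving (Function.eval i)
          (Measure.pi fun _ : Fin N => (volume : Measure (Fin 3 → ℝ))) volume :=
        Measure.quasiMeasurePreserving_eval (fun _ : Fin N => (volume : Measure (Fin 3 → ℝ))) i
      exact hq.ae (trap_nonneg hU)
    have h1 : ∫ X, (tot (v3s V s) ψ X - b * (N : ℝ) ^ (3 * β - 1) *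
        (pairsAt (R * (N : ℝ) ^ (-β)) X * ‖ψ X‖ ^ 2)) ≤
        ∫ X : Fin N → Fin 3 → ℝ,
      ((∑ i, ∑ a, ‖fderiv ℝ ψ X (Pi.single i (Pi.single a 1))‖ ^ 2) +
      potential N β U V W X * ‖ψ X‖ ^ 2) := by
      apply integral_mono_ae (hti.sub (hpi.const_mul _)) hint
      filter_upwards [hae] with X hX
      have h2 := mul_le_mul_of_nonneg_right (potential_ge (V := V) (β := β) hN hb hR X hX)
        (sq_nonneg ‖ψ X‖)
      have h3 : grad2 ψ X = ∑ i, ∑ a, ‖fderiv ℝ ψ X (Pi.single i (Pi.single a 1))‖ ^ 2 := rfl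
      simp only [Pi.sub_apply]
      unfold tot
      rw [h3]
      linarith
    rw [integral_sub hti (hpi.const_mul _), integral_const_mul] at h1
    linarith
  · rw [integral_undef hint]
    have := mul_nonneg hc hI0
    linarith

end Lower

section Main

/-- Stability of the second kind for `β < 1/3`. -/
theorem stable_of_lt {β : ℝ} (hβ0 : 0 < β) (hβ : β < 1 / 3) {U : (Fin 3 → ℝ) → ℝ}
    (hU : IsTrap U) {V : (Fin 3 → ℝ) → (Fin 3 → ℝ) → ℝ} (hV : IsThreeBody V)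
    {W : (Fin 3 → ℝ) → ℝ} (hW : IsPair W) : Stable β U V W := by
  obtain ⟨RV, hRV0, hRV⟩ := hV.exists_supp
  obtain ⟨RW, hRW0, hRW⟩ := hW.exists_supp
  obtain ⟨μ, hμ0, hμ⟩ := hV.exists_mass
  obtain ⟨BV, hBV⟩ := hV.bdd
  obtain ⟨b, hb⟩ := hW.bdd
  have hBV0 : 0 ≤ BV := (hV.nonneg 0 0).trans (hBV 0 0)
  have hb0 : 0 ≤ b := (abs_nonneg _).trans (hb 0)
  set k0 : ℝ := 4 * RV + 1 with hk0
  have hk0pos : 0 < k0 := by positivity
  obtain ⟨A, hA0, hA⟩ := tb_model hV.measurable hμ0 hBV0 hBV hRV hμ hk0pos (by linarith)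
  set m : ℝ := max 1 (RW / k0) with hm
  have hm1 : 1 ≤ m := le_max_left _ _
  have hm2 : RW / k0 ≤ m := le_max_right _ _
  set c3 : ℝ := 2592 * 64 / 7 * (A * k0 ^ 2 * b * m ^ 3) + 1 with hc3
  have hc30 : 1 ≤ c3 := by
    have : 0 ≤ 2592 * 64 / 7 * (A * k0 ^ 2 * b * m ^ 3) := by positivity
    linarith
  set ε : ℝ := 1 / (2 * c3) with hε
  have hε0 : 0 < ε := by positivity
  have hε1 : ε ≤ 1 := by
    rw [hε, div_le_one (by positivity)]
    linarith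
  set C1 : ℝ := 3456 * b * m ^ 3 / ε with hC1
  have hC10 : 0 ≤ C1 := by positivity
  -- threshold
  have hlim1 : ∀ᶠ N : ℕ in Filter.atTop, 162 * b * (A * k0 ^ 2) * (N : ℝ) ^ (3 * β - 1) ≤ 1 := by
    have h1 : Filter.Tendsto (fun N : ℕ => (N : ℝ) ^ (-(1 - 3 * β))) Filter.atTop (nhds 0) :=
      (tendsto_rpow_neg_atTop (by linarith)).comp tendsto_natCast_atTop_atTop
    have h2 := h1.const_mul (162 * b * (A * k0 ^ 2))
    rw [mul_zero] at h2
    have h3 := h2.eventually (gt_mem_nhds (show (0 : ℝ) < 1 by norm_num))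
    filter_upwards [h3] with N hN
    have e : -(1 - 3 * β) = 3 * β - 1 := by ring
    rw [e] at hN
    exact hN.le
  have hlim2 : ∀ᶠ N : ℕ in Filter.atTop, 1 ≤ ε * (N : ℝ) ^ (1 / 2 : ℝ) := by
    have h1 : Filter.Tendsto (fun N : ℕ => (N : ℝ) ^ (1 / 2 : ℝ)) Filter.atTop Filter.atTop :=
      (tendsto_rpow_atTop (by norm_num)).comp tendsto_natCast_atTop_atTop
    have h2 := h1.eventually (Filter.eventually_ge_atTop (1 / ε))
    filter_upwards [h2] with N hN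
    rw [div_le_iff₀ hε0] at hN
    linarith
  obtain ⟨N0, hN0⟩ := Filter.eventually_atTop.mp (hlim1.and hlim2)
  refine ⟨C1 + b * N0 + 1, by positivity, ?_⟩
  intro N hN ψ hψ
  have hψ1 : ContDiff ℝ 1 ψ := hψ.smooth.of_le (by exact_mod_cast le_top)
  have hNpos : (0 : ℝ) < N := by exact_mod_cast hN
  have hN1 : (1 : ℝ) ≤ N := by exact_mod_cast hN
  have hI0 : 0 ≤ ∫ X, ‖ψ X‖ ^ 2 := integral_nonneg fun X => sq_nonneg _
  set s := (N : ℝ) ^ (1 / 2 : ℝ) with hs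
  have hspos : 0 < s := Real.rpow_pos_of_pos hNpos _
  have hs2 : s ^ 2 = N := sq_half hN
  set t := (N : ℝ) ^ (3 * β - 1) with ht
  have htpos : 0 < t := Real.rpow_pos_of_pos hNpos _
  have ht1 : t ≤ 1 := Real.rpow_le_one_of_one_le_of_nonpos hN1 (by linarith)
  set v3 := v3s V s with hv3
  have hvm := measurable_v3s hV.measurable s
  have hv0 : ∀ x y z, 0 ≤ v3 x y z := fun x y z => mul_nonneg (sq_nonneg _) (hV.nonneg _ _)
  have htn : ∀ X, 0 ≤ tot v3 ψ X := fun X =>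
    add_nonneg (grad2_nonneg _ _) (mul_nonneg (pot3_nonneg hv0 X) (sq_nonneg _))
  have hE0 : 0 ≤ ∫ X, tot v3 ψ X := integral_nonneg htn
  have hfin : ∀ c : ℝ, 0 ≤ c → c ≤ (C1 + b * N0 + 1) * N →
      b * t * (∫ X, pairsAt (RW * (N : ℝ) ^ (-β)) X * ‖ψ X‖ ^ 2) ≤ c * (∫ X, ‖ψ X‖ ^ 2) +
        ∫ X, tot v3 ψ X →
      -(C1 + b * N0 + 1) * N * ∫ X, ‖ψ X‖ ^ 2 ≤ energy N β U V W ψ := by
    intro c hc0 hc h
    have h1 := energy_ge hN hU hV hb hRW hψ hc0 h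
    have h2 := mul_le_mul_of_nonneg_right hc hI0
    linarith
  rcases lt_or_ge N N0 with hNN | hNN
  · -- small N
    apply hfin (b * N0 * N) (by positivity) (by nlinarith)
    have h1 : ∫ X, pairsAt (RW * (N : ℝ) ^ (-β)) X * ‖ψ X‖ ^ 2 ≤
        (N : ℝ) ^ 2 * ∫ X, ‖ψ X‖ ^ 2 := by
      rw [← integral_const_mul]
      apply integral_mono
      · exact integrable_bdd hψ1.continuous hψ.supp (measurable_pairsAt _) (B := (N : ℝ) ^ 2)
          (fun X => by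
            rw [abs_of_nonneg (pairsAt_nonneg _ X)]
            exact pairsAt_le _ X)
      · exact (integrable_sq hψ1.continuous hψ.supp).const_mul _
      · intro X
        exact mul_le_mul_of_nonneg_right (pairsAt_le _ X) (sq_nonneg _)
    have hNN' : (N : ℝ) ≤ N0 := by exact_mod_cast hNN.le
    have h2 : b * t * (∫ X, pairsAt (RW * (N : ℝ) ^ (-β)) X * ‖ψ X‖ ^ 2) ≤
        b * 1 * ((N : ℝ) ^ 2 * ∫ X, ‖ψ X‖ ^ 2) := by
      have hp0 : 0 ≤ ∫ X, pairsAt (RW * (N : ℝ) ^ (-β)) X * ‖ψ X‖ ^ 2 :=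
        integral_nonneg fun X => mul_nonneg (pairsAt_nonneg _ _) (sq_nonneg _)
      gcongr
    have h3 : b * 1 * ((N : ℝ) ^ 2 * ∫ X, ‖ψ X‖ ^ 2) ≤ b * N0 * N * ∫ X, ‖ψ X‖ ^ 2 := by
      have : b * (N : ℝ) ^ 2 ≤ b * N0 * N := by
        rw [mul_assoc, sq]
        gcongr
      calc _ = b * (N : ℝ) ^ 2 * ∫ X, ‖ψ X‖ ^ 2 := by ring
        _ ≤ _ := mul_le_mul_of_nonneg_right this hI0
    linarith
  · -- large N
    obtain ⟨hl1, hl2⟩ := hN0 N hNN
    set y := (N : ℝ) ^ (1 / 2 - β) with hy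
    have hypos : 0 < y := Real.rpow_pos_of_pos hNpos _
    have hy1 : 1 ≤ y := Real.one_le_rpow hN1 (by linarith)
    have hy3 : y ^ 3 * t = s := by
      rw [hy, ht, hs, ← Real.rpow_natCast, ← Real.rpow_mul hNpos.le, ← Real.rpow_add hNpos]
      congr 1
      push_cast
      ring
    have hys : y / s = (N : ℝ) ^ (-β) := by
      rw [hy, hs, ← Real.rpow_sub hNpos]
      congr 1
      ring
    have hT1 : 1 ≤ m * y := by nlinarith
    obtain ⟨n, hn1, hn2⟩ := exists_nat_pow_near hT1 (show (1 : ℝ) < 2 by norm_num)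
    set J := n + 1 with hJ
    have hJ1 : m * y ≤ 2 ^ J := hn2.le
    have hJ2 : (2 : ℝ) ^ J ≤ 2 * (m * y) := by
      rw [hJ, pow_succ]
      linarith
    obtain ⟨J0, hJ01, hJ02⟩ := exists_nat_pow_near hl2 (show (1 : ℝ) < 8 by norm_num)
    have h8J : (8 : ℝ) ^ J = (2 ^ J) ^ 3 := by
      rw [← pow_mul, mul_comm, pow_mul]
      norm_num
    have h8J1 : (8 : ℝ) ^ J ≤ 8 * m ^ 3 * y ^ 3 := by
      rw [h8J]
      calc ((2 : ℝ) ^ J) ^ 3 ≤ (2 * (m * y)) ^ 3 := by gcongr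
        _ = _ := by ring
    have h8J2 : s ≤ (8 : ℝ) ^ J := by
      rw [h8J]
      calc s = y ^ 3 * t := hy3.symm
        _ ≤ y ^ 3 * 1 := by gcongr
        _ = y ^ 3 := mul_one _
        _ ≤ (2 ^ J) ^ 3 := by
          apply pow_le_pow_left₀ hypos.le
          nlinarith
    have hJJ : J0 ≤ J := by
      have h1 : (8 : ℝ) ^ J0 ≤ 8 ^ J := by
        calc (8 : ℝ) ^ J0 ≤ ε * s := hJ01
          _ ≤ 1 * s := by gcongr
          _ = s := one_mul _
          _ ≤ _ := h8J2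
      exact (pow_le_pow_iff_right₀ (by norm_num)).mp h1
    set h := k0 / s with hh
    have hhpos : 0 < h := by positivity
    set D := A * h ^ 2 with hD
    have hDpos : 0 < D := by positivity
    have hDN : D = A * k0 ^ 2 / N := by
      rw [hD, hh, div_pow, hs2]
      ring
    have hat : b * t * 8 ^ J ≤ 8 * b * m ^ 3 * s := by
      calc b * t * 8 ^ J ≤ b * t * (8 * m ^ 3 * y ^ 3) := by gcongr
        _ = 8 * b * m ^ 3 * (y ^ 3 * t) := by ring
        _ = _ := by rw [hy3]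
    have hCC1 : 54 * (b * t) * 8 ^ (J - J0) ≤ C1 := by
      have h1 : (8 : ℝ) ^ (J - J0) * 8 ^ J0 = 8 ^ J := by
        rw [← pow_add]
        congr 1
        omega
      have h2 : ε * s / 8 ≤ 8 ^ J0 := by
        rw [pow_succ] at hJ02
        linarith
      have h3 : 54 * (b * t) * 8 ^ (J - J0) * (ε * s / 8) ≤ 54 * (8 * b * m ^ 3 * s) := by
        calc 54 * (b * t) * 8 ^ (J - J0) * (ε * s / 8) ≤
            54 * (b * t) * 8 ^ (J - J0) * 8 ^ J0 := by gcongr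
          _ = 54 * (b * t * 8 ^ J) := by rw [← h1]; ring
          _ ≤ _ := by gcongr
      rw [hC1, le_div_iff₀ hε0]
      have h4 : 54 * (b * t) * 8 ^ (J - J0) * ε * s ≤ 3456 * b * m ^ 3 * s := by
        linarith
      exact le_of_mul_le_mul_right h4 hspos
    have hCC2 : 162 * (b * t) * N * D ≤ 1 := by
      rw [hDN]
      refine le_trans (le_of_eq ?_) hl1
      rw [← ht]
      field_simp
    have hCC3 : 2592 * (b * t) * D * 8 ^ J * 8 ^ (J0 + 1) / 7 ≤ 1 / 2 := by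
      have h1 : (8 : ℝ) ^ (J0 + 1) ≤ 8 * (ε * s) := by
        rw [pow_succ]
        linarith
      calc 2592 * (b * t) * D * 8 ^ J * 8 ^ (J0 + 1) / 7 =
          2592 / 7 * D * (b * t * 8 ^ J) * 8 ^ (J0 + 1) := by ring
        _ ≤ 2592 / 7 * D * (8 * b * m ^ 3 * s) * (8 * (ε * s)) := by gcongr
        _ = 2592 * 64 / 7 * (b * m ^ 3) * ε * (D * s ^ 2) := by ring
        _ = 2592 * 64 / 7 * (A * k0 ^ 2 * b * m ^ 3) * ε := by
          rw [hDN, hs2]
          field_simp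
        _ ≤ c3 * ε := by
          gcongr
          rw [hc3]
          linarith
        _ = 1 / 2 := by
          rw [hε]
          field_simp
    have hρ : RW * (N : ℝ) ^ (-β) ≤ 2 ^ J * h := by
      rw [← hys]
      calc RW * (y / s) = (RW / k0) * y * (k0 / s) := by field_simp
        _ ≤ m * y * (k0 / s) := by gcongr
        _ ≤ 2 ^ J * h := by gcongr
    apply hfin (C1 * N) (by positivity) (by
      have : 0 ≤ (b * N0 + 1) * N := by positivity
      nlinarith)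
    exact int_bound hvm hv0 (v3s_symm hV s) (v3s_symm' hV s) (B := s ^ 2 * BV) (by positivity)
      (fun x y z => mul_le_mul_of_nonneg_left (hBV _ _) (sq_nonneg _)) hhpos hDpos
      (fun j => by
        have := hA s hspos j
        have e : A * 64 ^ j * (k0 / s) ^ 2 = D * 64 ^ j := by
          rw [hD, hh]
          ring
        rwa [e] at this) hJJ hρ (by positivity) hCC1 hCC2 hCC3 hψ1 hψ.supp

end Main

end Pool.Agent.H50.Bose
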