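import Pool.Agent.H50.Bose.Poincare

set_option autoImplicit false

namespace Pool.Agent.H50.Bose

open MeasureTheory Set

section Weighted

theorem sq_split (a b : ℂ) {ε : ℝ} (hε : 0 < ε) :
    ‖a‖ ^ 2 ≤ (1 + ε) * ‖b‖ ^ 2 + (1 + 1 / ε) * ‖a - b‖ ^ 2 := by
  have h1 : ‖a‖ ≤ ‖b‖ + ‖a - b‖ := by
    have := norm_add_le b (a - b)
    simpa using this
  have h2 : ‖a‖ ^ 2 ≤ (‖b‖ + ‖a - b‖) ^ 2 := pow_le_pow_left₀ (norm_nonneg _) h1 2
  have h3 : (1 + ε) * ‖b‖ ^ 2 + (1 + 1 / ε) * ‖a - b‖ ^ 2 - (‖b‖ + ‖a - b‖) ^ 2 =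
      (ε * ‖b‖ - ‖a - b‖) ^ 2 / ε := by
    field_simp
    ring
  have h4 : 0 ≤ (ε * ‖b‖ - ‖a - b‖) ^ 2 / ε := by positivity
  linarith

/-- Comparison of the mass of a function with its mass against a weight. -/
theorem weighted_bound {α : Type*} [MeasurableSpace α] (μ : Measure α) (s : Set α)
    (hs : MeasurableSet s) (u : α → ℂ) (hu : Measurable u) (ρ : α → ENNReal)
    (hρ : Measurable ρ) (B : ENNReal) (hBt : B ≠ ⊤) (hB : ∀ x ∈ s, ρ x ≤ B) {ε : ℝ}
    (hε : 0 < ε) :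
    (∫⁻ y in s, ρ y ∂μ) * ∫⁻ x in s, ENNReal.ofReal (‖u x‖ ^ 2) ∂μ ≤
      ENNReal.ofReal (1 + ε) * μ s * (∫⁻ y in s, ρ y * ENNReal.ofReal (‖u y‖ ^ 2) ∂μ) +
      ENNReal.ofReal (1 + 1 / ε) * B *
        ∫⁻ x in s, ∫⁻ y in s, ENNReal.ofReal (‖u x - u y‖ ^ 2) ∂μ ∂μ := by
  have e1 : (∫⁻ y in s, ρ y ∂μ) * ∫⁻ x in s, ENNReal.ofReal (‖u x‖ ^ 2) ∂μ =
      ∫⁻ x in s, ∫⁻ y in s, ρ y * ENNReal.ofReal (‖u x‖ ^ 2) ∂μ ∂μ := by
    have : ∀ x, ∫⁻ y in s, ρ y * ENNReal.ofReal (‖u x‖ ^ 2) ∂μ =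
        (∫⁻ y in s, ρ y ∂μ) * ENNReal.ofReal (‖u x‖ ^ 2) := by
      intro x
      rw [lintegral_mul_const _ hρ]
    simp_rw [this]
    rw [lintegral_const_mul]
    fun_prop
  rw [e1]
  calc ∫⁻ x in s, ∫⁻ y in s, ρ y * ENNReal.ofReal (‖u x‖ ^ 2) ∂μ ∂μ
      ≤ ∫⁻ x in s, ∫⁻ y in s, (ENNReal.ofReal (1 + ε) * (ρ y * ENNReal.ofReal (‖u y‖ ^ 2)) +
          ENNReal.ofReal (1 + 1 / ε) * B * ENNReal.ofReal (‖u x - u y‖ ^ 2)) ∂μ ∂μ := by
        apply setLIntegral_mono' hs
        intro x _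
        apply setLIntegral_mono' hs
        intro y hy
        have h1 : ENNReal.ofReal (‖u x‖ ^ 2) ≤ ENNReal.ofReal (1 + ε) *
            ENNReal.ofReal (‖u y‖ ^ 2) +
            ENNReal.ofReal (1 + 1 / ε) * ENNReal.ofReal (‖u x - u y‖ ^ 2) := by
          rw [← ENNReal.ofReal_mul (by positivity), ← ENNReal.ofReal_mul (by positivity),
            ← ENNReal.ofReal_add (by positivity) (by positivity)]
          exact ENNReal.ofReal_le_ofReal (sq_split _ _ hε)
        calc ρ y * ENNReal.ofReal (‖u x‖ ^ 2)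
            ≤ ρ y * (ENNReal.ofReal (1 + ε) * ENNReal.ofReal (‖u y‖ ^ 2) +
              ENNReal.ofReal (1 + 1 / ε) * ENNReal.ofReal (‖u x - u y‖ ^ 2)) := by gcongr
          _ = ENNReal.ofReal (1 + ε) * (ρ y * ENNReal.ofReal (‖u y‖ ^ 2)) +
              ENNReal.ofReal (1 + 1 / ε) * ρ y * ENNReal.ofReal (‖u x - u y‖ ^ 2) := by ring
          _ ≤ _ := by
              gcongr
              exact hB y hy
    _ = ∫⁻ x in s, (ENNReal.ofReal (1 + ε) * (∫⁻ y in s, ρ y * ENNReal.ofReal (‖u y‖ ^ 2) ∂μ) +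
          ENNReal.ofReal (1 + 1 / ε) * B *
            ∫⁻ y in s, ENNReal.ofReal (‖u x - u y‖ ^ 2) ∂μ) ∂μ := by
        apply lintegral_congr
        intro x
        rw [lintegral_add_left (by fun_prop), lintegral_const_mul _ (by fun_prop),
          lintegral_const_mul _ (by fun_prop)]
    _ ≤ _ := by
        rw [lintegral_add_left (by fun_prop), lintegral_const, Measure.restrict_apply_univ,
          lintegral_const_mul' _ _ (ENNReal.mul_ne_top ENNReal.ofReal_ne_top hBt)]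
        apply add_le_add
        · apply le_of_eq
          ring
        · exact le_refl _

end Weighted

section Boxes

/-- The half-open cube with corner `c` and side `r`. -/
def box (c : Fin 3 → ℝ) (r : ℝ) : Set (Fin 3 → ℝ) :=
  Set.pi Set.univ fun a => Set.Ico (c a) (c a + r)

/-- Configurations with all particles in a cube. -/
def boxI (ι : Type) (c : Fin 3 → ℝ) (r : ℝ) : Set (Cfg ι) :=
  Set.pi Set.univ fun _ => box c r

theorem mem_box {c : Fin 3 → ℝ} {r : ℝ} {x : Fin 3 → ℝ} :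
    x ∈ box c r ↔ ∀ a, c a ≤ x a ∧ x a < c a + r := by
  simp [box, Set.mem_pi]

theorem mem_boxI {ι : Type} {c : Fin 3 → ℝ} {r : ℝ} {X : Cfg ι} :
    X ∈ boxI ι c r ↔ ∀ i, X i ∈ box c r := by
  simp [boxI, Set.mem_pi]

theorem measurableSet_box (c : Fin 3 → ℝ) (r : ℝ) : MeasurableSet (box c r) :=
  MeasurableSet.pi Set.countable_univ fun _ _ => measurableSet_Ico

theorem measurableSet_boxI {ι : Type} [Fintype ι] (c : Fin 3 → ℝ) (r : ℝ) :
    MeasurableSet (boxI ι c r) :=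
  MeasurableSet.pi Set.countable_univ fun _ _ => measurableSet_box c r

theorem convex_box (c : Fin 3 → ℝ) (r : ℝ) : Convex ℝ (box c r) :=
  convex_pi fun _ _ => convex_Ico _ _

theorem convex_boxI {ι : Type} (c : Fin 3 → ℝ) (r : ℝ) : Convex ℝ (boxI ι c r) :=
  convex_pi fun _ _ => convex_box _ _

theorem volume_box (c : Fin 3 → ℝ) (r : ℝ) : volume (box c r) = ENNReal.ofReal r ^ 3 := by
  rw [box, volume_pi_pi]
  simp [Real.volume_Ico]

theorem volume_boxI {ι : Type} [Fintype ι] (c : Fin 3 → ℝ) (r : ℝ) :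
    volume (boxI ι c r) = (ENNReal.ofReal r ^ 3) ^ Fintype.card ι := by
  rw [boxI, volume_pi_pi]
  simp [volume_box]

theorem boxI_diff {ι : Type} {c : Fin 3 → ℝ} {r : ℝ} {X Y : Cfg ι} (hX : X ∈ boxI ι c r)
    (hY : Y ∈ boxI ι c r) (i : ι) (a : Fin 3) : |X i a - Y i a| ≤ r := by
  have h1 := mem_box.mp (mem_boxI.mp hX i) a
  have h2 := mem_box.mp (mem_boxI.mp hY i) a
  rw [abs_le]
  constructor <;> linarith [h1.1, h1.2, h2.1, h2.2]

/-- Corner of a child cube. -/
def corner (c : Fin 3 → ℝ) (L : ℝ) (δ : Fin 3 → Fin 2) : Fin 3 → ℝ :=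
  fun a => c a + L * ((δ a : ℕ) : ℝ)

theorem child_subset {ι : Type} {c : Fin 3 → ℝ} {L : ℝ} (hL : 0 < L) (δ : Fin 3 → Fin 2) :
    boxI ι (corner c L δ) L ⊆ boxI ι c (2 * L) := by
  intro X hX
  rw [mem_boxI] at *
  intro i
  rw [mem_box]
  intro a
  have h := mem_box.mp (hX i) a
  unfold corner at h
  have h2 : (((δ a : Fin 2) : ℕ) : ℝ) = 0 ∨ (((δ a : Fin 2) : ℕ) : ℝ) = 1 := by
    generalize δ a = d
    fin_cases d <;> simp
  rcases h2 with h2 | h2 <;> rw [h2] at h <;> constructor <;> linarith [h.1, h.2]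

theorem child_disjoint {ι : Type} [Nonempty ι] {c : Fin 3 → ℝ} {L : ℝ} (hL : 0 < L) :
    Pairwise (fun δ δ' : Fin 3 → Fin 2 =>
      Disjoint (boxI ι (corner c L δ) L) (boxI ι (corner c L δ') L)) := by
  intro δ δ' hne
  rw [Set.disjoint_left]
  intro X hX hX'
  apply hne
  funext a
  obtain ⟨i⟩ := ‹Nonempty ι›
  have h := mem_box.mp (mem_boxI.mp hX i) a
  have h' := mem_box.mp (mem_boxI.mp hX' i) a
  unfold corner at h h'
  revert h h'
  generalize δ a = d
  generalize δ' a = d'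
  intro h h'
  fin_cases d <;> fin_cases d' <;> simp at h h' ⊢ <;> linarith [h.1, h.2, h'.1, h'.2]

theorem volume_boxI_three {ι : Type} [Fintype ι] (hι : Fintype.card ι = 3)
    (c : Fin 3 → ℝ) {r : ℝ} (hr : 0 ≤ r) : volume (boxI ι c r) = ENNReal.ofReal (r ^ 9) := by
  rw [volume_boxI, hι, ← ENNReal.ofReal_pow hr, ← ENNReal.ofReal_pow (by positivity), ← pow_mul]

end Boxes

section Induction

variable {ι : Type} [Fintype ι] [DecidableEq ι]

/-- One doubling step. -/
theorem doubling (hι : Fintype.card ι = 3) {u : Cfg ι → ℂ} (hu : ContDiff ℝ 1 u)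
    (c : Fin 3 → ℝ) {L : ℝ} (hL : 0 < L) {ε : ℝ} (hε : 0 < ε) :
    ∫⁻ X in boxI ι c (2 * L), ENNReal.ofReal (‖u X‖ ^ 2) ≤
      ENNReal.ofReal (64 * (1 + ε)) * (∑ δ : Fin 3 → Fin 2,
        ∫⁻ X in boxI ι (corner c L δ) L, ENNReal.ofReal (‖u X‖ ^ 2)) +
      ENNReal.ofReal ((1 + 1 / ε) * 294912 * (2 * L) ^ 2) *
        ∫⁻ X in boxI ι c (2 * L), ENNReal.ofReal (grad2 u X) := by
  haveI : Nonempty ι := Fintype.card_pos_iff.mp (by omega)
  set C := boxI ι c (2 * L) with hC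
  set Δ : Set (Cfg ι) := ⋃ δ : Fin 3 → Fin 2, boxI ι (corner c L δ) L with hΔ
  have hΔm : MeasurableSet Δ := MeasurableSet.iUnion fun δ => measurableSet_boxI _ _
  have hCm : MeasurableSet C := measurableSet_boxI _ _
  have hΔC : Δ ⊆ C := Set.iUnion_subset fun δ => child_subset hL δ
  have hum : Measurable u := hu.continuous.measurable
  -- the weight
  set ρ : Cfg ι → ENNReal := Δ.indicator 1 with hρ
  have hρm : Measurable ρ := measurable_one.indicator hΔm
  have hρ1 : ∀ x ∈ C, ρ x ≤ 1 := fun x _ => Set.indicator_le_self' (by simp) x |>.trans (by simp)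
  have hint : ∀ f : Cfg ι → ENNReal, Measurable f →
      ∫⁻ X in C, ρ X * f X = ∑ δ : Fin 3 → Fin 2, ∫⁻ X in boxI ι (corner c L δ) L, f X := by
    intro f hf
    have e1 : ∀ X, ρ X * f X = Δ.indicator f X := by
      intro X
      by_cases h : X ∈ Δ
      · simp [hρ, h]
      · simp [hρ, h]
    simp_rw [e1]
    rw [lintegral_indicator hΔm, Measure.restrict_restrict hΔm, Set.inter_eq_left.mpr hΔC, hΔ,
      lintegral_iUnion (fun δ => measurableSet_boxI _ _) (child_disjoint hL), tsum_fintype]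
  have hM : ∫⁻ X in C, ρ X = ENNReal.ofReal (8 * L ^ 9) := by
    have := hint (fun _ => 1) measurable_const
    simp only [mul_one, lintegral_const, Measure.restrict_apply_univ, one_mul] at this
    rw [this]
    simp_rw [volume_boxI_three hι _ hL.le]
    rw [Finset.sum_const, Finset.card_univ]
    simp only [Fintype.card_pi, Fintype.card_fin, Finset.prod_const, Finset.card_univ]
    rw [nsmul_eq_mul, ENNReal.ofReal_mul (by norm_num)]
    norm_num
  have hvol : volume C = ENNReal.ofReal (512 * L ^ 9) := by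
    rw [hC, volume_boxI_three hι _ (by linarith)]
    congr 1
    ring
  have h1 := weighted_bound volume C hCm u hum ρ hρm 1 (by simp) hρ1 hε
  have h2 := poincare_double (convex_boxI c (2 * L)) hCm (2 * L)
    (fun X hX Y hY i a => boxI_diff hX hY i a) hu
  rw [← hC, hvol, hι] at h2
  rw [hM, hvol, hint _ (by fun_prop)] at h1
  set S := ∫⁻ X in C, ENNReal.ofReal (‖u X‖ ^ 2) with hS
  set S1 := ∑ δ : Fin 3 → Fin 2,
    ∫⁻ X in boxI ι (corner c L δ) L, ENNReal.ofReal (‖u X‖ ^ 2) with hS1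
  set D := ∫⁻ X in C, ENNReal.ofReal (grad2 u X) with hD
  have h3 : ENNReal.ofReal (8 * L ^ 9) * S ≤ ENNReal.ofReal (8 * L ^ 9) *
      (ENNReal.ofReal (64 * (1 + ε)) * S1 +
        ENNReal.ofReal ((1 + 1 / ε) * 294912 * (2 * L) ^ 2) * D) := by
    refine h1.trans ?_
    rw [mul_add, ← mul_assoc, ← mul_assoc, ← ENNReal.ofReal_mul (by positivity),
      ← ENNReal.ofReal_mul (by positivity), ← ENNReal.ofReal_mul (by positivity)]
    apply add_le_add
    · apply le_of_eq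
      congr 2
      ring
    · calc _ ≤ ENNReal.ofReal (1 + 1 / ε) * 1 * (ENNReal.ofReal (3 * ((3 : ℕ) : ℝ) * (2 * L) ^ 2 * 2 ^ (3 * 3)) *
          ENNReal.ofReal (512 * L ^ 9) * D) := by gcongr
        _ = _ := by
          rw [mul_one, ← mul_assoc, ← mul_assoc, ← ENNReal.ofReal_mul (by positivity),
            ← ENNReal.ofReal_mul (by positivity)]
          congr 2
          push_cast
          ring
  have h8 : ENNReal.ofReal (8 * L ^ 9) ≠ 0 := by
    rw [Ne, ENNReal.ofReal_eq_zero, not_le]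
    positivity
  exact (ENNReal.mul_le_mul_iff_right h8 ENNReal.ofReal_ne_top).mp h3

/-- The energy density of a function for a potential. -/
noncomputable def dens (P : Cfg ι → ENNReal) (u : Cfg ι → ℂ) (X : Cfg ι) : ENNReal :=
  ENNReal.ofReal (grad2 u X) + P X * ENNReal.ofReal (‖u X‖ ^ 2)

theorem step_real {A K s : ℝ} (hK : 0 ≤ K) (hKA : K ≤ A) (hs : 0 < s) (hs1 : s ≤ 1 / 2) :
    (1 + s ^ 2) * (A * (4 - 6 * s)) + K * (1 + s ^ 2) * s ^ 2 ≤ A * (4 - 3 * s) := by
  have hA : 0 ≤ A := hK.trans hKA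
  have h1 : K * (1 + s ^ 2) * s ^ 2 ≤ A * (2 * s ^ 2) := by
    have h0 : s ^ 2 ≤ 1 := by nlinarith
    have : (1 + s ^ 2) * s ^ 2 ≤ 2 * s ^ 2 :=
      mul_le_mul_of_nonneg_right (by linarith) (sq_nonneg s)
    calc K * (1 + s ^ 2) * s ^ 2 = K * ((1 + s ^ 2) * s ^ 2) := by ring
      _ ≤ A * (2 * s ^ 2) := mul_le_mul hKA this (by positivity) hA
  have h2 : (1 + s ^ 2) * (4 - 6 * s) + 2 * s ^ 2 ≤ 4 - 3 * s := by
    nlinarith [sq_nonneg (s - 1 / 2), mul_pos hs hs]
  have h3 := mul_le_mul_of_nonneg_left h2 hA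
  nlinarith

theorem level_bound (hι : Fintype.card ι = 3) {u : Cfg ι → ℂ} (hu : ContDiff ℝ 1 u)
    (P : Cfg ι → ENNReal) {h A : ℝ} (hh : 0 < h) (hA : 294912 ≤ A)
    (h0 : ∀ c, ∫⁻ X in boxI ι c h, ENNReal.ofReal (‖u X‖ ^ 2) ≤
      ENNReal.ofReal (A * h ^ 2) * ∫⁻ X in boxI ι c h, dens P u X) (j : ℕ) :
    ∀ c, ∫⁻ X in boxI ι c (2 ^ j * h), ENNReal.ofReal (‖u X‖ ^ 2) ≤
      ENNReal.ofReal (A * (4 - 3 / 2 ^ j) * 64 ^ j * h ^ 2) *
        ∫⁻ X in boxI ι c (2 ^ j * h), dens P u X := by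
  haveI : Nonempty ι := Fintype.card_pos_iff.mp (by omega)
  induction j with
  | zero =>
    intro c
    have := h0 c
    norm_num at this ⊢
    exact this
  | succ j ih =>
    intro c
    have e2 : (2 : ℝ) ^ (j + 1) * h = 2 * (2 ^ j * h) := by ring
    rw [e2]
    set L := 2 ^ j * h with hL
    have hLpos : 0 < L := by positivity
    set s : ℝ := 1 / 2 ^ (j + 1) with hs
    have hspos : 0 < s := by positivity
    have hs1 : s ≤ 1 / 2 := by
      rw [hs]
      apply one_div_le_one_div_of_le (by norm_num)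
      calc (2 : ℝ) = 2 ^ 1 := by norm_num
        _ ≤ 2 ^ (j + 1) := pow_le_pow_right₀ (by norm_num) (by omega)
    have h1 := doubling hι hu c hLpos (ε := s ^ 2) (by positivity)
    have h2 : ∑ δ : Fin 3 → Fin 2, ∫⁻ X in boxI ι (corner c L δ) L, ENNReal.ofReal (‖u X‖ ^ 2) ≤
        ENNReal.ofReal (A * (4 - 3 / 2 ^ j) * 64 ^ j * h ^ 2) *
          ∫⁻ X in boxI ι c (2 * L), dens P u X := by
      calc _ ≤ ∑ δ : Fin 3 → Fin 2, ENNReal.ofReal (A * (4 - 3 / 2 ^ j) * 64 ^ j * h ^ 2) *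
            ∫⁻ X in boxI ι (corner c L δ) L, dens P u X :=
            Finset.sum_le_sum fun δ _ => ih _
        _ = ENNReal.ofReal (A * (4 - 3 / 2 ^ j) * 64 ^ j * h ^ 2) *
            ∫⁻ X in ⋃ δ : Fin 3 → Fin 2, boxI ι (corner c L δ) L, dens P u X := by
            rw [← Finset.mul_sum, lintegral_iUnion (fun δ => measurableSet_boxI _ _)
              (child_disjoint hLpos), tsum_fintype]
        _ ≤ _ := by
            gcongr
            exact Set.iUnion_subset fun δ => child_subset hLpos δ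
    have h3 : ∫⁻ X in boxI ι c (2 * L), ENNReal.ofReal (grad2 u X) ≤
        ∫⁻ X in boxI ι c (2 * L), dens P u X := by
      apply lintegral_mono
      intro X
      exact le_self_add
    have hc1 : 0 ≤ 4 - 3 / (2 : ℝ) ^ j := by
      have : (1 : ℝ) ≤ 2 ^ j := one_le_pow₀ (by norm_num)
      have : 3 / (2 : ℝ) ^ j ≤ 3 := by
        rw [div_le_iff₀ (by positivity)]
        linarith
      linarith
    have hA0 : 0 ≤ A := by linarith
    calc _ ≤ _ := h1
      _ ≤ ENNReal.ofReal (64 * (1 + s ^ 2)) *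
          (ENNReal.ofReal (A * (4 - 3 / 2 ^ j) * 64 ^ j * h ^ 2) *
          ∫⁻ X in boxI ι c (2 * L), dens P u X) +
          ENNReal.ofReal ((1 + 1 / s ^ 2) * 294912 * (2 * L) ^ 2) *
            ∫⁻ X in boxI ι c (2 * L), dens P u X := by gcongr
      _ = ENNReal.ofReal (64 * (1 + s ^ 2) * (A * (4 - 3 / 2 ^ j) * 64 ^ j * h ^ 2) +
          (1 + 1 / s ^ 2) * 294912 * (2 * L) ^ 2) *
            ∫⁻ X in boxI ι c (2 * L), dens P u X := by
          rw [← mul_assoc, ← ENNReal.ofReal_mul (by positivity), ← add_mul,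
            ← ENNReal.ofReal_add (by positivity) (by positivity)]
      _ ≤ _ := by
          gcongr
          have h4 := step_real (A := A) (K := 294912) (by norm_num) hA hspos hs1
          have h5 : 3 / (2 : ℝ) ^ j = 6 * s := by
            rw [hs, pow_succ]
            field_simp
            norm_num
          have h6 : 3 / (2 : ℝ) ^ (j + 1) = 3 * s := by
            rw [hs]
            ring
          have h7 : (64 : ℝ) ^ (j + 1) * s ^ 6 = 1 := by
            rw [hs, one_div, inv_pow, ← pow_mul, mul_comm (j + 1) 6, pow_mul]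
            norm_num
          have h8 : (2 * L) ^ 2 = h ^ 2 * 64 ^ (j + 1) * s ^ 4 := by
            have : (2 * L) * s = h := by
              rw [hL, hs, pow_succ]
              field_simp
            have h9 : (2 * L) ^ 2 * s ^ 2 = h ^ 2 := by rw [← mul_pow, this]
            calc (2 * L) ^ 2 = (2 * L) ^ 2 * (64 ^ (j + 1) * s ^ 6) := by rw [h7, mul_one]
              _ = ((2 * L) ^ 2 * s ^ 2) * 64 ^ (j + 1) * s ^ 4 := by ring
              _ = _ := by rw [h9]
          rw [h5, h6, h8]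
          have h9 : (1 + 1 / s ^ 2) * 294912 * (h ^ 2 * 64 ^ (j + 1) * s ^ 4) =
              h ^ 2 * 64 ^ (j + 1) * (294912 * (1 + s ^ 2) * s ^ 2) := by
            field_simp
            ring
          rw [h9]
          have h10 : 64 * (1 + s ^ 2) * (A * (4 - 6 * s) * 64 ^ j * h ^ 2) =
              h ^ 2 * 64 ^ (j + 1) * ((1 + s ^ 2) * (A * (4 - 6 * s))) := by
            rw [pow_succ]
            ring
          rw [h10, ← mul_add]
          calc _ ≤ h ^ 2 * 64 ^ (j + 1) * (A * (4 - 3 * s)) :=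
                mul_le_mul_of_nonneg_left h4 (by positivity)
            _ = _ := by ring

/-- The bound on the smallest cubes. -/
theorem level_zero (hι : Fintype.card ι = 3) {u : Cfg ι → ℂ} (hu : ContDiff ℝ 1 u)
    (P : Cfg ι → ENNReal) (hP : Measurable P) {h B m : ℝ} (hh : 0 < h) (hB : 0 ≤ B) (hm : 0 < m)
    (hPB : ∀ X, P X ≤ ENNReal.ofReal (B / h ^ 2)) (c : Fin 3 → ℝ)
    (hPm : ENNReal.ofReal (m * h ^ 7) ≤ ∫⁻ X in boxI ι c h, P X) :
    ∫⁻ X in boxI ι c h, ENNReal.ofReal (‖u X‖ ^ 2) ≤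
      ENNReal.ofReal ((2 + 9216 * B) / m * h ^ 2) * ∫⁻ X in boxI ι c h, dens P u X := by
  set C := boxI ι c h with hC
  have hCm : MeasurableSet C := measurableSet_boxI _ _
  have hum : Measurable u := hu.continuous.measurable
  have h1 := weighted_bound volume C hCm u hum P hP _ ENNReal.ofReal_ne_top (fun X _ => hPB X)
    one_pos
  have h2 := poincare_double (convex_boxI c h) hCm h
    (fun X hX Y hY i a => boxI_diff hX hY i a) hu
  rw [← hC, volume_boxI_three hι _ hh.le, hι] at h2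
  rw [volume_boxI_three hι _ hh.le] at h1
  set S := ∫⁻ X in C, ENNReal.ofReal (‖u X‖ ^ 2) with hS
  set S1 := ∫⁻ X in C, P X * ENNReal.ofReal (‖u X‖ ^ 2) with hS1
  set D := ∫⁻ X in C, ENNReal.ofReal (grad2 u X) with hD
  have hE : ∫⁻ X in C, dens P u X = D + S1 := by
    unfold dens
    rw [lintegral_add_right _ (by fun_prop)]
  have h3 : ENNReal.ofReal (m * h ^ 7) * S ≤ ENNReal.ofReal (m * h ^ 7) *
      (ENNReal.ofReal ((2 + 9216 * B) / m * h ^ 2) * ∫⁻ X in C, dens P u X) := by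
    calc ENNReal.ofReal (m * h ^ 7) * S ≤ (∫⁻ X in C, P X) * S := by gcongr
      _ ≤ _ := h1
      _ ≤ ENNReal.ofReal (1 + 1) * ENNReal.ofReal (h ^ 9) * S1 +
          ENNReal.ofReal (1 + 1 / 1) * ENNReal.ofReal (B / h ^ 2) *
          (ENNReal.ofReal (3 * ((3 : ℕ) : ℝ) * h ^ 2 * 2 ^ (3 * 3)) *
          ENNReal.ofReal (h ^ 9) * D) := by gcongr
      _ = ENNReal.ofReal (2 * h ^ 9) * S1 + ENNReal.ofReal (9216 * B * h ^ 9) * D := by
          rw [← mul_assoc, ← mul_assoc, ← ENNReal.ofReal_mul (by positivity),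
            ← ENNReal.ofReal_mul (by positivity), ← ENNReal.ofReal_mul (by positivity),
            ← ENNReal.ofReal_mul (by positivity)]
          have e3 : (1 + 1 : ℝ) * h ^ 9 = 2 * h ^ 9 := by norm_num
          have e4 : (1 + 1 / 1 : ℝ) * (B / h ^ 2) *
              (3 * ((3 : ℕ) : ℝ) * h ^ 2 * 2 ^ (3 * 3) * h ^ 9) = 9216 * B * h ^ 9 := by
            push_cast
            field_simp
            ring
          rw [e3]
          congr 2
          rw [← e4]
          congr 1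
          ring
      _ ≤ ENNReal.ofReal ((2 + 9216 * B) * h ^ 9) * S1 +
          ENNReal.ofReal ((2 + 9216 * B) * h ^ 9) * D := by
          have h9 : 0 ≤ h ^ 9 := by positivity
          gcongr
          · nlinarith
          · nlinarith
      _ = _ := by
          have e5 : m * h ^ 7 * ((2 + 9216 * B) / m * h ^ 2) = (2 + 9216 * B) * h ^ 9 := by
            field_simp
          rw [hE, ← mul_assoc, ← ENNReal.ofReal_mul (by positivity), ← mul_add, add_comm D S1, e5]
  have h8 : ENNReal.ofReal (m * h ^ 7) ≠ 0 := by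
    rw [Ne, ENNReal.ofReal_eq_zero, not_le]
    positivity
  exact (ENNReal.mul_le_mul_iff_right h8 ENNReal.ofReal_ne_top).mp h3

end Induction

end Pool.Agent.H50.Bose
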