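import Pool.Agent.H50.Bose.Defs
import Pool.Agent.H50.Bose.Integ

set_option autoImplicit false

namespace Pool.Agent.H50.Bose

open MeasureTheory Set

section Potentials

/-- Sum of the squares of the three side lengths. -/
def quad (x y : Fin 3 → ℝ) : ℝ := ∑ a, (x a ^ 2 + y a ^ 2 + (x a - y a) ^ 2)

open Classical in
/-- A three-body potential that vanishes when the three particles are close. -/
noncomputable def V0 (x y : Fin 3 → ℝ) : ℝ := if 1 ≤ quad x y ∧ quad x y ≤ 2 then 1 else 0

open Classical in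
/-- A square well. -/
noncomputable def W0 (w : ℝ) (x : Fin 3 → ℝ) : ℝ := if ∀ a, |x a| ≤ 1 then -w else 0

theorem continuous_quad : Continuous fun p : (Fin 3 → ℝ) × (Fin 3 → ℝ) => quad p.1 p.2 := by
  unfold quad
  fun_prop

theorem quad_zero_lt {x y : Fin 3 → ℝ} (h : ∀ a, |x a| ≤ 2 / 7 ∧ |y a| ≤ 2 / 7 ∧
    |x a - y a| ≤ 2 / 7) : quad x y < 1 := by
  have h1 : ∀ a, x a ^ 2 + y a ^ 2 + (x a - y a) ^ 2 ≤ 12 / 49 := by
    intro a
    obtain ⟨h1, h2, h3⟩ := h a
    have e1 := sq_le_sq' (abs_le.mp h1).1 (abs_le.mp h1).2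
    have e2 := sq_le_sq' (abs_le.mp h2).1 (abs_le.mp h2).2
    have e3 := sq_le_sq' (abs_le.mp h3).1 (abs_le.mp h3).2
    norm_num at e1 e2 e3
    linarith
  unfold quad
  calc _ ≤ ∑ _a : Fin 3, (12 / 49 : ℝ) := Finset.sum_le_sum fun a _ => h1 a
    _ < 1 := by
      simp
      norm_num

theorem isThreeBody_V0 : IsThreeBody V0 where
  measurable := by
    unfold V0
    apply Measurable.ite _ measurable_const measurable_const
    exact (measurableSet_le measurable_const continuous_quad.measurable).inter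
      (measurableSet_le continuous_quad.measurable measurable_const)
  nonneg := by
    intro x y
    unfold V0
    split_ifs <;> norm_num
  bdd := ⟨1, by
    intro x y
    unfold V0
    split_ifs <;> norm_num⟩
  supp := by
    apply HasCompactSupport.intro (isCompact_closedBall (0 : (Fin 3 → ℝ) × (Fin 3 → ℝ)) 2)
    rintro ⟨x, y⟩ hxy
    by_contra hne
    apply hxy
    have h1 : quad x y ≤ 2 := by
      by_contra h2
      apply hne
      show V0 x y = 0
      unfold V0
      rw [if_neg (fun h => h2 h.2)]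
    have h2 : ∀ a, x a ^ 2 + y a ^ 2 ≤ 2 := by
      intro a
      have h3 : x a ^ 2 + y a ^ 2 + (x a - y a) ^ 2 ≤ quad x y :=
        Finset.single_le_sum (f := fun a => x a ^ 2 + y a ^ 2 + (x a - y a) ^ 2)
          (fun a _ => by positivity) (Finset.mem_univ a)
      have := sq_nonneg (x a - y a)
      linarith
    rw [mem_closedBall_zero_iff, Prod.norm_def, sup_le_iff, pi_norm_le_iff_of_nonneg (by norm_num),
      pi_norm_le_iff_of_nonneg (by norm_num)]
    constructor
    · intro a
      rw [Real.norm_eq_abs]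
      apply abs_le_of_sq_le_sq _ (by norm_num)
      have := h2 a
      have := sq_nonneg (y a)
      linarith
    · intro a
      rw [Real.norm_eq_abs]
      apply abs_le_of_sq_le_sq _ (by norm_num)
      have := h2 a
      have := sq_nonneg (x a)
      linarith
  ne_zero := by
    intro h
    set O : Set ((Fin 3 → ℝ) × (Fin 3 → ℝ)) := {p | 1 < quad p.1 p.2 ∧ quad p.1 p.2 < 2} with hO
    have hopen : IsOpen O := (isOpen_lt continuous_const continuous_quad).inter
      (isOpen_lt continuous_quad continuous_const)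
    have hne : O.Nonempty := by
      refine ⟨(fun _ => 1 / 2, 0), ?_⟩
      simp only [hO, Set.mem_setOf_eq, quad, Pi.zero_apply, Finset.sum_const, Finset.card_univ,
        Fintype.card_fin]
      norm_num
    have h1 : volume O ≠ 0 := (hopen.measure_pos volume hne).ne'
    apply h1
    rw [ae_iff] at h
    refine measure_mono_null ?_ h
    intro p hp
    simp only [Set.mem_setOf_eq]
    unfold V0
    rw [if_pos ⟨hp.1.le, hp.2.le⟩]
    norm_num
  symm := by
    intro x y
    have : quad x y = quad y x := by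
      unfold quad
      apply Finset.sum_congr rfl
      intro a _
      ring
    unfold V0
    rw [this]
  perm := by
    intro x y z
    have h1 : quad (x - y) (x - z) = quad (y - x) (y - z) := by
      unfold quad
      apply Finset.sum_congr rfl
      intro a _
      simp only [Pi.sub_apply]
      ring
    have h2 : quad (y - x) (y - z) = quad (z - y) (z - x) := by
      unfold quad
      apply Finset.sum_congr rfl
      intro a _
      simp only [Pi.sub_apply]
      ring
    unfold V0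
    rw [h1, h2]
    exact ⟨rfl, rfl⟩

theorem isPair_W0 {w : ℝ} (hw : 0 ≤ w) : IsPair (W0 w) where
  measurable := by
    unfold W0
    apply Measurable.ite _ measurable_const measurable_const
    rw [Set.ofPred_forall]
    apply MeasurableSet.iInter
    intro a
    apply measurableSet_le
    · fun_prop
    · exact measurable_const
  nonpos := by
    intro x
    unfold W0
    split_ifs <;> linarith
  even := by
    intro x
    unfold W0
    simp only [Pi.neg_apply, abs_neg]
  bdd := ⟨w, by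
    intro x
    unfold W0
    split_ifs
    · rw [abs_neg, abs_of_nonneg hw]
    · simpa using hw⟩
  supp := by
    apply HasCompactSupport.intro (isCompact_closedBall (0 : Fin 3 → ℝ) 1)
    intro x hx
    unfold W0
    rw [if_neg]
    intro h
    apply hx
    rw [mem_closedBall_zero_iff, pi_norm_le_iff_of_nonneg (by norm_num)]
    intro a
    rw [Real.norm_eq_abs]
    exact h a

end Potentials

section Product

variable {N : ℕ}

/-- Integral of a product over all coordinates. -/
theorem integral_coord_prod (G : Fin N × Fin 3 → ℝ → ℝ) :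
    ∫ X : Fin N → Fin 3 → ℝ, ∏ p : Fin N × Fin 3, G p (X p.1 p.2) =
      ∏ p : Fin N × Fin 3, ∫ x, G p x := by
  simp_rw [Fintype.prod_prod_type]
  have h1 := integral_fintype_prod_eq_prod (𝕜 := ℝ) (ι := Fin N) (E := fun _ => Fin 3 → ℝ)
    (fun i x => ∏ a, G (i, a) (x a)) (μ := fun _ => volume)
  rw [← volume_pi] at h1
  rw [h1]
  apply Finset.prod_congr rfl
  intro i _
  have h2 := integral_fintype_prod_eq_prod (𝕜 := ℝ) (ι := Fin 3) (E := fun _ => ℝ)
    (fun a x => G (i, a) x) (μ := fun _ => volume)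
  rw [← volume_pi] at h2
  exact h2

end Product

section Trial

/-- A smooth bump on the line supported in the unit interval around zero. -/
noncomputable def bump : ContDiffBump (0 : ℝ) := ⟨1 / 2, 1, by norm_num, by norm_num⟩

theorem bump_contDiff : ContDiff ℝ ((⊤ : ℕ∞) : WithTop ℕ∞) (fun x : ℝ => bump x) :=
  bump.contDiff

theorem bump_zero : bump 0 = 1 := by
  apply bump.one_of_mem_closedBall
  simp [bump]

theorem bump_supp {x : ℝ} (h : bump x ≠ 0) : |x| ≤ 1 := by
  have h1 : x ∈ Function.support bump := h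
  rw [bump.support_eq, mem_ball_zero_iff, Real.norm_eq_abs] at h1
  exact h1.le

theorem bump_hasDerivAt (x : ℝ) : HasDerivAt (fun x : ℝ => bump x) (deriv (fun x => bump x) x) x :=
  ((bump_contDiff.differentiable (by simp)) x).hasDerivAt

/-- The mass of the bump. -/
noncomputable def massB : ℝ := ∫ x : ℝ, bump x ^ 2

/-- The kinetic energy of the bump. -/
noncomputable def kinB : ℝ := ∫ x : ℝ, (deriv (fun x : ℝ => bump x) x) ^ 2

theorem massB_pos : 0 < massB := by
  unfold massB
  apply Continuous.integral_pos_of_hasCompactSupport_nonneg_nonzero (x := 0)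
  · exact bump.continuous.pow 2
  · have : (fun x : ℝ => bump x ^ 2) = (fun y : ℝ => y ^ 2) ∘ (fun x : ℝ => bump x) := rfl
    rw [this]
    exact bump.hasCompactSupport.comp_left (by simp)
  · intro x
    exact sq_nonneg _
  · rw [bump_zero]
    norm_num

theorem kinB_nonneg : 0 ≤ kinB := integral_nonneg fun _ => sq_nonneg _

variable {N : ℕ}

/-- The trial function: all particles in a small cube. -/
noncomputable def trial (N : ℕ) (L : ℝ) (X : Fin N → Fin 3 → ℝ) : ℂ :=
  ((∏ p : Fin N × Fin 3, bump (L * X p.1 p.2) : ℝ) : ℂ)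

theorem trial_contDiff (L : ℝ) : ContDiff ℝ ((⊤ : ℕ∞) : WithTop ℕ∞) (trial N L) := by
  unfold trial
  apply Complex.ofRealCLM.contDiff.comp
  apply contDiff_prod
  intro p _
  apply bump_contDiff.comp
  fun_prop

theorem trial_supp {L : ℝ} (hL : 0 < L) {X : Fin N → Fin 3 → ℝ} (h : trial N L X ≠ 0) (i : Fin N)
    (a : Fin 3) : |X i a| ≤ 1 / L := by
  unfold trial at h
  rw [Ne, Complex.ofReal_eq_zero, Finset.prod_eq_zero_iff] at h
  have h1 : bump (L * X i a) ≠ 0 := fun h2 => h ⟨(i, a), Finset.mem_univ _, h2⟩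
  have h2 := bump_supp h1
  rw [abs_mul, abs_of_pos hL] at h2
  rw [le_div_iff₀ hL]
  linarith

theorem isTest_trial {L : ℝ} (hL : 0 < L) : IsTest N (trial N L) where
  smooth := trial_contDiff L
  supp := by
    apply HasCompactSupport.intro (isCompact_closedBall (0 : Fin N → Fin 3 → ℝ) (1 / L))
    intro X hX
    by_contra h
    apply hX
    rw [mem_closedBall_zero_iff, pi_norm_le_iff_of_nonneg (by positivity)]
    intro i
    rw [pi_norm_le_iff_of_nonneg (by positivity)]
    intro a
    rw [Real.norm_eq_abs]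
    exact trial_supp hL h i a
  symm := by
    intro σ X
    unfold trial
    congr 1
    exact Equiv.prod_comp (σ.prodCongr (Equiv.refl (Fin 3))) (fun p : Fin N × Fin 3 =>
      bump (L * X p.1 p.2))

theorem trial_fderiv (L : ℝ) (X : Fin N → Fin 3 → ℝ) (p : Fin N × Fin 3) :
    fderiv ℝ (trial N L) X (Pi.single p.1 (Pi.single p.2 1)) =
      (((∏ q ∈ Finset.univ.erase p, bump (L * X q.1 q.2)) *
        (deriv (fun x : ℝ => bump x) (L * X p.1 p.2) * L) : ℝ) : ℂ) := by
  have h1 : ∀ q : Fin N × Fin 3, HasFDerivAt (fun X : Fin N → Fin 3 → ℝ => bump (L * X q.1 q.2))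
      ((deriv (fun x : ℝ => bump x) (L * X q.1 q.2) * L) •
        ((ContinuousLinearMap.proj (R := ℝ) (φ := fun _ : Fin 3 => ℝ) q.2).comp
          (ContinuousLinearMap.proj (R := ℝ) (φ := fun _ : Fin N => Fin 3 → ℝ) q.1))) X := by
    intro q
    set P := (ContinuousLinearMap.proj (R := ℝ) (φ := fun _ : Fin 3 => ℝ) q.2).comp
          (ContinuousLinearMap.proj (R := ℝ) (φ := fun _ : Fin N => Fin 3 → ℝ) q.1) with hP
    have e : ∀ X : Fin N → Fin 3 → ℝ, X q.1 q.2 = P X := fun X => rfl
    have h2 : HasFDerivAt (fun X : Fin N → Fin 3 → ℝ => L * X q.1 q.2) (L • P) X := by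
      simp_rw [e]
      exact P.hasFDerivAt.const_mul L
    have h3 := (bump_hasDerivAt (L * X q.1 q.2)).comp_hasFDerivAt X h2
    rw [mul_smul]
    exact h3
  have h2 := HasFDerivAt.finsetProd (u := Finset.univ) (fun q _ => h1 q)
  have h3 : HasFDerivAt (trial N L) _ X := Complex.ofRealCLM.hasFDerivAt.comp X h2
  rw [h3.fderiv]
  simp only [ContinuousLinearMap.comp_apply, ContinuousLinearMap.sum_apply,
    ContinuousLinearMap.smul_apply, ContinuousLinearMap.proj_apply, Complex.ofRealCLM_apply,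
    smul_eq_mul]
  congr 1
  rw [Finset.sum_eq_single p]
  · simp
  · intro q _ hqp
    have : (Pi.single p.1 (Pi.single p.2 (1 : ℝ)) : Fin N → Fin 3 → ℝ) q.1 q.2 = 0 := by
      by_cases h4 : q.1 = p.1
      · have h5 : q.2 ≠ p.2 := fun h5 => hqp (Prod.ext h4 h5)
        rw [h4, Pi.single_eq_same, Pi.single_eq_of_ne h5]
      · rw [Pi.single_eq_of_ne h4]
        rfl
    rw [this]
    ring
  · simp

theorem integral_scale (f : ℝ → ℝ) {L : ℝ} (hL : 0 < L) :
    ∫ x, f (L * x) = L⁻¹ * ∫ x, f x := by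
  rw [Measure.integral_comp_mul_left, abs_of_pos (by positivity), smul_eq_mul]

theorem trial_mass {L : ℝ} (hL : 0 < L) :
    ∫ X, ‖trial N L X‖ ^ 2 = ∏ _p : Fin N × Fin 3, (L⁻¹ * massB) := by
  have h1 : ∀ X, ‖trial N L X‖ ^ 2 = ∏ p : Fin N × Fin 3, bump (L * X p.1 p.2) ^ 2 := by
    intro X
    unfold trial
    rw [Complex.norm_real, Real.norm_eq_abs, sq_abs, Finset.prod_pow]
  simp_rw [h1]
  rw [integral_coord_prod (fun _ x => bump (L * x) ^ 2)]
  apply Finset.prod_congr rfl
  intro p _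
  rw [integral_scale (fun x => bump x ^ 2) hL]
  rfl

theorem trial_kin {L : ℝ} (hL : 0 < L) (p : Fin N × Fin 3) :
    ∫ X, ‖fderiv ℝ (trial N L) X (Pi.single p.1 (Pi.single p.2 1))‖ ^ 2 =
      L ^ 2 * (kinB / massB) * ∫ X, ‖trial N L X‖ ^ 2 := by
  set G : Fin N × Fin 3 → ℝ → ℝ := fun q x =>
    if q = p then L ^ 2 * (deriv (fun x : ℝ => bump x) (L * x)) ^ 2 else bump (L * x) ^ 2 with hG
  have h1 : ∀ X, ‖fderiv ℝ (trial N L) X (Pi.single p.1 (Pi.single p.2 1))‖ ^ 2 =
      ∏ q : Fin N × Fin 3, G q (X q.1 q.2) := by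
    intro X
    rw [trial_fderiv, Complex.norm_real, Real.norm_eq_abs, sq_abs, mul_pow,
      ← Finset.prod_erase_mul _ _ (Finset.mem_univ p), ← Finset.prod_pow]
    congr 1
    · apply Finset.prod_congr rfl
      intro q hq
      simp only [hG]
      rw [if_neg (Finset.ne_of_mem_erase hq)]
    · simp only [hG, if_true]
      ring
  simp_rw [h1]
  rw [integral_coord_prod, trial_mass hL]
  have h2 : ∀ q : Fin N × Fin 3, ∫ x, G q x =
      (if q = p then L ^ 2 * (kinB / massB) else 1) * (L⁻¹ * massB) := by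
    intro q
    simp only [hG]
    have hm := massB_pos
    split_ifs
    · rw [integral_const_mul, integral_scale (fun x => (deriv (fun x : ℝ => bump x) x) ^ 2) hL]
      have : ∫ x : ℝ, (deriv (fun x : ℝ => bump x) x) ^ 2 = kinB := rfl
      rw [this]
      field_simp
    · rw [integral_scale (fun x => bump x ^ 2) hL, one_mul]
      rfl
  simp_rw [h2]
  rw [Finset.prod_mul_distrib]
  congr 1
  rw [Finset.prod_ite_eq' Finset.univ p]
  simp

end Trial

section Final

variable {N : ℕ}

theorem measurable_potential {β : ℝ} {U : (Fin 3 → ℝ) → ℝ} (hU : Measurable U)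
    {V : (Fin 3 → ℝ) → (Fin 3 → ℝ) → ℝ} (hV : Measurable (Function.uncurry V))
    {W : (Fin 3 → ℝ) → ℝ} (hW : Measurable W) :
    Measurable fun X : Fin N → Fin 3 → ℝ => potential N β U V W X := by
  unfold potential
  apply Measurable.add
  · apply Measurable.add
    · apply Finset.measurable_fun_sum
      intro i _
      exact hU.comp (measurable_pi_apply i)
    · apply Finset.measurable_fun_sum
      intro i _
      apply Finset.measurable_fun_sum
      intro j _
      by_cases h : i < j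
      · simp only [h, if_true]
        have h1 : Measurable fun X : Fin N → Fin 3 → ℝ => (N : ℝ) ^ β • (X i - X j) := by
          fun_prop
        exact (hW.comp h1).const_mul _
      · simp only [h, if_false]
        exact measurable_const
  · apply Finset.measurable_fun_sum
    intro i _
    apply Finset.measurable_fun_sum
    intro j _
    apply Finset.measurable_fun_sum
    intro k _
    by_cases h : i < j ∧ j < k
    · simp only [h, and_self, if_true]
      have h1 : Measurable fun X : Fin N → Fin 3 → ℝ =>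
          ((N : ℝ) ^ (1 / 2 : ℝ) • (X i - X j), (N : ℝ) ^ (1 / 2 : ℝ) • (X i - X k)) := by
        fun_prop
      exact (hV.comp h1).const_mul _
    · simp only [h, if_false]
      exact measurable_const

/-- The number of pairs. -/
noncomputable def cnt (N : ℕ) : ℝ := ∑ i : Fin N, ∑ j : Fin N, if i < j then (1 : ℝ) else 0

theorem cnt_nonneg (N : ℕ) : 0 ≤ cnt N := by
  unfold cnt
  apply Finset.sum_nonneg
  intro i _
  apply Finset.sum_nonneg
  intro j _
  split_ifs <;> norm_num

theorem two_cnt (N : ℕ) : 2 * cnt N + N = (N : ℝ) ^ 2 := by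
  have e1 : cnt N = ∑ i : Fin N, ∑ j : Fin N, if j < i then (1 : ℝ) else 0 := by
    unfold cnt
    rw [Finset.sum_comm]
  have e2 : (N : ℝ) = ∑ i : Fin N, ∑ j : Fin N, if i = j then (1 : ℝ) else 0 := by
    simp
  have e3 : (N : ℝ) ^ 2 = ∑ i : Fin N, ∑ j : Fin N, (1 : ℝ) := by
    simp
    ring
  have e4 : 2 * cnt N + (N : ℝ) = cnt N + (∑ i : Fin N, ∑ j : Fin N, if j < i then (1 : ℝ) else 0) +
      ∑ i : Fin N, ∑ j : Fin N, if i = j then (1 : ℝ) else 0 := by
    rw [← e1, ← e2]
    ring
  rw [e4, e3]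
  unfold cnt
  rw [← Finset.sum_add_distrib, ← Finset.sum_add_distrib]
  apply Finset.sum_congr rfl
  intro i _
  rw [← Finset.sum_add_distrib, ← Finset.sum_add_distrib]
  apply Finset.sum_congr rfl
  intro j _
  rcases lt_trichotomy i j with h | h | h
  · simp [h, h.ne, not_lt.mpr h.le]
  · simp [h]
  · simp [h, h.ne', not_lt.mpr h.le]

/-- The potential on the support of the trial function. -/
theorem potential_trial {β w L : ℝ} (hL : 0 < L) (hLβ : (N : ℝ) ^ β * (2 / L) ≤ 1)
    (hLs : (N : ℝ) ^ (1 / 2 : ℝ) * (2 / L) ≤ 2 / 7) {U : (Fin 3 → ℝ) → ℝ}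
    {X : Fin N → Fin 3 → ℝ} (hX : ∀ i a, |X i a| ≤ 1 / L) :
    potential N β U V0 (W0 w) X = (∑ i, U (X i)) - w * (N : ℝ) ^ (3 * β - 1) * cnt N := by
  have hd : ∀ i j a, |X i a - X j a| ≤ 2 / L := by
    intro i j a
    calc |X i a - X j a| ≤ |X i a| + |X j a| := abs_sub _ _
      _ ≤ 1 / L + 1 / L := add_le_add (hX i a) (hX j a)
      _ = 2 / L := by ring
  have hNβ : 0 ≤ (N : ℝ) ^ β := Real.rpow_nonneg (Nat.cast_nonneg _) _
  have hNs : 0 ≤ (N : ℝ) ^ (1 / 2 : ℝ) := Real.rpow_nonneg (Nat.cast_nonneg _) _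
  have hW : ∀ i j, W0 w ((N : ℝ) ^ β • (X i - X j)) = -w := by
    intro i j
    unfold W0
    rw [if_pos]
    intro a
    rw [Pi.smul_apply, Pi.sub_apply, smul_eq_mul, abs_mul, abs_of_nonneg hNβ]
    exact (mul_le_mul_of_nonneg_left (hd i j a) hNβ).trans hLβ
  have hs : ∀ i j a, |(N : ℝ) ^ (1 / 2 : ℝ) * (X i a - X j a)| ≤ 2 / 7 := by
    intro i j a
    rw [abs_mul, abs_of_nonneg hNs]
    exact (mul_le_mul_of_nonneg_left (hd i j a) hNs).trans hLs
  have hV : ∀ i j k, V0 ((N : ℝ) ^ (1 / 2 : ℝ) • (X i - X j))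
      ((N : ℝ) ^ (1 / 2 : ℝ) • (X i - X k)) = 0 := by
    intro i j k
    unfold V0
    rw [if_neg]
    rintro ⟨h1, _⟩
    have h2 := quad_zero_lt (x := (N : ℝ) ^ (1 / 2 : ℝ) • (X i - X j))
      (y := (N : ℝ) ^ (1 / 2 : ℝ) • (X i - X k)) (by
        intro a
        simp only [Pi.smul_apply, Pi.sub_apply, smul_eq_mul]
        refine ⟨hs i j a, hs i k a, ?_⟩
        have : (N : ℝ) ^ (1 / 2 : ℝ) * (X i a - X j a) - (N : ℝ) ^ (1 / 2 : ℝ) * (X i a - X k a) =
            (N : ℝ) ^ (1 / 2 : ℝ) * (X k a - X j a) := by ring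
        rw [this]
        exact hs k j a)
    linarith
  unfold potential cnt
  simp only [hW, hV, mul_zero, ite_self, Finset.sum_const_zero, add_zero]
  rw [sub_eq_add_neg (∑ i, U (X i)), Finset.mul_sum, ← Finset.sum_neg_distrib]
  congr 1
  apply Finset.sum_congr rfl
  intro i _
  rw [Finset.mul_sum, ← Finset.sum_neg_distrib]
  apply Finset.sum_congr rfl
  intro j _
  split_ifs <;> ring

/-- Instability for `β ≥ 1/3`. -/
theorem unstable_of_ge {β : ℝ} (hβ : 1 / 3 ≤ β) {U : (Fin 3 → ℝ) → ℝ} (hU : IsTrap U) :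
    ∃ (V : (Fin 3 → ℝ) → (Fin 3 → ℝ) → ℝ) (W : (Fin 3 → ℝ) → ℝ),
      IsThreeBody V ∧ IsPair W ∧ ¬ Stable β U V W := by
  have hm := massB_pos
  have hk := kinB_nonneg
  set κ := kinB / massB with hκ
  have hκ0 : 0 ≤ κ := by positivity
  set w := 4 * (147 * κ + 1) with hw
  have hw0 : 0 ≤ w := by positivity
  refine ⟨V0, W0 w, isThreeBody_V0, isPair_W0 hw0, ?_⟩
  rintro ⟨C, hC0, hC⟩
  obtain ⟨B, hB⟩ := hU.locBdd 1
  obtain ⟨N, hN⟩ := exists_nat_gt (max 2 (|B| + C))
  have hN2 : (2 : ℝ) < N := (le_max_left _ _).trans_lt hN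
  have hNBC : |B| + C < N := (le_max_right _ _).trans_lt hN
  have hN1 : 1 ≤ N := by
    have : (1 : ℝ) < N := by linarith
    exact_mod_cast this.le
  have hNpos : (0 : ℝ) < N := by linarith
  have hN1' : (1 : ℝ) ≤ N := by linarith
  set γ := max β (1 / 2) with hγ
  have hγ1 : β ≤ γ := le_max_left _ _
  have hγ2 : 1 / 2 ≤ γ := le_max_right _ _
  have hγ3 : 2 * γ ≤ 3 * β := by
    rw [hγ]
    rcases le_total β (1 / 2) with h | h
    · rw [max_eq_right h]
      linarith
    · rw [max_eq_left h]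
      linarith
  set L := 7 * (N : ℝ) ^ γ with hL
  have hNγ : 1 ≤ (N : ℝ) ^ γ := Real.one_le_rpow hN1' (by linarith)
  have hL7 : 7 ≤ L := by linarith
  have hLpos : 0 < L := by linarith
  set t := (N : ℝ) ^ (3 * β - 1) with ht
  have htN : t * (N : ℝ) ^ 2 = (N : ℝ) ^ (3 * β + 1) := by
    rw [ht, ← Real.rpow_natCast, ← Real.rpow_add hNpos]
    congr 1
    push_cast
    ring
  have htpos : 0 < t := Real.rpow_pos_of_pos hNpos _
  have hLβ : (N : ℝ) ^ β * (2 / L) ≤ 1 := by
    have h1 : (N : ℝ) ^ β ≤ (N : ℝ) ^ γ := Real.rpow_le_rpow_of_exponent_le hN1' hγ1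
    rw [mul_div_assoc', div_le_one hLpos]
    linarith
  have hLs : (N : ℝ) ^ (1 / 2 : ℝ) * (2 / L) ≤ 2 / 7 := by
    have h1 : (N : ℝ) ^ (1 / 2 : ℝ) ≤ (N : ℝ) ^ γ := Real.rpow_le_rpow_of_exponent_le hN1' hγ2
    rw [mul_div_assoc', div_le_div_iff₀ hLpos (by norm_num)]
    linarith
  set ψ := trial N L with hψ
  have hψt : IsTest N ψ := isTest_trial hLpos
  have hψ1 : ContDiff ℝ 1 ψ := hψt.smooth.of_le (by exact_mod_cast le_top)
  set M := ∫ X, ‖ψ X‖ ^ 2 with hM
  have hMpos : 0 < M := by
    rw [hM, hψ, trial_mass hLpos]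
    apply Finset.prod_pos
    intro p _
    positivity
  have hstab := hC N hN1 ψ hψt
  -- the potential energy
  have hae : ∀ᵐ X : Cfg (Fin N), ∀ i, len (X i) ≤ 1 → |U (X i)| ≤ B := by
    rw [volume_pi]
    rw [Filter.eventually_all]
    intro i
    have hq : Measure.QuasiMeasurePreserving (Function.eval i)
        (Measure.pi fun _ : Fin N => (volume : Measure (Fin 3 → ℝ))) volume :=
      Measure.quasiMeasurePreserving_eval (fun _ : Fin N => (volume : Measure (Fin 3 → ℝ))) i
    exact hq.ae hB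
  have hlen : ∀ X : Cfg (Fin N), (∀ i a, |X i a| ≤ 1 / L) → ∀ i, len (X i) ≤ 1 := by
    intro X hX i
    unfold len
    rw [Real.sqrt_le_one]
    have h1 : ∀ a, X i a ^ 2 ≤ 1 / 49 := by
      intro a
      have h2 : |X i a| ≤ 1 / 7 := by
        refine (hX i a).trans ?_
        exact one_div_le_one_div_of_le (by norm_num) hL7
      have := sq_le_sq' (abs_le.mp h2).1 (abs_le.mp h2).2
      norm_num at this
      linarith
    calc ∑ a, X i a ^ 2 ≤ ∑ _a : Fin 3, (1 / 49 : ℝ) := Finset.sum_le_sum fun a _ => h1 a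
      _ ≤ 1 := by
        simp
        norm_num
  have hUsum : ∀ᵐ X : Cfg (Fin N), ψ X ≠ 0 → |∑ i, U (X i)| ≤ N * |B| := by
    filter_upwards [hae] with X hX hne
    have h1 : ∀ i a, |X i a| ≤ 1 / L := fun i a => trial_supp hLpos hne i a
    calc |∑ i, U (X i)| ≤ ∑ i, |U (X i)| := Finset.abs_sum_le_sum_abs _ _
      _ ≤ ∑ _i : Fin N, |B| := Finset.sum_le_sum fun i _ =>
          (hX i (hlen X h1 i)).trans (le_abs_self B)
      _ = _ := by simp
  have hcnt := two_cnt N
  have hcnt0 := cnt_nonneg N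
  have hpot : ∀ᵐ X : Cfg (Fin N), potential N β U V0 (W0 w) X * ‖ψ X‖ ^ 2 ≤
      (N * |B| - w * t * cnt N) * ‖ψ X‖ ^ 2 := by
    filter_upwards [hUsum] with X hX
    by_cases hne : ψ X = 0
    · rw [hne]
      simp
    · have h1 : ∀ i a, |X i a| ≤ 1 / L := fun i a => trial_supp hLpos hne i a
      rw [potential_trial hLpos hLβ hLs h1]
      apply mul_le_mul_of_nonneg_right _ (sq_nonneg _)
      have := (abs_le.mp (hX hne)).2
      rw [← ht]
      linarith
  have hsq := integrable_sq hψ1.continuous hψt.supp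
  have hpi : Integrable fun X : Cfg (Fin N) => potential N β U V0 (W0 w) X * ‖ψ X‖ ^ 2 := by
    apply (hsq.const_mul (N * |B| + w * t * cnt N)).mono'
    · exact ((measurable_potential hU.measurable isThreeBody_V0.measurable
        (isPair_W0 hw0).measurable).mul (by
          have := hψ1.continuous
          fun_prop)).aestronglyMeasurable
    · filter_upwards [hUsum] with X hX
      by_cases hne : ψ X = 0
      · rw [hne]
        simp
      · have h1 : ∀ i a, |X i a| ≤ 1 / L := fun i a => trial_supp hLpos hne i a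
        rw [potential_trial hLpos hLβ hLs h1, Real.norm_eq_abs, abs_mul,
          abs_of_nonneg (sq_nonneg ‖ψ X‖)]
        apply mul_le_mul_of_nonneg_right _ (sq_nonneg _)
        refine (abs_sub _ _).trans ?_
        have h2 : |w * (N : ℝ) ^ (3 * β - 1) * cnt N| = w * t * cnt N := by
          rw [← ht, abs_of_nonneg (by positivity)]
        rw [h2]
        have := hX hne
        linarith
  have hkin : ∫ X, grad2 ψ X = 3 * N * (L ^ 2 * κ * M) := by
    unfold grad2
    rw [integral_finsetSum]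
    · have h1 : ∀ i : Fin N, ∫ X : Cfg (Fin N), ∑ a : Fin 3,
          ‖fderiv ℝ ψ X (Pi.single i (Pi.single a 1))‖ ^ 2 = 3 * (L ^ 2 * κ * M) := by
        intro i
        rw [integral_finsetSum]
        · have h2 : ∀ a : Fin 3, ∫ X : Cfg (Fin N),
              ‖fderiv ℝ ψ X (Pi.single i (Pi.single a 1))‖ ^ 2 = L ^ 2 * κ * M := fun a =>
            trial_kin hLpos (i, a)
          simp_rw [h2]
          simp
        · intro a _
          apply Continuous.integrable_of_hasCompactSupport
          · have h1 := hψ1.continuous_fderiv one_ne_zero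
            fun_prop
          · have h1 : (fun X => ‖fderiv ℝ ψ X (Pi.single i (Pi.single a 1))‖ ^ 2) =
              (fun L : Cfg (Fin N) →L[ℝ] ℂ => ‖L (Pi.single i (Pi.single a 1))‖ ^ 2) ∘
                (fderiv ℝ ψ) := rfl
            rw [h1]
            exact (hψt.supp.fderiv ℝ).comp_left (by simp)
      simp_rw [h1]
      simp
      ring
    · intro i _
      apply Continuous.integrable_of_hasCompactSupport
      · have h1 := hψ1.continuous_fderiv one_ne_zero
        fun_prop
      · have h1 : (fun X => ∑ a : Fin 3, ‖fderiv ℝ ψ X (Pi.single i (Pi.single a 1))‖ ^ 2) =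
          (fun L : Cfg (Fin N) →L[ℝ] ℂ => ∑ a : Fin 3, ‖L (Pi.single i (Pi.single a 1))‖ ^ 2) ∘
            (fderiv ℝ ψ) := rfl
        rw [h1]
        exact (hψt.supp.fderiv ℝ).comp_left (by simp)
  have hen : energy N β U V0 (W0 w) ψ ≤ 3 * N * (L ^ 2 * κ * M) +
      (N * |B| - w * t * cnt N) * M := by
    have h1 : energy N β U V0 (W0 w) ψ = ∫ X : Cfg (Fin N), (grad2 ψ X +
        potential N β U V0 (W0 w) X * ‖ψ X‖ ^ 2) := rfl
    have h2 := integral_mono_ae hpi (hsq.const_mul (N * |B| - w * t * cnt N)) hpot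
    rw [integral_const_mul, ← hM] at h2
    rw [h1, integral_add (integrable_grad2 hψ1 hψt.supp) hpi, hkin]
    linarith
  have hL2 : (N : ℝ) * L ^ 2 ≤ 49 * (t * (N : ℝ) ^ 2) := by
    have h1 : (N : ℝ) * L ^ 2 = 49 * (N : ℝ) ^ (2 * γ + 1) := by
      rw [hL, mul_pow, ← Real.rpow_natCast ((N : ℝ) ^ γ), ← Real.rpow_mul hNpos.le,
        Real.rpow_add hNpos, Real.rpow_one]
      push_cast
      rw [mul_comm γ 2]
      ring
    rw [h1, htN]
    gcongr
  have htN2 : (N : ℝ) ^ 2 ≤ t * (N : ℝ) ^ 2 := by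
    have : 1 ≤ t := Real.one_le_rpow hN1' (by linarith)
    nlinarith [sq_nonneg (N : ℝ)]
  have hc4 : (N : ℝ) ^ 2 ≤ 4 * cnt N := by nlinarith
  have h5 : 3 * N * (L ^ 2 * κ * M) + (N * |B| - w * t * cnt N) * M ≤
      (N * |B| - N ^ 2) * M := by
    have e1 : 3 * (N : ℝ) * (L ^ 2 * κ * M) = (3 * κ * (N * L ^ 2)) * M := by ring
    rw [e1, ← add_mul]
    apply mul_le_mul_of_nonneg_right _ hMpos.le
    have h6 : 3 * κ * (N * L ^ 2) ≤ 3 * κ * (49 * (t * (N : ℝ) ^ 2)) := by gcongr
    have h7 : w * t * (N : ℝ) ^ 2 ≤ w * t * (4 * cnt N) := by gcongr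
    have h8 : w * t * (N : ℝ) ^ 2 = 4 * (147 * κ + 1) * (t * (N : ℝ) ^ 2) := by
      rw [hw]
      ring
    nlinarith
  have h6 : -C * N * M ≤ (N * |B| - N ^ 2) * M := hstab.trans (hen.trans h5)
  have h7 : -C * N ≤ N * |B| - N ^ 2 := le_of_mul_le_mul_right h6 hMpos
  nlinarith

end Final

end Pool.Agent.H50.Bose
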